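import Pool.Graph.R_seed8.TH61.TRI.Cyc

/-!
# Non-critical periodic orbits over an algebraically closed field of any characteristic
-/

set_option autoImplicit false

namespace Pool.Agent.H78.Zd

open Polynomial Pool.Agent.TH61.TRI

/-- If all periodic orbits meet a finite set, then there are only finitely many periodic points. -/
theorem per_finite {S : Type*} (Ψ : S → S) (Ξ : Set S) (hΞ : Ξ.Finite)
    (h : ∀ x ∈ Function.periodicPts Ψ, ∃ s, Ψ^[s] x ∈ Ξ) : (Function.periodicPts Ψ).Finite := by
  classical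
  have h1 : (⋃ ξ ∈ Ξ, (fun j => Ψ^[j] ξ) '' (Set.Iio (Function.minimalPeriod Ψ ξ))).Finite :=
    hΞ.biUnion fun ξ _ => (Set.finite_Iio _).image _
  refine h1.subset ?_
  intro x hx
  obtain ⟨s, hs⟩ := h x hx
  obtain ⟨m, hm, hmx⟩ := hx
  -- return to `x`
  have h2 : Ψ^[m * s - s] (Ψ^[s] x) = x := by
    rw [← Function.iterate_add_apply, Nat.sub_add_cancel (Nat.le_mul_of_pos_left s hm)]
    exact (hmx.mul_const s)
  have h3 : Function.IsPeriodicPt Ψ m (Ψ^[s] x) := hmx.apply_iterate s
  have h4 : Ψ^[s] x ∈ Function.periodicPts Ψ := ⟨m, hm, h3⟩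
  refine Set.mem_biUnion hs ⟨(m * s - s) % Function.minimalPeriod Ψ (Ψ^[s] x), ?_, ?_⟩
  · exact Nat.mod_lt _ (Function.minimalPeriod_pos_of_mem_periodicPts h4)
  · show Ψ^[(m * s - s) % Function.minimalPeriod Ψ (Ψ^[s] x)] (Ψ^[s] x) = x
    rw [Function.iterate_mod_minimalPeriod_eq, h2]

theorem deriv_iter_prod {K : Type*} [Field K] (G : K[X]) (m : ℕ) (t : K) :
    (derivative (G.comp^[m] X)).eval t =
      ∏ j ∈ Finset.range m, (derivative G).eval ((fun y => G.eval y)^[j] t) := by
  induction m with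
  | zero => simp
  | succ m ih =>
    rw [Function.iterate_succ_apply', derivative_comp, eval_mul, ih, eval_comp,
      iterate_comp_eval, eval_X, Finset.prod_range_succ]

/-- a periodic point whose orbit contains no critical point -/
theorem exists_noncrit {K : Type*} [Field K] [IsAlgClosed K] (G : K[X]) (hG : 2 ≤ G.natDegree)
    (hG' : derivative G ≠ 0) :
    ∃ (t : K) (m : ℕ), 0 < m ∧ (fun y => G.eval y)^[m] t = t ∧
      ∀ j, (derivative G).eval ((fun y => G.eval y)^[j] t) ≠ 0 := by
  classical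
  by_contra hcon
  push Not at hcon
  set Ψ : K → K := fun y => G.eval y with hΨ
  have hfin : (Function.periodicPts Ψ).Finite := by
    apply per_finite Ψ ((derivative G).roots.toFinset : Set K) (Finset.finite_toSet _)
    rintro x ⟨m, hm, hx⟩
    obtain ⟨j, hj⟩ := hcon x m hm hx
    refine ⟨j, ?_⟩
    simp only [Finset.mem_coe, Multiset.mem_toFinset, mem_roots', ne_eq, hG', not_false_eq_true,
      true_and]
    exact hj
  set B := hfin.toFinset.card with hB
  set m := B + 1 with hm
  set P : K[X] := G.comp^[m] X - X with hP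
  have hdeg : (G.comp^[m] X).natDegree = G.natDegree ^ m := by
    rw [natDegree_iterate_comp, natDegree_X, mul_one]
  have h2m : m < 2 ^ m := Nat.lt_two_pow_self
  have hdm : 2 ^ m ≤ G.natDegree ^ m := Nat.pow_le_pow_left hG m
  have hPd : P.natDegree = G.natDegree ^ m := by
    rw [hP, natDegree_sub_eq_left_of_natDegree_lt, hdeg]
    rw [natDegree_X, hdeg]
    omega
  have hP0 : P ≠ 0 := by
    intro h0
    rw [h0, natDegree_zero] at hPd
    omega
  have hroot : ∀ t, P.IsRoot t ↔ Ψ^[m] t = t := by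
    intro t
    rw [IsRoot.def, hP, eval_sub, eval_X, iterate_comp_eval, eval_X, sub_eq_zero]
  have hsimple : ∀ t, P.IsRoot t → (derivative P).eval t ≠ 0 := by
    intro t ht
    rw [hroot] at ht
    obtain ⟨j, hj⟩ := hcon t m (Nat.succ_pos _) ht
    have hj' : (derivative G).eval (Ψ^[j % m] t) = 0 := by
      have hpp : Function.IsPeriodicPt Ψ m t := ht
      rw [hpp.iterate_mod_apply]
      exact hj
    rw [hP, derivative_sub, derivative_X, eval_sub, eval_one, deriv_iter_prod,
      Finset.prod_eq_zero (Finset.mem_range.2 (Nat.mod_lt j (Nat.succ_pos _))) hj', zero_sub]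
    exact neg_ne_zero.2 one_ne_zero
  have hnodup : P.roots.Nodup := by
    rw [Multiset.nodup_iff_count_le_one]
    intro t
    rw [count_roots]
    by_contra hlt
    push Not at hlt
    have h3 := (one_lt_rootMultiplicity_iff_isRoot hP0).1 hlt
    exact hsimple t h3.1 h3.2
  have hcard : P.roots.toFinset.card = G.natDegree ^ m := by
    rw [Multiset.toFinset_card_of_nodup hnodup, ← hPd]
    exact (splits_iff_card_roots.1 (IsAlgClosed.splits P))
  have hsub : P.roots.toFinset ⊆ hfin.toFinset := by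
    intro t ht
    rw [Multiset.mem_toFinset, mem_roots hP0, hroot] at ht
    rw [Set.Finite.mem_toFinset]
    exact ⟨m, Nat.succ_pos _, ht⟩
  have h5 := Finset.card_le_card hsub
  rw [hcard] at h5
  omega

theorem deriv_Hs {K : Type} [Field K] (h : ℕ → K[X]) (n : ℕ) (t : K) :
    (derivative (Hs h n)).eval t =
      ∏ s ∈ Finset.range n, (derivative (h s)).eval ((Hs h s).eval t) := by
  induction n with
  | zero => simp [Hs]
  | succ n ih =>
    show (derivative ((h n).comp (Hs h n))).eval t = _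
    rw [derivative_comp, eval_mul, ih, eval_comp, Finset.prod_range_succ]

theorem deriv_Hs_ne {K : Type} [Field K] (h : ℕ → K[X]) (hd : ∀ s, 2 ≤ (h s).natDegree)
    (hd' : ∀ s, derivative (h s) ≠ 0) (n : ℕ) : derivative (Hs h n) ≠ 0 := by
  induction n with
  | zero => simp [Hs]
  | succ n ih =>
    show derivative ((h n).comp (Hs h n)) ≠ 0
    rw [derivative_comp]
    refine mul_ne_zero ih fun h0 => ?_
    rcases comp_eq_zero_iff.1 h0 with h1 | ⟨-, h1⟩
    · exact hd' n h1
    · have h2 := Hs_deg hd n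
      rw [h1, natDegree_C] at h2
      have h3 : 0 < 2 ^ n := Nat.two_pow_pos n
      omega

/-- the non-autonomous version -/
theorem cyc_any {K : Type} [Field K] [IsAlgClosed K] {h : ℕ → K[X]} {M : ℕ} (hM0 : 0 < M)
    (hM : ∀ s, h (s + M) = h s) (hd : ∀ s, 2 ≤ (h s).natDegree)
    (hd' : ∀ s, derivative (h s) ≠ 0) :
    ∃ L, 0 < L ∧ ∃ t : ℕ → K, (∀ s, t (s + 1) = (h s).eval (t s)) ∧
      (∀ s, t (s + M * L) = t s) ∧ ∀ s, (derivative (h s)).eval (t s) ≠ 0 := by
  set G := Hs h M with hG
  have hGd : 2 ≤ G.natDegree := by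
    have h1 := Hs_deg hd M
    have h2 : 2 ^ 1 ≤ 2 ^ M := Nat.pow_le_pow_right (by norm_num) hM0
    rw [← hG] at h1
    omega
  obtain ⟨t, m, hm, htm, htj⟩ := exists_noncrit G hGd (deriv_Hs_ne h hd hd' M)
  refine ⟨m, hm, fun s => (Hs h s).eval t, ?_, ?_, ?_⟩
  · intro s
    show ((h s).comp (Hs h s)).eval t = _
    rw [eval_comp]
  · intro s
    show (Hs h (s + M * m)).eval t = _
    rw [add_comm, Hs_mul hM, htm]
  · intro s
    have e1 : (Hs h s).eval t = (Hs h (s % M)).eval ((fun y => G.eval y)^[s / M] t) := by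
      conv_lhs => rw [← Nat.div_add_mod s M]
      rw [Hs_mul hM]
    have e2 : h s = h (s % M) := by
      conv_lhs => rw [← Nat.mod_add_div s M]
      generalize s / M = q
      induction q with
      | zero => rw [mul_zero, add_zero]
      | succ q ih => rw [Nat.mul_succ, ← add_assoc, hM, ih]
    show (derivative (h s)).eval ((Hs h s).eval t) ≠ 0
    rw [e1, e2]
    have h3 := htj (s / M)
    rw [hG, deriv_Hs] at h3
    exact Finset.prod_ne_zero_iff.1 h3 (s % M) (Finset.mem_range.2 (Nat.mod_lt s hM0))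

end Pool.Agent.H78.Zd
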