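import Mathlib

/-!
# The valuation ring of a place and its residue field
-/

set_option autoImplicit false

namespace Pool.Agent.H78.Zd

open Polynomial Filter Topology

section
variable {p : ℕ} [Fact p.Prime]

theorem nadd {x y : PadicAlgCl p} {r : ℝ} (hx : ‖x‖ ≤ r) (hy : ‖y‖ ≤ r) : ‖x + y‖ ≤ r :=
  (PadicAlgCl.isNonarchimedean p x y).trans (max_le hx hy)

theorem nadd' {x y : PadicAlgCl p} {r : ℝ} (hx : ‖x‖ < r) (hy : ‖y‖ < r) : ‖x + y‖ < r :=
  (PadicAlgCl.isNonarchimedean p x y).trans_lt (max_lt hx hy)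

theorem nsum {ι : Type*} (s : Finset ι) (f : ι → PadicAlgCl p) {r : ℝ} (hr : 0 ≤ r)
    (h : ∀ i ∈ s, ‖f i‖ ≤ r) : ‖∑ i ∈ s, f i‖ ≤ r :=
  Finset.sum_induction f (fun x => ‖x‖ ≤ r) (fun _ _ => nadd) (by simpa using hr) h

theorem nsum' {ι : Type*} (s : Finset ι) (f : ι → PadicAlgCl p) {r : ℝ} (hr : 0 < r)
    (h : ∀ i ∈ s, ‖f i‖ < r) : ‖∑ i ∈ s, f i‖ < r :=
  Finset.sum_induction f (fun x => ‖x‖ < r) (fun _ _ => nadd') (by simpa using hr) h

theorem nmul1 {x y : PadicAlgCl p} {r : ℝ} (hx : ‖x‖ ≤ 1) (hy : ‖y‖ ≤ r) : ‖x * y‖ ≤ r := by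
  rw [norm_mul]
  exact (mul_le_of_le_one_left (norm_nonneg _) hx).trans hy

theorem nmul1' {x y : PadicAlgCl p} {r : ℝ} (hx : ‖x‖ ≤ 1) (hy : ‖y‖ < r) : ‖x * y‖ < r := by
  rw [norm_mul]
  exact (mul_le_of_le_one_left (norm_nonneg _) hx).trans_lt hy

theorem nnat (n : ℕ) : ‖(n : PadicAlgCl p)‖ = ‖(n : ℚ_[p])‖ := by
  rw [← PadicAlgCl.norm_extends, map_natCast]

theorem nnat_le (n : ℕ) : ‖(n : PadicAlgCl p)‖ ≤ 1 := by
  rw [nnat]
  have := Padic.norm_int_le_one (p := p) (n : ℤ)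
  simpa using this

theorem nnat_lt {n : ℕ} (h : p ∣ n) : ‖(n : PadicAlgCl p)‖ < 1 := by
  rw [nnat]
  exact Padic.norm_natCast_lt_one_iff.2 h

theorem nnat_eq {n : ℕ} (h : ¬ p ∣ n) : ‖(n : PadicAlgCl p)‖ = 1 := by
  refine le_antisymm (nnat_le n) (not_lt.1 fun hlt => h ?_)
  rw [nnat] at hlt
  exact Padic.norm_natCast_lt_one_iff.1 hlt

/-- compactness -/
theorem pigeon {σ : Type*} [Finite σ] (L : IntermediateField ℚ_[p] (PadicAlgCl p))
    [FiniteDimensional ℚ_[p] L] (u : ℕ → σ → PadicAlgCl p) (hL : ∀ n i, u n i ∈ L)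
    (h1 : ∀ n i, ‖u n i‖ ≤ 1) {ε : ℝ} (hε : 0 < ε) (N₀ : ℕ) :
    ∃ a b, a + N₀ ≤ b ∧ ∀ i, ‖u a i - u b i‖ ≤ ε := by
  have := Fintype.ofFinite σ
  let S : Submodule ℚ_[p] (PadicAlgCl p) := L.toSubalgebra.toSubmodule
  have hfd : FiniteDimensional ℚ_[p] S := inferInstanceAs (FiniteDimensional ℚ_[p] L)
  have hprop : ProperSpace S := FiniteDimensional.proper ℚ_[p] S
  let C : Set (PadicAlgCl p) := (fun x : S => (x : PadicAlgCl p)) '' Metric.closedBall (0 : S) 1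
  have hC : IsCompact C := (isCompact_closedBall (0 : S) 1).image continuous_subtype_val
  have hCpi : IsCompact (Set.pi Set.univ fun _ : σ => C) := isCompact_univ_pi fun _ => hC
  have hu : ∀ n, u n ∈ Set.pi Set.univ fun _ : σ => C := by
    intro n i _
    refine ⟨⟨u n i, hL n i⟩, ?_, rfl⟩
    rw [mem_closedBall_zero_iff]
    exact h1 n i
  obtain ⟨a, -, φ, hφ, hlim⟩ := hCpi.tendsto_subseq hu
  have hc := hlim.cauchySeq
  rw [Metric.cauchySeq_iff'] at hc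
  obtain ⟨N, hN⟩ := hc ε hε
  have h2 := hN (N + φ N + N₀) (by omega)
  have h3 : N + φ N + N₀ ≤ φ (N + φ N + N₀) := hφ.id_le _
  refine ⟨φ N, φ (N + φ N + N₀), by omega, fun i => ?_⟩
  have h4 := (dist_pi_lt_iff hε).1 h2 i
  rw [dist_comm, dist_eq_norm] at h4
  exact h4.le

end

section
variable {p : ℕ} [Fact p.Prime] {K : Type} [Field K] (τ : K →+* PadicAlgCl p)

/-- the valuation ring -/
def O : Subring K where
  carrier := {x | ‖τ x‖ ≤ 1}
  mul_mem' := by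
    intro a b ha hb
    show ‖τ (a * b)‖ ≤ 1
    rw [map_mul]; exact nmul1 ha hb
  one_mem' := by show ‖τ 1‖ ≤ 1; simp
  add_mem' := by
    intro a b ha hb
    show ‖τ (a + b)‖ ≤ 1
    rw [map_add]; exact nadd ha hb
  zero_mem' := by show ‖τ 0‖ ≤ 1; simp
  neg_mem' := by
    intro a ha
    show ‖τ (-a)‖ ≤ 1
    rw [map_neg, norm_neg]; exact ha

theorem mem_O {x : K} : x ∈ O τ ↔ ‖τ x‖ ≤ 1 := Iff.rfl

/-- the ball of radius `r` as an ideal -/
def I (r : ℝ) (hr : 0 ≤ r) : Ideal (O τ) where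
  carrier := {x | ‖τ (x : K)‖ ≤ r}
  add_mem' := by
    intro a b ha hb
    show ‖τ ((a : K) + b)‖ ≤ r
    rw [map_add]; exact nadd ha hb
  zero_mem' := by show ‖τ 0‖ ≤ r; simpa using hr
  smul_mem' := by
    intro c x hx
    show ‖τ ((c : K) * x)‖ ≤ r
    rw [map_mul]; exact nmul1 c.2 hx

/-- the maximal ideal -/
def Om : Ideal (O τ) where
  carrier := {x | ‖τ (x : K)‖ < 1}
  add_mem' := by
    intro a b ha hb
    show ‖τ ((a : K) + b)‖ < 1
    rw [map_add]; exact nadd' ha hb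
  zero_mem' := by show ‖τ 0‖ < 1; simp
  smul_mem' := by
    intro c x hx
    show ‖τ ((c : K) * x)‖ < 1
    rw [map_mul]; exact nmul1' c.2 hx

theorem mem_I {r : ℝ} {hr : 0 ≤ r} {x : O τ} : x ∈ I τ r hr ↔ ‖τ (x : K)‖ ≤ r := Iff.rfl
theorem mem_Om {x : O τ} : x ∈ Om τ ↔ ‖τ (x : K)‖ < 1 := Iff.rfl

theorem norm_eq_one {x : O τ} (hx : x ∉ Om τ) : ‖τ (x : K)‖ = 1 :=
  le_antisymm x.2 (not_lt.1 hx)

instance Om_max : (Om τ).IsMaximal := by
  rw [Ideal.isMaximal_iff]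
  constructor
  · rw [mem_Om]; simp
  · intro J x _ hx hxJ
    have h1 := norm_eq_one τ hx
    have hinv : (x : K)⁻¹ ∈ O τ := by
      rw [mem_O, map_inv₀, norm_inv, h1, inv_one]
    have h0 : (x : K) ≠ 0 := by
      intro h0
      rw [h0, map_zero, norm_zero] at h1
      exact zero_ne_one h1
    have h2 : (⟨(x : K)⁻¹, hinv⟩ : O τ) * x = 1 := Subtype.ext (inv_mul_cancel₀ h0)
    rw [← h2]
    exact J.mul_mem_left _ hxJ

/-- the residue field -/
abbrev k := O τ ⧸ Om τ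

noncomputable instance : Field (k τ) := Ideal.Quotient.field _

theorem root_mem (q : (O τ)[X]) (hq : q.Monic) (α : K)
    (hα : (q.map (O τ).subtype).eval α = 0) : α ∈ O τ := by
  rw [mem_O]
  by_contra hlt
  push Not at hlt
  rw [eval_map, eval₂_eq_sum_range, Finset.sum_range_succ] at hα
  have hlc : q.coeff q.natDegree = 1 := hq
  rw [hlc, map_one, one_mul] at hα
  have h1 : τ α ^ q.natDegree = - ∑ i ∈ Finset.range q.natDegree,
      τ ((O τ).subtype (q.coeff i)) * τ α ^ i := by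
    rw [← map_pow, eq_neg_iff_add_eq_zero, add_comm]
    rw [← map_zero τ, ← hα, map_add, map_sum]
    simp only [map_mul, map_pow]
  rcases Nat.eq_zero_or_pos q.natDegree with h0 | h0
  · rw [h0] at h1
    simp at h1
  · have h2 : ‖τ α ^ q.natDegree‖ ≤ ‖τ α‖ ^ (q.natDegree - 1) := by
      rw [h1, norm_neg]
      refine nsum _ _ (by positivity) fun i hi => ?_
      refine nmul1 (q.coeff i).2 ?_
      rw [norm_pow]
      exact pow_le_pow_right₀ hlt.le (by have := Finset.mem_range.1 hi; omega)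
    rw [norm_pow] at h2
    have h3 := (pow_le_pow_iff_right₀ hlt).1 h2
    omega

instance [IsAlgClosed K] : IsAlgClosed (k τ) := by
  apply IsAlgClosed.of_exists_root
  intro f hf hirr
  have hl : f ∈ lifts (Ideal.Quotient.mk (Om τ)) := by
    rw [mem_lifts]
    exact map_surjective _ Ideal.Quotient.mk_surjective f
  obtain ⟨q, hq1, hq2, hq3⟩ := lifts_and_natDegree_eq_and_monic hl hf
  have hd : 0 < f.natDegree := hirr.natDegree_pos
  obtain ⟨α, hα⟩ := IsAlgClosed.exists_root (q.map (O τ).subtype) (by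
    have h1 : (q.map (O τ).subtype).natDegree = q.natDegree := hq3.natDegree_map _
    intro h0
    have h2 := natDegree_eq_of_degree_eq_some (n := 0) (by simpa using h0)
    omega)
  have hα' := root_mem τ q hq3 α hα
  refine ⟨Ideal.Quotient.mk _ ⟨α, hα'⟩, ?_⟩
  have h3 : q.eval ⟨α, hα'⟩ = 0 := by
    apply Subtype.ext
    have h4 := eval_map_apply (O τ).subtype (⟨α, hα'⟩ : O τ) (p := q)
    have h5 : (q.map (O τ).subtype).eval α = 0 := hα
    exact h4.symm.trans h5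
  rw [← hq1, eval_map_apply, h3, map_zero]

end

end Pool.Agent.H78.Zd
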