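import Pool.Agent.H78.Zd.B

/-!
# Recurrent sequences at a place, density, approximation
-/

set_option autoImplicit false

namespace Pool.Agent.H78.Zd

open Polynomial Filter Topology

section
variable {p : ℕ} [Fact p.Prime] {K : Type} [Field K]

/-- A sequence of integral points which moves isometrically modulo the maximal ideal. -/
structure Good (τ : K →+* PadicAlgCl p) {n : ℕ} (z : ℕ → Fin n → K) : Prop where
  int : ∀ m i, ‖τ (z m i)‖ ≤ 1
  fin : ∃ L : IntermediateField ℚ_[p] (PadicAlgCl p), FiniteDimensional ℚ_[p] L ∧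
    ∀ m i, τ (z m i) ∈ L
  per : ∃ l, 0 < l ∧ ∀ m i, ‖τ (z (m + l) i) - τ (z m i)‖ < 1
  lip : ∀ m m' (ε : ℝ), 0 ≤ ε → (∀ i, ‖τ (z m i) - τ (z m' i)‖ ≤ ε) →
    ∀ i, ‖τ (z (m + 1) i) - τ (z (m' + 1) i)‖ ≤ ε
  back : ∀ m m' (ε : ℝ), 0 ≤ ε → (∀ i, ‖τ (z m i) - τ (z m' i)‖ < 1) →
    (∀ i, ‖τ (z (m + 1) i) - τ (z (m' + 1) i)‖ ≤ ε) → ∀ i, ‖τ (z m i) - τ (z m' i)‖ ≤ ε

variable {τ : K →+* PadicAlgCl p} {n : ℕ} {z : ℕ → Fin n → K}

theorem per_mul {l : ℕ} (hl : ∀ m i, ‖τ (z (m + l) i) - τ (z m i)‖ < 1) (q : ℕ) :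
    ∀ m i, ‖τ (z (m + l * q) i) - τ (z m i)‖ < 1 := by
  induction q with
  | zero => intro m i; simp
  | succ q ih =>
    intro m i
    have h1 := ih (m + l) i
    have h2 := hl m i
    have e1 : m + l * (q + 1) = m + l + l * q := by ring
    have e2 : τ (z (m + l * (q + 1)) i) - τ (z m i) =
        (τ (z (m + l + l * q) i) - τ (z (m + l) i)) + (τ (z (m + l) i) - τ (z m i)) := by
      rw [e1]; ring
    rw [e2]
    exact nadd' h1 h2

theorem Good.rec1 (h : Good τ z) {ε : ℝ} (hε : 0 < ε) (N₀ : ℕ) :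
    ∃ M, N₀ ≤ M ∧ ∀ m i, ‖τ (z m i) - τ (z (m + M) i)‖ ≤ ε := by
  obtain ⟨l, hl0, hl⟩ := h.per
  obtain ⟨L, hL, hLz⟩ := h.fin
  obtain ⟨a, b, hab, hd⟩ := pigeon L (fun n i => τ (z (l * n) i)) (fun n i => hLz _ i)
    (fun n i => h.int _ i) hε N₀
  set M := l * (b - a) with hM
  have hMN : N₀ ≤ M := by
    have h1 : b - a ≤ l * (b - a) := Nat.le_mul_of_pos_left _ hl0
    omega
  have hb : l * b = l * a + M := by
    rw [hM, ← mul_add]
    congr 1
    omega
  have hback : ∀ s, s ≤ l * a → ∀ i, ‖τ (z (l * a - s) i) - τ (z (l * a - s + M) i)‖ ≤ ε := by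
    intro s
    induction s with
    | zero =>
      intro _ i
      rw [Nat.sub_zero, ← hb]
      exact hd i
    | succ s ih =>
      intro hs
      have e1 : l * a - s = l * a - (s + 1) + 1 := by omega
      have h1 := ih (by omega)
      rw [e1] at h1
      refine h.back _ _ ε hε.le ?_ ?_
      · intro i
        rw [norm_sub_rev, hM]
        exact per_mul hl (b - a) _ i
      · intro i
        have h2 := h1 i
        have e2 : l * a - (s + 1) + 1 + M = l * a - (s + 1) + M + 1 := by omega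
        rwa [e2] at h2
  refine ⟨M, hMN, ?_⟩
  intro m
  induction m with
  | zero =>
    intro i
    have := hback (l * a) le_rfl i
    rwa [Nat.sub_self] at this
  | succ m ih =>
    have h1 := h.lip m (m + M) ε hε.le ih
    intro i
    have e2 : m + 1 + M = m + M + 1 := by omega
    rw [e2]
    exact h1 i

theorem Good.rec2 (h : Good τ z) : ∃ M : ℕ → ℕ, Tendsto M atTop atTop ∧
    ∀ m i, Tendsto (fun k => τ (z (m + M k) i)) atTop (𝓝 (τ (z m i))) := by
  choose M hM1 hM2 using fun k : ℕ => h.rec1 (ε := 1 / ((k : ℝ) + 1)) (by positivity) k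
  refine ⟨M, tendsto_atTop_mono hM1 tendsto_id, fun m i => ?_⟩
  rw [tendsto_iff_norm_sub_tendsto_zero]
  refine squeeze_zero (fun k => norm_nonneg _) (fun k => ?_) tendsto_one_div_add_atTop_nhds_zero_nat
  rw [norm_sub_rev]
  exact hM2 k m i

/-- Zariski density of a sequence of points -/
def Dense {n : ℕ} (z : ℕ → Fin n → K) : Prop :=
  ∀ R : MvPolynomial (Fin n) K, (∀ m, MvPolynomial.eval (z m) R = 0) → R = 0

theorem dens_step (h : Good τ z) (hz : Dense z) (x : ℕ → K) (hx : ∀ m, x m ≠ 0)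
    (hlim : Tendsto (fun m => (τ (x m))⁻¹) atTop (𝓝 0)) :
    Dense (fun m => (Fin.cons (x m) (z m) : Fin (n + 1) → K)) := by
  obtain ⟨M, h3, h4⟩ := h.rec2
  intro R hR
  by_contra hne
  have hQ0 : MvPolynomial.finSuccEquiv K n R ≠ 0 := by
    intro h
    exact hne ((map_eq_zero_iff _ (MvPolynomial.finSuccEquiv K n).injective).1 h)
  set Q := MvPolynomial.finSuccEquiv K n R with hQ
  apply hQ0
  rw [← Polynomial.leadingCoeff_eq_zero]
  apply hz
  intro m
  apply τ.injective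
  rw [map_zero]
  have lim1 : ∀ c : MvPolynomial (Fin n) K,
      Tendsto (fun k => τ (MvPolynomial.eval (z (m + M k)) c)) atTop
        (𝓝 (τ (MvPolynomial.eval (z m) c))) := by
    intro c
    induction c using MvPolynomial.induction_on with
    | C a => simp only [MvPolynomial.eval_C]; exact tendsto_const_nhds
    | add p q hp hq =>
      simp only [map_add]
      exact hp.add hq
    | mul_X p j hp =>
      simp only [map_mul, MvPolynomial.eval_X]
      exact hp.mul (h4 m j)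
  have lim0 : Tendsto (fun k => (τ (x (m + M k)))⁻¹) atTop (𝓝 0) :=
    hlim.comp (tendsto_atTop_mono (fun k => Nat.le_add_left (M k) m) h3)
  set D := Q.natDegree with hD
  have lim2 : Tendsto (fun k => ∑ j ∈ Finset.range (D + 1),
      τ (MvPolynomial.eval (z (m + M k)) (Q.coeff j)) * ((τ (x (m + M k)))⁻¹) ^ (D - j)) atTop
      (𝓝 (∑ j ∈ Finset.range (D + 1), τ (MvPolynomial.eval (z m) (Q.coeff j)) *
        (0 : PadicAlgCl p) ^ (D - j))) :=
    tendsto_finsetSum _ fun j _ => (lim1 (Q.coeff j)).mul (lim0.pow (D - j))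
  have hzero : ∀ k, ∑ j ∈ Finset.range (D + 1),
      τ (MvPolynomial.eval (z (m + M k)) (Q.coeff j)) *
        ((τ (x (m + M k)))⁻¹) ^ (D - j) = 0 := by
    intro k
    have h5 := hR (m + M k)
    rw [MvPolynomial.eval_eq_eval_mv_eval', ← hQ,
      Polynomial.eval_eq_sum_range' (n := D + 1)
        (lt_of_le_of_lt Polynomial.natDegree_map_le (Nat.lt_succ_self _))] at h5
    simp only [Polynomial.coeff_map] at h5
    set y := x (m + M k) with hy
    have hx0 : τ y ≠ 0 := by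
      rw [_root_.map_ne_zero]
      exact hx _
    have h6 : (τ y) ^ D * ∑ j ∈ Finset.range (D + 1),
        τ (MvPolynomial.eval (z (m + M k)) (Q.coeff j)) * ((τ y)⁻¹) ^ (D - j) = 0 := by
      rw [← map_zero τ, ← h5, map_sum, Finset.mul_sum]
      refine Finset.sum_congr rfl fun j hj => ?_
      have hj' : j ≤ D := by
        have := Finset.mem_range.1 hj
        omega
      rw [map_mul, map_pow]
      have e1 : (τ y) ^ D = (τ y) ^ j * (τ y) ^ (D - j) := by
        rw [← pow_add]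
        congr 1
        omega
      have e2 : (τ y) ^ (D - j) * ((τ y)⁻¹) ^ (D - j) = 1 := by
        rw [← mul_pow, mul_inv_cancel₀ hx0, one_pow]
      show _ = τ (MvPolynomial.eval (z (m + M k)) (Q.coeff j)) * (τ y) ^ j
      rw [e1]
      linear_combination (τ (MvPolynomial.eval (z (m + M k)) (Q.coeff j)) * (τ y) ^ j) * e2
    exact (mul_eq_zero.1 h6).resolve_left (pow_ne_zero _ hx0)
  simp only [hzero] at lim2
  have h7 := tendsto_nhds_unique lim2 tendsto_const_nhds
  rw [Finset.sum_range_succ, Nat.sub_self, pow_zero, mul_one, Finset.sum_eq_zero, zero_add] at h7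
  · exact h7
  · intro j hj
    have := Finset.mem_range.1 hj
    rw [zero_pow (by omega), mul_zero]

end

section approx
variable {K : Type} [Field K] [CharZero K]

theorem approx {k : ℕ} (p : Fin (k + 1) → ℕ) (hp : ∀ j, Fact (p j).Prime)
    (hinj : Function.Injective p) (τ : ∀ j, K →+* PadicAlgCl (p j)) (t : Fin (k + 1) → K)
    (ht : ∀ j, ‖τ j (t j)‖ ≤ 1) (ht0 : t 0 = 0) :
    ∃ x : K, 1 < ‖τ 0 x‖ ∧ ∀ j, j ≠ 0 → ‖τ j x - τ j (t j)‖ < 1 := by
  classical
  let q : Fin (k + 1) → ℕ := fun j => ∏ i ∈ Finset.univ.erase j, p i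
  have hq1 : ∀ i j, i ≠ j → p i ∣ q j := fun i j hij =>
    Finset.dvd_prod_of_mem _ (Finset.mem_erase.2 ⟨hij, Finset.mem_univ _⟩)
  have hq2 : ∀ j, ¬ p j ∣ q j := by
    intro j hj
    obtain ⟨i, hi, hd⟩ := ((hp j).out.prime.dvd_finsetProd_iff _).1 hj
    have := (Nat.prime_dvd_prime_iff_eq (hp j).out (hp i).out).1 hd
    exact (Finset.ne_of_mem_erase hi) (hinj this).symm
  have hq0 : ∀ j, 0 < q j := fun j => Finset.prod_pos fun i _ => (hp i).out.pos
  obtain ⟨E, hE⟩ : ∃ E : ℕ, ∀ i j, i ≠ j → ‖(q j : PadicAlgCl (p i))‖ ^ E * ‖τ i (t j)‖ < 1 := by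
    have h1 : ∀ i j, ∀ᶠ E : ℕ in atTop, i ≠ j →
        ‖(q j : PadicAlgCl (p i))‖ ^ E * ‖τ i (t j)‖ < 1 := by
      intro i j
      by_cases hij : i = j
      · exact Eventually.of_forall fun E h => absurd hij h
      · have h2 : ‖(q j : PadicAlgCl (p i))‖ < 1 := nnat_lt (hq1 i j hij)
        have h3 := (tendsto_pow_atTop_nhds_zero_of_lt_one (norm_nonneg _) h2).mul_const
          ‖τ i (t j)‖
        rw [zero_mul] at h3
        exact (h3.eventually (gt_mem_nhds one_pos)).mono fun E hE _ => hE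
    obtain ⟨E, hE⟩ := (eventually_all.2 fun i => eventually_all.2 fun j => h1 i j).exists
    exact ⟨E, hE⟩
  let e : Fin (k + 1) → ℕ := fun j => q j ^ (E * (p j - 1))
  have he1 : ∀ j, p j ∣ e j - 1 := by
    intro j
    have hco : (q j).Coprime (p j) := ((Nat.Prime.coprime_iff_not_dvd (hp j).out).2 (hq2 j)).symm
    have h1 : q j ^ (p j - 1) ≡ 1 [MOD p j] := by
      have := Nat.ModEq.pow_totient hco
      rwa [Nat.totient_prime (hp j).out] at this
    have h2 : e j ≡ 1 [MOD p j] := by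
      show q j ^ (E * (p j - 1)) ≡ 1 [MOD p j]
      rw [mul_comm, pow_mul]
      simpa using h1.pow E
    exact (Nat.modEq_iff_dvd' (Nat.pos_of_ne_zero (pow_ne_zero _ (hq0 j).ne'))).1 h2.symm
  have he2 : ∀ i j, i ≠ j → ‖τ i ((e j : K) * t j)‖ < 1 := by
    intro i j hij
    rw [map_mul, map_natCast, norm_mul]
    have h1 : ‖((e j : ℕ) : PadicAlgCl (p i))‖ ≤ ‖(q j : PadicAlgCl (p i))‖ ^ E := by
      show ‖((q j ^ (E * (p j - 1)) : ℕ) : PadicAlgCl (p i))‖ ≤ _
      rw [Nat.cast_pow, norm_pow]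
      exact pow_le_pow_of_le_one (norm_nonneg _) (nnat_le _)
        (Nat.le_mul_of_pos_right _ (Nat.sub_pos_of_lt (hp j).out.one_lt))
    exact (mul_le_mul_of_nonneg_right h1 (norm_nonneg _)).trans_lt (hE i j hij)
  have he3 : ∀ i, ‖τ i ((e i : K) * t i) - τ i (t i)‖ < 1 := by
    intro i
    have e1 : τ i ((e i : K) * t i) - τ i (t i) = ((e i - 1 : ℕ) : PadicAlgCl (p i)) * τ i (t i) := by
      rw [Nat.cast_sub (Nat.pos_of_ne_zero (pow_ne_zero _ (hq0 i).ne')), map_mul, map_natCast,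
        Nat.cast_one, sub_mul, one_mul]
    rw [e1, mul_comm]
    exact nmul1' (ht i) (nnat_lt (he1 i))
  refine ⟨(∑ j, (e j : K) * t j) + (q 0 : K) / (p 0 : K), ?_, ?_⟩
  · by_contra hle
    push Not at hle
    have h1 : ‖τ 0 (∑ j, (e j : K) * t j)‖ < 1 := by
      rw [map_sum]
      refine nsum' _ _ one_pos fun j _ => ?_
      rcases eq_or_ne j 0 with rfl | hj
      · rw [ht0, mul_zero, map_zero, norm_zero]; exact one_pos
      · exact he2 0 j hj.symm
    have h2 : ‖τ 0 ((q 0 : K) / (p 0 : K))‖ ≤ 1 := by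
      have e1 : τ 0 ((q 0 : K) / (p 0 : K)) =
          τ 0 ((∑ j, (e j : K) * t j) + (q 0 : K) / (p 0 : K)) + -τ 0 (∑ j, (e j : K) * t j) := by
        rw [map_add]; ring
      rw [e1]
      exact nadd hle (by rw [norm_neg]; exact h1.le)
    rw [map_div₀, map_natCast, map_natCast, norm_div, nnat_eq (hq2 0)] at h2
    have h3 : ‖((p 0 : ℕ) : PadicAlgCl (p 0))‖ < 1 := nnat_lt (dvd_refl _)
    have h4 : 0 < ‖((p 0 : ℕ) : PadicAlgCl (p 0))‖ := by
      rw [norm_pos_iff]
      exact_mod_cast (hp 0).out.ne_zero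
    have h5 := (one_lt_div h4).2 h3
    linarith
  · intro i hi
    have e1 : τ i ((∑ j, (e j : K) * t j) + (q 0 : K) / (p 0 : K)) - τ i (t i) =
        (∑ j ∈ Finset.univ.erase i, τ i ((e j : K) * t j)) +
        ((τ i ((e i : K) * t i) - τ i (t i)) + τ i ((q 0 : K) / (p 0 : K))) := by
      rw [map_add, map_sum, ← Finset.add_sum_erase _ _ (Finset.mem_univ i)]
      ring
    rw [e1]
    refine nadd' (nsum' _ _ one_pos fun j hj => he2 i j (Finset.ne_of_mem_erase hj).symm)
      (nadd' (he3 i) ?_)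
    rw [map_div₀, map_natCast, map_natCast, norm_div]
    have h3 : ‖((p 0 : ℕ) : PadicAlgCl (p i))‖ = 1 := by
      apply nnat_eq
      intro hd
      have := (Nat.prime_dvd_prime_iff_eq (hp i).out (hp 0).out).1 hd
      exact hi (hinj this)
    rw [h3, div_one]
    exact nnat_lt (hq1 i 0 hi)

end approx

end Pool.Agent.H78.Zd
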