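import Pool.Agent.H78.Zd.A
import Pool.Agent.H78.Zd.C

/-!
# One more coordinate at a place
-/

set_option autoImplicit false

namespace Pool.Agent.H78.Zd

open Polynomial Filter Topology

section general
variable {A : Type} [CommRing A] {n : ℕ}

/-- the polynomial in the new coordinate -/
noncomputable def Hp (c : A) (d : ℕ) (G : MvPolynomial (Fin (n + 1)) A) (z : Fin n → A) : A[X] :=
  C c * X ^ d + (MvPolynomial.finSuccEquiv A n G).map (MvPolynomial.eval z)

theorem Hp_eval (c : A) (d : ℕ) (G : MvPolynomial (Fin (n + 1)) A) (z : Fin n → A) (x : A) :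
    (Hp c d G z).eval x = MvPolynomial.eval (Fin.cons x z : Fin (n + 1) → A)
      (MvPolynomial.C c * MvPolynomial.X 0 ^ d + G) := by
  rw [map_add, map_mul, map_pow, MvPolynomial.eval_C, MvPolynomial.eval_X, Fin.cons_zero,
    MvPolynomial.eval_eq_eval_mv_eval', Hp]
  simp

theorem natDegree_lt_of (d : ℕ) (G : MvPolynomial (Fin (n + 1)) A) (hG : G.degreeOf 0 < d)
    (z : Fin n → A) :
    ((MvPolynomial.finSuccEquiv A n G).map (MvPolynomial.eval z)).natDegree < d := by
  refine lt_of_le_of_lt natDegree_map_le ?_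
  rwa [MvPolynomial.natDegree_finSuccEquiv]

theorem Hp_coeff (c : A) (d : ℕ) (G : MvPolynomial (Fin (n + 1)) A) (hG : G.degreeOf 0 < d)
    (z : Fin n → A) : (Hp c d G z).coeff d = c := by
  rw [Hp, coeff_add, coeff_C_mul, coeff_X_pow, if_pos rfl, mul_one,
    coeff_eq_zero_of_natDegree_lt (natDegree_lt_of d G hG z), add_zero]

theorem Hp_deg (c : A) (d : ℕ) (G : MvPolynomial (Fin (n + 1)) A) (hG : G.degreeOf 0 < d)
    (z : Fin n → A) : (Hp c d G z).natDegree ≤ d :=
  natDegree_add_le_of_degree_le (natDegree_C_mul_X_pow_le _ _) (natDegree_lt_of d G hG z).le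

theorem comp_mk {σ : Type*} (J : Ideal A) {z w : σ → A} (h : ∀ i, z i - w i ∈ J) :
    (Ideal.Quotient.mk J).comp (MvPolynomial.eval z) =
      (Ideal.Quotient.mk J).comp (MvPolynomial.eval w) := by
  apply MvPolynomial.ringHom_ext
  · intro a; simp
  · intro i
    simp only [RingHom.comp_apply, MvPolynomial.eval_X]
    rw [Ideal.Quotient.eq]
    exact h i

theorem eval_sub_mem {σ : Type*} (J : Ideal A) {z w : σ → A} (h : ∀ i, z i - w i ∈ J)
    (F : MvPolynomial σ A) : MvPolynomial.eval z F - MvPolynomial.eval w F ∈ J := by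
  rw [← Ideal.Quotient.eq]
  exact congrArg (fun φ => φ F) (comp_mk J h)

theorem Hp_mk (c : A) (d : ℕ) (G : MvPolynomial (Fin (n + 1)) A) (J : Ideal A) {z w : Fin n → A}
    (h : ∀ i, z i - w i ∈ J) :
    (Hp c d G z).map (Ideal.Quotient.mk J) = (Hp c d G w).map (Ideal.Quotient.mk J) := by
  rw [Hp, Hp, Polynomial.map_add, Polynomial.map_add, Polynomial.map_map, Polynomial.map_map,
    comp_mk J h]

theorem eval_mem_subring {K : Type} [Field K] (S : Subring K) {σ : Type*}
    (F : MvPolynomial σ K) (hF : ∀ m ∈ F.support, F.coeff m ∈ S) (w : σ → K)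
    (hw : ∀ i, w i ∈ S) : MvPolynomial.eval w F ∈ S := by
  rw [MvPolynomial.eval_eq]
  exact S.sum_mem fun m hm => S.mul_mem (hF m hm) (S.prod_mem fun i _ => S.pow_mem (hw i) _)

end general

section step
variable {p : ℕ} [Fact p.Prime] {K : Type} [Field K] (τ : K →+* PadicAlgCl p)

theorem lift_mv {σ : Type*} (Q : MvPolynomial σ K) (h : ∀ m ∈ Q.support, ‖τ (Q.coeff m)‖ ≤ 1) :
    ∃ R : MvPolynomial σ (O τ), MvPolynomial.map (O τ).subtype R = Q := by
  classical
  refine (MvPolynomial.mem_range_map_iff_coeffs_subset (f := (O τ).subtype) (x := Q)).2 ?_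
  intro z hz
  obtain ⟨m, hm, rfl⟩ := MvPolynomial.mem_coeffs_iff.1 (Finset.mem_coe.1 hz)
  exact ⟨⟨_, h m hm⟩, rfl⟩

/-- the orbit in the new coordinate -/
noncomputable def xs {n : ℕ} (F : MvPolynomial (Fin (n + 1)) K) (z : ℕ → Fin n → K) (x₀ : K) :
    ℕ → K
  | 0 => x₀
  | m + 1 => MvPolynomial.eval (Fin.cons (xs F z x₀ m) (z m) : Fin (n + 1) → K) F

theorem adjoin_fd (S : Finset (PadicAlgCl p)) :
    FiniteDimensional ℚ_[p] (IntermediateField.adjoin ℚ_[p] (S : Set (PadicAlgCl p))) := by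
  have : Finite (S : Set (PadicAlgCl p)) := S.finite_toSet
  exact IntermediateField.finiteDimensional_adjoin fun x _ =>
    (Algebra.IsAlgebraic.isAlgebraic x).isIntegral

variable [IsAlgClosed K]

theorem exists_start {n : ℕ} {z : ℕ → Fin n → K} (hz : Good τ z) (c : K) (d : ℕ)
    (G : MvPolynomial (Fin (n + 1)) K) (hd : 2 ≤ d) (hG : G.degreeOf 0 < d)
    (hc : ‖τ c‖ = 1) (hdn : ‖(d : PadicAlgCl p)‖ = 1)
    (hGi : ∀ m ∈ G.support, ‖τ (G.coeff m)‖ ≤ 1) :
    ∃ t : K, ‖τ t‖ ≤ 1 ∧ ∀ x₀ : K, ‖τ x₀ - τ t‖ < 1 →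
      Good τ (fun m => (Fin.cons
        (xs (MvPolynomial.C c * MvPolynomial.X 0 ^ d + G) z x₀ m) (z m) : Fin (n + 1) → K)) := by
  classical
  obtain ⟨G', hG'⟩ := lift_mv τ G hGi
  have hG'0 : G'.degreeOf 0 < d := by
    rw [MvPolynomial.degreeOf_eq_sup] at hG ⊢
    rw [← hG', MvPolynomial.support_map_of_injective _ Subtype.coe_injective] at hG
    exact hG
  let c' : O τ := ⟨c, hc.le⟩
  let z' : ℕ → Fin n → O τ := fun m i => ⟨z m i, hz.int m i⟩
  let H : ℕ → (O τ)[X] := fun m => Hp c' d G' (z' m)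
  let F' : MvPolynomial (Fin (n + 1)) (O τ) := MvPolynomial.C c' * MvPolynomial.X 0 ^ d + G'
  set F : MvPolynomial (Fin (n + 1)) K := MvPolynomial.C c * MvPolynomial.X 0 ^ d + G with hF
  have hFF : MvPolynomial.map (O τ).subtype F' = F := by
    rw [map_add, map_mul, map_pow, MvPolynomial.map_C, MvPolynomial.map_X, hG']
    rfl
  have hc'0 : (Ideal.Quotient.mk (Om τ)) c' ≠ 0 := by
    rw [ne_eq, Ideal.Quotient.eq_zero_iff_mem, mem_Om]
    show ¬ ‖τ c‖ < 1
    rw [hc]; exact lt_irrefl _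
  have hd'0 : ((d : ℕ) : k τ) ≠ 0 := by
    have e1 : ((d : ℕ) : k τ) = Ideal.Quotient.mk (Om τ) ((d : ℕ) : O τ) := by rw [map_natCast]
    rw [e1, ne_eq, Ideal.Quotient.eq_zero_iff_mem, mem_Om]
    have e2 : τ ((((d : ℕ) : O τ)) : K) = (d : PadicAlgCl p) := by simp
    rw [e2, hdn]; exact lt_irrefl _
  let h : ℕ → (k τ)[X] := fun m => (H m).map (Ideal.Quotient.mk (Om τ))
  have hhc : ∀ m, (h m).coeff d = Ideal.Quotient.mk (Om τ) c' := by
    intro m
    show ((H m).map _).coeff d = _
    rw [coeff_map, Hp_coeff _ _ _ hG'0]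
  have hhd : ∀ m, (h m).natDegree = d := by
    intro m
    refine le_antisymm (natDegree_map_le.trans (Hp_deg _ _ _ hG'0 _)) ?_
    apply le_natDegree_of_ne_zero
    rw [hhc]; exact hc'0
  obtain ⟨l, hl0, hl⟩ := hz.per
  obtain ⟨L, hL0, t, ht1, ht2, ht3⟩ := cyc_any (h := h) hl0 (fun m => Hp_mk _ _ _ _ fun i => by
      rw [mem_Om]
      show ‖τ (z (m + l) i - z m i)‖ < 1
      rw [map_sub]
      exact hl m i) (fun m => by rw [hhd]; exact hd) (fun m h0 => by
      have h1 := congrArg (fun q => q.coeff (d - 1)) h0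
      simp only [coeff_derivative, coeff_zero] at h1
      have e1 : d - 1 + 1 = d := by omega
      rw [e1, hhc] at h1
      refine (mul_ne_zero hc'0 ?_) h1
      have e2 : (((d - 1 : ℕ) : k τ) + 1) = ((d : ℕ) : k τ) := by
        rw [← Nat.cast_succ]
        congr 1
      rw [e2]
      exact hd'0)
  obtain ⟨t₀, ht₀⟩ := Ideal.Quotient.mk_surjective (t 0)
  refine ⟨(t₀ : K), t₀.2, fun x₀ hx₀ => ?_⟩
  -- the integral orbit
  have hx₀1 : ‖τ x₀‖ ≤ 1 := by
    have e1 : τ x₀ = (τ x₀ - τ t₀) + τ t₀ := by ring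
    rw [e1]
    exact nadd hx₀.le t₀.2
  obtain ⟨x', hx'0, hx'1⟩ : ∃ x' : ℕ → O τ, x' 0 = ⟨x₀, hx₀1⟩ ∧
      ∀ m, x' (m + 1) = (H m).eval (x' m) :=
    ⟨fun m => Nat.rec ⟨x₀, hx₀1⟩ (fun m y => (H m).eval y) m, rfl, fun m => rfl⟩
  have hevF : ∀ (w : Fin (n + 1) → O τ), ((MvPolynomial.eval w F' : O τ) : K) =
      MvPolynomial.eval (fun i => (w i : K)) F := by
    intro w
    rw [← hFF, MvPolynomial.eval_map]
    exact (MvPolynomial.eval₂_comp (O τ).subtype w F')
  have hHF : ∀ m y, (H m).eval y = MvPolynomial.eval (Fin.cons y (z' m) : Fin (n + 1) → O τ) F' :=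
    fun m y => Hp_eval _ _ _ _ _
  have hcoe : ∀ m (y : O τ), (fun i => (((Fin.cons y (z' m) : Fin (n + 1) → O τ) i : O τ) : K)) =
      (Fin.cons (y : K) (z m) : Fin (n + 1) → K) := by
    intro m y
    funext i
    refine Fin.cases ?_ (fun i => ?_) i
    · simp
    · simp [z']
  have hx's : ∀ m, (x' m).val = xs F z x₀ m := by
    intro m
    induction m with
    | zero => rw [hx'0]; rfl
    | succ m ih =>
      rw [hx'1, hHF, hevF, hcoe m (x' m), ih]
      rfl
  have hx't : ∀ m, Ideal.Quotient.mk (Om τ) (x' m) = t m := by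
    intro m
    induction m with
    | zero =>
      rw [← ht₀, hx'0, Ideal.Quotient.eq, mem_Om]
      show ‖τ (x₀ - t₀)‖ < 1
      rw [map_sub]; exact hx₀
    | succ m ih =>
      rw [hx'1, ht1, ← ih]
      exact (eval_map_apply _ _).symm
  constructor
  · intro m i
    refine Fin.cases ?_ (fun i => ?_) i
    · rw [Fin.cons_zero, ← hx's]; exact (x' m).2
    · rw [Fin.cons_succ]; exact hz.int m i
  · obtain ⟨L₁, hL₁, hL₁'⟩ := hz.fin
    let S : Finset (PadicAlgCl p) := {τ x₀, τ c} ∪ G.support.image fun m => τ (G.coeff m)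
    have hSfd := adjoin_fd S
    have hfd := IntermediateField.finiteDimensional_sup L₁
      (IntermediateField.adjoin ℚ_[p] (S : Set (PadicAlgCl p)))
    refine ⟨L₁ ⊔ IntermediateField.adjoin ℚ_[p] (S : Set (PadicAlgCl p)), hfd, ?_⟩
    set L₂ := L₁ ⊔ IntermediateField.adjoin ℚ_[p] (S : Set (PadicAlgCl p)) with hL₂
    have hSL : ∀ s ∈ S, s ∈ L₂ := fun s hs =>
      (le_sup_right : _ ≤ L₂) (IntermediateField.subset_adjoin _ _ (Finset.mem_coe.2 hs))
    have hzL : ∀ m i, τ (z m i) ∈ L₂ := fun m i => (le_sup_left : _ ≤ L₂) (hL₁' m i)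
    let T : Subring K := L₂.toSubfield.toSubring.comap τ
    have hT : ∀ y, y ∈ T ↔ τ y ∈ L₂ := fun y => Iff.rfl
    have hxL : ∀ m, xs F z x₀ m ∈ T := by
      intro m
      induction m with
      | zero => exact hSL _ (by simp [S, xs])
      | succ m ih =>
        have hw : ∀ i, (Fin.cons (xs F z x₀ m) (z m) : Fin (n + 1) → K) i ∈ T := by
          intro i
          refine Fin.cases ?_ (fun i => ?_) i
          · rw [Fin.cons_zero]; exact ih
          · rw [Fin.cons_succ]; exact hzL m i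
        show MvPolynomial.eval _ (MvPolynomial.C c * MvPolynomial.X 0 ^ d + G) ∈ T
        rw [map_add, map_mul, map_pow, MvPolynomial.eval_C, MvPolynomial.eval_X]
        refine T.add_mem (T.mul_mem (hSL _ (by simp [S])) (T.pow_mem (hw 0) _)) ?_
        exact eval_mem_subring T G (fun m hm => hSL _
          (Finset.mem_union_right _ (Finset.mem_image_of_mem _ hm))) _ hw
    intro m i
    refine Fin.cases ?_ (fun i => ?_) i
    · rw [Fin.cons_zero]; exact hxL m
    · rw [Fin.cons_succ]; exact hzL m i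
  · refine ⟨l * L, Nat.mul_pos hl0 hL0, fun m i => ?_⟩
    refine Fin.cases ?_ (fun i => ?_) i
    · rw [Fin.cons_zero, Fin.cons_zero, ← hx's, ← hx's, ← map_sub]
      have h1 : x' (m + l * L) - x' m ∈ Om τ := by
        rw [← Ideal.Quotient.eq, hx't, hx't, ht2]
      exact h1
    · rw [Fin.cons_succ, Fin.cons_succ]
      exact per_mul hl L m i
  · intro m m' ε hε hw
    have hzz : ∀ i, ‖τ (z m i) - τ (z m' i)‖ ≤ ε := fun i => by
      have := hw i.succ
      rwa [Fin.cons_succ, Fin.cons_succ] at this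
    intro i
    refine Fin.cases ?_ (fun i => ?_) i
    · rw [Fin.cons_zero, Fin.cons_zero, ← hx's, ← hx's, ← map_sub]
      have h1 : x' (m + 1) - x' (m' + 1) ∈ I τ ε hε := by
        rw [hx'1, hx'1, hHF, hHF]
        refine eval_sub_mem _ (fun i => ?_) F'
        refine Fin.cases ?_ (fun i => ?_) i
        · rw [Fin.cons_zero, Fin.cons_zero, mem_I]
          have := hw 0
          rw [Fin.cons_zero, Fin.cons_zero, ← hx's, ← hx's, ← map_sub] at this
          exact this
        · rw [Fin.cons_succ, Fin.cons_succ, mem_I]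
          have := hzz i
          rw [← map_sub] at this
          exact this
      exact h1
    · rw [Fin.cons_succ, Fin.cons_succ]
      exact hz.lip m m' ε hε hzz i
  · intro m m' ε hε hw1 hw2
    have hzz : ∀ i, ‖τ (z m i) - τ (z m' i)‖ ≤ ε := hz.back m m' ε hε (fun i => by
      have := hw1 i.succ
      rwa [Fin.cons_succ, Fin.cons_succ] at this) (fun i => by
      have := hw2 i.succ
      rwa [Fin.cons_succ, Fin.cons_succ] at this)
    intro i
    refine Fin.cases ?_ (fun i => ?_) i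
    · rw [Fin.cons_zero, Fin.cons_zero, ← hx's, ← hx's, ← map_sub]
      have h1 : x' (m + 1) - x' (m' + 1) ∈ I τ ε hε := by
        have := hw2 0
        rw [Fin.cons_zero, Fin.cons_zero, ← hx's, ← hx's, ← map_sub] at this
        exact this
      have h2 : (H m).map (Ideal.Quotient.mk (I τ ε hε)) = (H m').map (Ideal.Quotient.mk _) :=
        Hp_mk _ _ _ _ fun i => by
          have := hzz i
          rw [← map_sub] at this
          exact this
      have h3 : (H m).eval (x' m) - (H m').eval (x' m) ∈ I τ ε hε := by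
        rw [← Ideal.Quotient.eq, ← eval_map_apply, h2, eval_map_apply]
      have h4 : (H m').eval (x' m) - (H m').eval (x' m') ∈ I τ ε hε := by
        have e1 : (H m').eval (x' m) - (H m').eval (x' m') =
            (x' (m + 1) - x' (m' + 1)) - ((H m).eval (x' m) - (H m').eval (x' m)) := by
          rw [hx'1, hx'1]; ring
        rw [e1]
        exact (I τ ε hε).sub_mem h1 h3
      obtain ⟨κ, hκ⟩ := binomExpansion (H m') (x' m') (x' m - x' m')
      rw [add_sub_cancel] at hκ
      have e2 : (H m').eval (x' m) - (H m').eval (x' m') =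
          (x' m - x' m') * ((derivative (H m')).eval (x' m') + κ * (x' m - x' m')) := by
        rw [hκ]; ring
      have hxm : x' m - x' m' ∈ Om τ := by
        have := hw1 0
        rw [Fin.cons_zero, Fin.cons_zero, ← hx's, ← hx's, ← map_sub] at this
        exact this
      have hu : (derivative (H m')).eval (x' m') + κ * (x' m - x' m') ∉ Om τ := by
        rw [← Ideal.Quotient.eq_zero_iff_mem, map_add, map_mul,
          Ideal.Quotient.eq_zero_iff_mem.2 hxm, mul_zero, add_zero, ← eval_map_apply,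
          ← derivative_map, hx't]
        exact ht3 m'
      have hu1 := norm_eq_one τ hu
      rw [e2, mem_I] at h4
      have e3 : τ (((x' m - x' m') * ((derivative (H m')).eval (x' m') + κ * (x' m - x' m')) :
          O τ) : K) = τ ((x' m - x' m' : O τ) : K) *
          τ (((derivative (H m')).eval (x' m') + κ * (x' m - x' m') : O τ) : K) := by
        rw [Subring.coe_mul, map_mul]
      rw [e3, norm_mul, hu1, mul_one] at h4
      exact h4
    · rw [Fin.cons_succ, Fin.cons_succ]
      exact hzz i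

end step

end Pool.Agent.H78.Zd
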