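import Pool.Agent.H78.Zd.A2
import Pool.Agent.H78.Zd.D

/-!
# One more coordinate at a place
-/

set_option autoImplicit false

namespace Pool.Agent.H78.Zd

open Polynomial Filter Topology

section general
variable {A : Type} [CommRing A] {n : ℕ}

/-- the polynomial in the new coordinate -/
noncomputable def Hq (c : MvPolynomial (Fin n) A) (d : ℕ) (G : MvPolynomial (Fin (n + 1)) A)
    (z : Fin n → A) : A[X] :=
  Hp (MvPolynomial.eval z c) d G z

theorem Hq_eval (c : MvPolynomial (Fin n) A) (d : ℕ) (G : MvPolynomial (Fin (n + 1)) A)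
    (z : Fin n → A) (x : A) :
    (Hq c d G z).eval x = MvPolynomial.eval (Fin.cons x z : Fin (n + 1) → A)
      (MvPolynomial.rename Fin.succ c * MvPolynomial.X 0 ^ d + G) := by
  rw [Hq, Hp_eval]
  simp only [map_add, map_mul, MvPolynomial.eval_C, MvPolynomial.eval_rename]
  congr 3

theorem Hq_mk (c : MvPolynomial (Fin n) A) (d : ℕ) (G : MvPolynomial (Fin (n + 1)) A)
    (J : Ideal A) {z w : Fin n → A} (h : ∀ i, z i - w i ∈ J) :
    (Hq c d G z).map (Ideal.Quotient.mk J) = (Hq c d G w).map (Ideal.Quotient.mk J) := by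
  have h1 := Hp_mk (MvPolynomial.eval w c) d G J h
  have h2 : (Hq c d G z).map (Ideal.Quotient.mk J) =
      (Hp (MvPolynomial.eval w c) d G z).map (Ideal.Quotient.mk J) := by
    have h3 : Ideal.Quotient.mk J (MvPolynomial.eval z c) =
        Ideal.Quotient.mk J (MvPolynomial.eval w c) := congrArg (fun φ => φ c) (comp_mk J h)
    rw [Hq, Hp, Hp, Polynomial.map_add, Polynomial.map_add, Polynomial.map_mul, Polynomial.map_mul,
      map_C, map_C, h3]
  rw [h2, h1]
  rfl

theorem coeff_lift {K : Type} [Field K] (S : Subring K) {n : ℕ} (B' : MvPolynomial (Fin (n + 1)) S)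
    (e : ℕ) (w : Fin n → S) :
    ((MvPolynomial.eval w ((MvPolynomial.finSuccEquiv S n B').coeff e) : S) : K) =
      MvPolynomial.eval (fun i => (w i : K))
        ((MvPolynomial.finSuccEquiv K n (MvPolynomial.map S.subtype B')).coeff e) := by
  have h1 : (MvPolynomial.finSuccEquiv K n (MvPolynomial.map S.subtype B')).coeff e =
      MvPolynomial.map S.subtype ((MvPolynomial.finSuccEquiv S n B').coeff e) := by
    ext m
    rw [MvPolynomial.finSuccEquiv_coeff_coeff, MvPolynomial.coeff_map, MvPolynomial.coeff_map,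
      MvPolynomial.finSuccEquiv_coeff_coeff]
  rw [h1, MvPolynomial.eval_map]
  exact (MvPolynomial.eval₂_comp S.subtype w _)

end general

section step
variable {p : ℕ} [Fact p.Prime] {K : Type} [Field K] (τ : K →+* PadicAlgCl p)

variable [IsAlgClosed K]

theorem exists_start2 {n : ℕ} {z : ℕ → Fin n → K} (hz : Good τ z) (c : MvPolynomial (Fin n) K)
    (d : ℕ) (G : MvPolynomial (Fin (n + 1)) K) (hd : 2 ≤ d) (hG : G.degreeOf 0 < d)
    (hci : ∀ m ∈ c.support, ‖τ (c.coeff m)‖ ≤ 1)
    (hc : ∀ m, ‖τ (MvPolynomial.eval (z m) c)‖ = 1) (hdn : ‖(d : PadicAlgCl p)‖ = 1)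
    (h2n : ‖((2 : ℕ) : PadicAlgCl p)‖ = 1)
    (hGi : ∀ m ∈ G.support, ‖τ (G.coeff m)‖ ≤ 1)
    (BB : Finset (MvPolynomial (Fin (n + 1)) K)) (ix : MvPolynomial (Fin (n + 1)) K → ℕ)
    (hBi : ∀ B ∈ BB, ∀ m ∈ B.support, ‖τ (B.coeff m)‖ ≤ 1)
    (hB : ∀ B ∈ BB, ∀ m, ‖τ (MvPolynomial.eval (z m)
      ((MvPolynomial.finSuccEquiv K n B).coeff (ix B)))‖ = 1) :
    ∃ t : K, ‖τ t‖ ≤ 1 ∧ ∀ x₀ : K, ‖τ x₀ - τ t‖ < 1 →
      Good τ (fun m => (Fin.cons
        (xs (MvPolynomial.rename Fin.succ c * MvPolynomial.X 0 ^ d + G) z x₀ m) (z m) :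
          Fin (n + 1) → K)) ∧
      ∀ B ∈ BB, ∀ m, ‖τ (MvPolynomial.eval (Fin.cons
        (xs (MvPolynomial.rename Fin.succ c * MvPolynomial.X 0 ^ d + G) z x₀ m) (z m) :
          Fin (n + 1) → K) B)‖ = 1 := by
  classical
  obtain ⟨G', hG'⟩ := lift_mv τ G hGi
  have hG'0 : G'.degreeOf 0 < d := by
    rw [MvPolynomial.degreeOf_eq_sup] at hG ⊢
    rw [← hG', MvPolynomial.support_map_of_injective _ Subtype.coe_injective] at hG
    exact hG
  obtain ⟨c', hc'⟩ := lift_mv τ c hci
  choose! lf hlf using fun B hB => lift_mv τ B (hBi B hB)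
  let z' : ℕ → Fin n → O τ := fun m i => ⟨z m i, hz.int m i⟩
  let H : ℕ → (O τ)[X] := fun m => Hq c' d G' (z' m)
  let F' : MvPolynomial (Fin (n + 1)) (O τ) :=
    MvPolynomial.rename Fin.succ c' * MvPolynomial.X 0 ^ d + G'
  set F : MvPolynomial (Fin (n + 1)) K :=
    MvPolynomial.rename Fin.succ c * MvPolynomial.X 0 ^ d + G with hF
  have hFF : MvPolynomial.map (O τ).subtype F' = F := by
    rw [map_add, map_mul, map_pow, MvPolynomial.map_rename, MvPolynomial.map_X, hG', hc']
  have hc'0 : ∀ m, (Ideal.Quotient.mk (Om τ)) (MvPolynomial.eval (z' m) c') ≠ 0 := by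
    intro m
    rw [ne_eq, Ideal.Quotient.eq_zero_iff_mem, mem_Om]
    have e1 : ((MvPolynomial.eval (z' m) c' : O τ) : K) = MvPolynomial.eval (z m) c := by
      rw [← hc', MvPolynomial.eval_map]
      exact (MvPolynomial.eval₂_comp (O τ).subtype (z' m) c')
    rw [e1, hc]; exact lt_irrefl _
  let eb : MvPolynomial (Fin (n + 1)) K → ℕ → (k τ)[X] := fun B m =>
    ((MvPolynomial.finSuccEquiv (O τ) n (lf B)).map (MvPolynomial.eval (z' m))).map
      (Ideal.Quotient.mk (Om τ))
  have heb0 : ∀ B ∈ BB, ∀ m, eb B m ≠ 0 := by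
    intro B hBB m h0
    have h1 := congrArg (fun q => q.coeff (ix B)) h0
    simp only [eb, coeff_map, coeff_zero] at h1
    rw [Ideal.Quotient.eq_zero_iff_mem, mem_Om, coeff_lift, hlf B hBB] at h1
    have h2 := hB B hBB m
    exact absurd h1 (not_lt.2 h2.ge)
  have h2k : (2 : k τ) ≠ 0 := by
    have e1 : (2 : k τ) = Ideal.Quotient.mk (Om τ) ((2 : ℕ) : O τ) := by rw [map_natCast]; norm_num
    rw [e1, ne_eq, Ideal.Quotient.eq_zero_iff_mem, mem_Om]
    have e2 : ∀ q : ℕ, τ (((q : O τ)) : K) = (q : PadicAlgCl p) := fun q => by simp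
    rw [e2 2, h2n]; exact lt_irrefl _
  have hd'0 : ((d : ℕ) : k τ) ≠ 0 := by
    have e1 : ((d : ℕ) : k τ) = Ideal.Quotient.mk (Om τ) ((d : ℕ) : O τ) := by rw [map_natCast]
    rw [e1, ne_eq, Ideal.Quotient.eq_zero_iff_mem, mem_Om]
    have e2 : τ ((((d : ℕ) : O τ)) : K) = (d : PadicAlgCl p) := by simp
    rw [e2, hdn]; exact lt_irrefl _
  let h : ℕ → (k τ)[X] := fun m => (H m).map (Ideal.Quotient.mk (Om τ))
  have hhc : ∀ m, (h m).coeff d = Ideal.Quotient.mk (Om τ) (MvPolynomial.eval (z' m) c') := by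
    intro m
    show ((H m).map _).coeff d = _
    rw [coeff_map]
    show Ideal.Quotient.mk (Om τ) ((Hp _ d G' (z' m)).coeff d) = _
    rw [Hp_coeff _ _ _ hG'0]
  have hhd : ∀ m, (h m).natDegree = d := by
    intro m
    refine le_antisymm (natDegree_map_le.trans (Hp_deg _ _ _ hG'0 _)) ?_
    apply le_natDegree_of_ne_zero
    rw [hhc]; exact hc'0 m
  obtain ⟨l, hl0, hl⟩ := hz.per
  have hzl : ∀ m i, z' (m + l) i - z' m i ∈ Om τ := by
    intro m i
    rw [mem_Om]
    show ‖τ (z (m + l) i - z m i)‖ < 1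
    rw [map_sub]
    exact hl m i
  have hhper : ∀ m, h (m + l) = h m := fun m => Hq_mk _ _ _ _ fun i => hzl m i
  have hder : ∀ m, derivative (h m) ≠ 0 := by
    intro m h0
    have h1 := congrArg (fun q => q.coeff (d - 1)) h0
    simp only [coeff_derivative, coeff_zero] at h1
    have e1 : d - 1 + 1 = d := by omega
    rw [e1, hhc] at h1
    refine (mul_ne_zero (hc'0 m) ?_) h1
    have e2 : (((d - 1 : ℕ) : k τ) + 1) = ((d : ℕ) : k τ) := by
      rw [← Nat.cast_succ]
      congr 1
    rw [e2]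
    exact hd'0
  have hebper : ∀ B m, eb B (m + l) = eb B m := by
    intro B m
    show (Polynomial.map _ _).map _ = (Polynomial.map _ _).map _
    rw [Polynomial.map_map, Polynomial.map_map, comp_mk (Om τ) (hzl m)]
  obtain ⟨L, hL0, t, ht1, ht2, ht3'⟩ := cyc_avoid h2k (h := h)
    (e := fun m => derivative (h m) * ∏ B ∈ BB, eb B m) hl0 hhper (fun m => by
      simp only [hhper, hebper]) (fun m => by rw [hhd]; exact hd)
      (fun m => mul_ne_zero (hder m) (Finset.prod_ne_zero_iff.2 fun B hB => heb0 B hB m))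
  have ht3 : ∀ m, (derivative (h m)).eval (t m) ≠ 0 := by
    intro m
    have := ht3' m
    rw [eval_mul] at this
    exact left_ne_zero_of_mul this
  have ht4 : ∀ B ∈ BB, ∀ m, (eb B m).eval (t m) ≠ 0 := by
    intro B hB m
    have := ht3' m
    rw [eval_mul, eval_prod] at this
    exact Finset.prod_ne_zero_iff.1 (right_ne_zero_of_mul this) B hB
  obtain ⟨t₀, ht₀⟩ := Ideal.Quotient.mk_surjective (t 0)
  refine ⟨(t₀ : K), t₀.2, fun x₀ hx₀ => ?_⟩
  -- the integral orbit
  have hx₀1 : ‖τ x₀‖ ≤ 1 := by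
    have e1 : τ x₀ = (τ x₀ - τ t₀) + τ t₀ := by ring
    rw [e1]
    exact nadd hx₀.le t₀.2
  obtain ⟨x', hx'0, hx'1⟩ : ∃ x' : ℕ → O τ, x' 0 = ⟨x₀, hx₀1⟩ ∧
      ∀ m, x' (m + 1) = (H m).eval (x' m) :=
    ⟨fun m => Nat.rec ⟨x₀, hx₀1⟩ (fun m y => (H m).eval y) m, rfl, fun m => rfl⟩
  have hevF : ∀ (w : Fin (n + 1) → O τ), ((MvPolynomial.eval w F' : O τ) : K) =
      MvPolynomial.eval (fun i => (w i : K)) F := by
    intro w
    rw [← hFF, MvPolynomial.eval_map]
    exact (MvPolynomial.eval₂_comp (O τ).subtype w F')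
  have hHF : ∀ m y, (H m).eval y = MvPolynomial.eval (Fin.cons y (z' m) : Fin (n + 1) → O τ) F' :=
    fun m y => Hq_eval _ _ _ _ _
  have hcoe : ∀ m (y : O τ), (fun i => (((Fin.cons y (z' m) : Fin (n + 1) → O τ) i : O τ) : K)) =
      (Fin.cons (y : K) (z m) : Fin (n + 1) → K) := by
    intro m y
    funext i
    refine Fin.cases ?_ (fun i => ?_) i
    · simp
    · simp [z']
  have hx's : ∀ m, (x' m).val = xs F z x₀ m := by
    intro m
    induction m with
    | zero => rw [hx'0]; rfl
    | succ m ih =>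
      rw [hx'1, hHF, hevF, hcoe m (x' m), ih]
      rfl
  have hx't : ∀ m, Ideal.Quotient.mk (Om τ) (x' m) = t m := by
    intro m
    induction m with
    | zero =>
      rw [← ht₀, hx'0, Ideal.Quotient.eq, mem_Om]
      show ‖τ (x₀ - t₀)‖ < 1
      rw [map_sub]; exact hx₀
    | succ m ih =>
      rw [hx'1, ht1, ← ih]
      exact (eval_map_apply _ _).symm
  refine ⟨?_, ?_⟩
  swap
  · intro B hBB m
    have h1 : ((MvPolynomial.eval (Fin.cons (x' m) (z' m) : Fin (n + 1) → O τ) (lf B) : O τ) : K) =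
        MvPolynomial.eval (Fin.cons (xs F z x₀ m) (z m) : Fin (n + 1) → K) B := by
      conv_rhs => rw [← hlf B hBB, MvPolynomial.eval_map, ← hx's, ← hcoe]
      exact (MvPolynomial.eval₂_comp (O τ).subtype _ (lf B)).symm ▸ rfl
    rw [← h1]
    apply norm_eq_one
    rw [← Ideal.Quotient.eq_zero_iff_mem, MvPolynomial.eval_eq_eval_mv_eval', ← eval_map_apply,
      hx't]
    exact ht4 B hBB m
  constructor
  · intro m i
    refine Fin.cases ?_ (fun i => ?_) i
    · rw [Fin.cons_zero, ← hx's]; exact (x' m).2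
    · rw [Fin.cons_succ]; exact hz.int m i
  · obtain ⟨L₁, hL₁, hL₁'⟩ := hz.fin
    let S : Finset (PadicAlgCl p) := {τ x₀} ∪ (c.support.image (fun m => τ (c.coeff m)) ∪
      G.support.image fun m => τ (G.coeff m))
    have hSfd := adjoin_fd S
    have hfd := IntermediateField.finiteDimensional_sup L₁
      (IntermediateField.adjoin ℚ_[p] (S : Set (PadicAlgCl p)))
    refine ⟨L₁ ⊔ IntermediateField.adjoin ℚ_[p] (S : Set (PadicAlgCl p)), hfd, ?_⟩
    set L₂ := L₁ ⊔ IntermediateField.adjoin ℚ_[p] (S : Set (PadicAlgCl p)) with hL₂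
    have hSL : ∀ s ∈ S, s ∈ L₂ := fun s hs =>
      (le_sup_right : _ ≤ L₂) (IntermediateField.subset_adjoin _ _ (Finset.mem_coe.2 hs))
    have hzL : ∀ m i, τ (z m i) ∈ L₂ := fun m i => (le_sup_left : _ ≤ L₂) (hL₁' m i)
    let T : Subring K := L₂.toSubfield.toSubring.comap τ
    have hT : ∀ y, y ∈ T ↔ τ y ∈ L₂ := fun y => Iff.rfl
    have hxL : ∀ m, xs F z x₀ m ∈ T := by
      intro m
      induction m with
      | zero => exact hSL _ (by simp [S, xs])
      | succ m ih =>
        have hw : ∀ i, (Fin.cons (xs F z x₀ m) (z m) : Fin (n + 1) → K) i ∈ T := by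
          intro i
          refine Fin.cases ?_ (fun i => ?_) i
          · rw [Fin.cons_zero]; exact ih
          · rw [Fin.cons_succ]; exact hzL m i
        show MvPolynomial.eval _ (MvPolynomial.rename Fin.succ c * MvPolynomial.X 0 ^ d + G) ∈ T
        rw [map_add, map_mul, map_pow, MvPolynomial.eval_rename, MvPolynomial.eval_X]
        refine T.add_mem (T.mul_mem (eval_mem_subring T c (fun m hm => hSL _
          (Finset.mem_union_right _ (Finset.mem_union_left _ (Finset.mem_image_of_mem _ hm)))) _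
          (fun i => hw i.succ)) (T.pow_mem (hw 0) _)) ?_
        exact eval_mem_subring T G (fun m hm => hSL _
          (Finset.mem_union_right _ (Finset.mem_union_right _
            (Finset.mem_image_of_mem _ hm)))) _ hw
    intro m i
    refine Fin.cases ?_ (fun i => ?_) i
    · rw [Fin.cons_zero]; exact hxL m
    · rw [Fin.cons_succ]; exact hzL m i
  · refine ⟨l * L, Nat.mul_pos hl0 hL0, fun m i => ?_⟩
    refine Fin.cases ?_ (fun i => ?_) i
    · rw [Fin.cons_zero, Fin.cons_zero, ← hx's, ← hx's, ← map_sub]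
      have h1 : x' (m + l * L) - x' m ∈ Om τ := by
        rw [← Ideal.Quotient.eq, hx't, hx't, ht2]
      exact h1
    · rw [Fin.cons_succ, Fin.cons_succ]
      exact per_mul hl L m i
  · intro m m' ε hε hw
    have hzz : ∀ i, ‖τ (z m i) - τ (z m' i)‖ ≤ ε := fun i => by
      have := hw i.succ
      rwa [Fin.cons_succ, Fin.cons_succ] at this
    intro i
    refine Fin.cases ?_ (fun i => ?_) i
    · rw [Fin.cons_zero, Fin.cons_zero, ← hx's, ← hx's, ← map_sub]
      have h1 : x' (m + 1) - x' (m' + 1) ∈ I τ ε hε := by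
        rw [hx'1, hx'1, hHF, hHF]
        refine eval_sub_mem _ (fun i => ?_) F'
        refine Fin.cases ?_ (fun i => ?_) i
        · rw [Fin.cons_zero, Fin.cons_zero, mem_I]
          have := hw 0
          rw [Fin.cons_zero, Fin.cons_zero, ← hx's, ← hx's, ← map_sub] at this
          exact this
        · rw [Fin.cons_succ, Fin.cons_succ, mem_I]
          have := hzz i
          rw [← map_sub] at this
          exact this
      exact h1
    · rw [Fin.cons_succ, Fin.cons_succ]
      exact hz.lip m m' ε hε hzz i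
  · intro m m' ε hε hw1 hw2
    have hzz : ∀ i, ‖τ (z m i) - τ (z m' i)‖ ≤ ε := hz.back m m' ε hε (fun i => by
      have := hw1 i.succ
      rwa [Fin.cons_succ, Fin.cons_succ] at this) (fun i => by
      have := hw2 i.succ
      rwa [Fin.cons_succ, Fin.cons_succ] at this)
    intro i
    refine Fin.cases ?_ (fun i => ?_) i
    · rw [Fin.cons_zero, Fin.cons_zero, ← hx's, ← hx's, ← map_sub]
      have h1 : x' (m + 1) - x' (m' + 1) ∈ I τ ε hε := by
        have := hw2 0
        rw [Fin.cons_zero, Fin.cons_zero, ← hx's, ← hx's, ← map_sub] at this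
        exact this
      have h2 : (H m).map (Ideal.Quotient.mk (I τ ε hε)) = (H m').map (Ideal.Quotient.mk _) :=
        Hq_mk _ _ _ _ fun i => by
          have := hzz i
          rw [← map_sub] at this
          exact this
      have h3 : (H m).eval (x' m) - (H m').eval (x' m) ∈ I τ ε hε := by
        rw [← Ideal.Quotient.eq, ← eval_map_apply, h2, eval_map_apply]
      have h4 : (H m').eval (x' m) - (H m').eval (x' m') ∈ I τ ε hε := by
        have e1 : (H m').eval (x' m) - (H m').eval (x' m') =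
            (x' (m + 1) - x' (m' + 1)) - ((H m).eval (x' m) - (H m').eval (x' m)) := by
          rw [hx'1, hx'1]; ring
        rw [e1]
        exact (I τ ε hε).sub_mem h1 h3
      obtain ⟨κ, hκ⟩ := binomExpansion (H m') (x' m') (x' m - x' m')
      rw [add_sub_cancel] at hκ
      have e2 : (H m').eval (x' m) - (H m').eval (x' m') =
          (x' m - x' m') * ((derivative (H m')).eval (x' m') + κ * (x' m - x' m')) := by
        rw [hκ]; ring
      have hxm : x' m - x' m' ∈ Om τ := by
        have := hw1 0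
        rw [Fin.cons_zero, Fin.cons_zero, ← hx's, ← hx's, ← map_sub] at this
        exact this
      have hu : (derivative (H m')).eval (x' m') + κ * (x' m - x' m') ∉ Om τ := by
        rw [← Ideal.Quotient.eq_zero_iff_mem, map_add, map_mul,
          Ideal.Quotient.eq_zero_iff_mem.2 hxm, mul_zero, add_zero, ← eval_map_apply,
          ← derivative_map, hx't]
        exact ht3 m'
      have hu1 := norm_eq_one τ hu
      rw [e2, mem_I] at h4
      have e3 : τ (((x' m - x' m') * ((derivative (H m')).eval (x' m') + κ * (x' m - x' m')) :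
          O τ) : K) = τ ((x' m - x' m' : O τ) : K) *
          τ (((derivative (H m')).eval (x' m') + κ * (x' m - x' m') : O τ) : K) := by
        rw [Subring.coe_mul, map_mul]
      rw [e3, norm_mul, hu1, mul_one] at h4
      exact h4
    · rw [Fin.cons_succ, Fin.cons_succ]
      exact hzz i

end step

end Pool.Agent.H78.Zd
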