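import Pool.Agent.H78.Zd.D
import Pool.Graph.R_seed8.TH61.PCF.Emb

/-!
# Towers over an automorphism
-/

set_option autoImplicit false

namespace Pool.Agent.H78.Zd

open Polynomial Filter Topology

section
variable {p : ℕ} [Fact p.Prime] {K : Type} [Field K] (τ : K →+* PadicAlgCl p)

theorem lip_eval {σ : Type*} (F : MvPolynomial σ K) (hF : ∀ m ∈ F.support, ‖τ (F.coeff m)‖ ≤ 1)
    {z w : σ → K} (hz : ∀ i, ‖τ (z i)‖ ≤ 1) (hw : ∀ i, ‖τ (w i)‖ ≤ 1) {ε : ℝ} (hε : 0 ≤ ε)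
    (h : ∀ i, ‖τ (z i) - τ (w i)‖ ≤ ε) :
    ‖τ (MvPolynomial.eval z F) - τ (MvPolynomial.eval w F)‖ ≤ ε := by
  obtain ⟨F', hF'⟩ := lift_mv τ F hF
  have hev : ∀ (w : σ → O τ), ((MvPolynomial.eval w F' : O τ) : K) =
      MvPolynomial.eval (fun i => (w i : K)) F := by
    intro w
    rw [← hF', MvPolynomial.eval_map]
    exact (MvPolynomial.eval₂_comp (O τ).subtype w F')
  have h1 := eval_sub_mem (I τ ε hε) (z := fun i => (⟨z i, hz i⟩ : O τ))
    (w := fun i => (⟨w i, hw i⟩ : O τ)) (fun i => by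
      have := h i
      rw [← map_sub] at this
      exact this) F'
  rw [mem_I, AddSubgroupClass.coe_sub, hev, hev, map_sub] at h1
  exact h1

/-- growth -/
theorem growth {n : ℕ} {z : Fin n → K} (hz : ∀ i, ‖τ (z i)‖ ≤ 1) (c : K) (d : ℕ)
    (G : MvPolynomial (Fin (n + 1)) K) (hG : G.degreeOf 0 < d)
    (hc : ‖τ c‖ = 1) (hGi : ∀ m ∈ G.support, ‖τ (G.coeff m)‖ ≤ 1) (x : K) (hx : 1 < ‖τ x‖) :
    ‖τ x‖ ^ d ≤ ‖τ (MvPolynomial.eval (Fin.cons x z : Fin (n + 1) → K)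
      (MvPolynomial.C c * MvPolynomial.X 0 ^ d + G))‖ := by
  have h1 : ‖τ (MvPolynomial.eval (Fin.cons x z : Fin (n + 1) → K) G)‖ ≤ ‖τ x‖ ^ (d - 1) := by
    rw [MvPolynomial.eval_eq', map_sum]
    refine nsum _ _ (by positivity) fun s hs => ?_
    rw [map_mul]
    refine nmul1 (hGi s hs) ?_
    rw [Fin.prod_univ_succ, map_mul, Fin.cons_zero, mul_comm]
    refine nmul1 ?_ ?_
    · simp only [Fin.cons_succ]
      rw [map_prod, norm_prod]
      refine Finset.prod_le_one (fun i _ => norm_nonneg _) fun i _ => ?_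
      rw [map_pow, norm_pow]
      exact pow_le_one₀ (norm_nonneg _) (hz i)
    · rw [map_pow, norm_pow]
      refine pow_le_pow_right₀ hx.le ?_
      have := MvPolynomial.monomial_le_degreeOf (0 : Fin (n + 1)) hs
      omega
  have h2 : ‖τ x‖ ^ (d - 1) < ‖τ x‖ ^ d := pow_lt_pow_right₀ hx (by omega)
  have h3 : ‖τ (c * x ^ d)‖ = ‖τ x‖ ^ d := by
    rw [map_mul, norm_mul, hc, one_mul, map_pow, norm_pow]
  set W := MvPolynomial.eval (Fin.cons x z : Fin (n + 1) → K)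
      (MvPolynomial.C c * MvPolynomial.X 0 ^ d + G) with hW
  have h4 : W = c * x ^ d + MvPolynomial.eval (Fin.cons x z : Fin (n + 1) → K) G := by
    rw [hW, map_add, map_mul, map_pow, MvPolynomial.eval_C, MvPolynomial.eval_X, Fin.cons_zero]
  by_contra hlt
  push Not at hlt
  have h5 : ‖τ (c * x ^ d)‖ < ‖τ x‖ ^ d := by
    have e1 : τ (c * x ^ d) = τ W + -τ (MvPolynomial.eval (Fin.cons x z : Fin (n + 1) → K) G) := by
      rw [h4, map_add]; ring
    rw [e1]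
    exact nadd' hlt (by rw [norm_neg]; exact h1.trans_lt h2)
  rw [h3] at h5
  exact lt_irrefl _ h5

theorem growth_lim {n : ℕ} {z : ℕ → Fin n → K} (hz : ∀ m i, ‖τ (z m i)‖ ≤ 1) (c : K) (d : ℕ)
    (hd : 2 ≤ d) (G : MvPolynomial (Fin (n + 1)) K) (hG : G.degreeOf 0 < d)
    (hc : ‖τ c‖ = 1) (hGi : ∀ m ∈ G.support, ‖τ (G.coeff m)‖ ≤ 1) (x : K) (hx : 1 < ‖τ x‖) :
    (∀ m, xs (MvPolynomial.C c * MvPolynomial.X 0 ^ d + G) z x m ≠ 0) ∧
    Tendsto (fun m => (τ (xs (MvPolynomial.C c * MvPolynomial.X 0 ^ d + G) z x m))⁻¹)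
      atTop (𝓝 0) := by
  have key : ∀ m, ‖τ x‖ ^ (m + 1) ≤
      ‖τ (xs (MvPolynomial.C c * MvPolynomial.X 0 ^ d + G) z x m)‖ := by
    intro m
    induction m with
    | zero => rw [zero_add, pow_one]; exact le_rfl
    | succ m ih =>
      set y := xs (MvPolynomial.C c * MvPolynomial.X 0 ^ d + G) z x m with hy
      have hy1 : 1 < ‖τ y‖ := lt_of_lt_of_le (one_lt_pow₀ hx (Nat.succ_ne_zero m)) ih
      have h1 := growth τ (hz m) c d G hG hc hGi y hy1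
      refine le_trans ?_ h1
      calc ‖τ x‖ ^ (m + 1 + 1) ≤ ‖τ x‖ ^ ((m + 1) * 2) := pow_le_pow_right₀ hx.le (by omega)
        _ = (‖τ x‖ ^ (m + 1)) ^ 2 := by rw [pow_mul]
        _ ≤ ‖τ y‖ ^ 2 := pow_le_pow_left₀ (by positivity) ih 2
        _ ≤ ‖τ y‖ ^ d := pow_le_pow_right₀ hy1.le hd
  have hx0 : 0 < ‖τ x‖ := one_pos.trans hx
  constructor
  · intro m h0
    have := key m
    rw [h0, map_zero, norm_zero] at this
    exact absurd this (not_le.2 (by positivity))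
  · rw [tendsto_zero_iff_norm_tendsto_zero]
    refine squeeze_zero (fun m => norm_nonneg _) (fun m => ?_)
      (tendsto_pow_atTop_nhds_zero_of_lt_one (r := ‖τ x‖⁻¹) (by positivity)
        (inv_lt_one_of_one_lt₀ hx))
    rw [norm_inv, inv_pow]
    refine inv_anti₀ (by positivity) (le_trans ?_ (key m))
    exact pow_le_pow_right₀ hx.le (Nat.le_succ m)

end

abbrev Qb := AlgebraicClosure ℚ

/-- dense orbits with recurrence at many places -/
def PP (n : ℕ) (Φ : (Fin n → Qb) → (Fin n → Qb)) : Prop :=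
  ∀ (k : ℕ) (Z : Finset Qb), ∃ (x₀ : Fin n → Qb) (p : Fin k → ℕ) (_ : ∀ j, Fact (p j).Prime)
    (τ : ∀ j, Qb →+* PadicAlgCl (p j)), Function.Injective p ∧
      (∀ j, ∀ z ∈ Z, ‖τ j z‖ ≤ 1) ∧ (∀ j, Good (τ j) (fun m => Φ^[m] x₀)) ∧
      Dense (fun m => Φ^[m] x₀)

theorem norm_one_of {p : ℕ} [Fact p.Prime] {K : Type} [Field K] (τ : K →+* PadicAlgCl p) {c : K}
    (hc : c ≠ 0) (h1 : ‖τ c‖ ≤ 1) (h2 : ‖τ c⁻¹‖ ≤ 1) : ‖τ c‖ = 1 := by
  refine le_antisymm h1 ?_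
  rw [map_inv₀, norm_inv] at h2
  have h3 : 0 < ‖τ c‖ := by rw [norm_pos_iff]; exact (_root_.map_ne_zero τ).2 hc
  exact (inv_le_one₀ h3).1 h2

theorem PP_step {n : ℕ} {Φ : (Fin n → Qb) → (Fin n → Qb)} (h : PP n Φ) (c : Qb) (hc : c ≠ 0)
    (d : ℕ) (hd : 2 ≤ d) (G : MvPolynomial (Fin (n + 1)) Qb) (hG : G.degreeOf 0 < d)
    (Ψ : (Fin (n + 1) → Qb) → (Fin (n + 1) → Qb))
    (hΨ : ∀ x z, Ψ (Fin.cons x z) = Fin.cons (MvPolynomial.eval (Fin.cons x z : Fin (n + 1) → Qb)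
      (MvPolynomial.C c * MvPolynomial.X 0 ^ d + G)) (Φ z)) : PP (n + 1) Ψ := by
  classical
  intro k Z
  obtain ⟨z₀, p, hp, τ, hinj, hZ, hgood, hdense⟩ := h (k + 1)
    (Z ∪ ({c, c⁻¹, (d : Qb)⁻¹} ∪ G.support.image fun m => G.coeff m))
  have hc1 : ∀ j, ‖τ j c‖ = 1 := fun j => norm_one_of (τ j) hc (hZ j _ (by simp))
    (hZ j _ (by simp))
  have hd0 : (d : Qb) ≠ 0 := by exact_mod_cast (by omega : d ≠ 0)
  have hd1 : ∀ j, ‖((d : ℕ) : PadicAlgCl (p j))‖ = 1 := by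
    intro j
    have := norm_one_of (τ j) hd0 (by rw [map_natCast]; exact nnat_le d) (hZ j _ (by simp))
    rwa [map_natCast] at this
  have hGi : ∀ j, ∀ m ∈ G.support, ‖τ j (G.coeff m)‖ ≤ 1 := fun j m hm => hZ j _
    (Finset.mem_union_right _ (Finset.mem_union_right _ (Finset.mem_image_of_mem _ hm)))
  choose t ht1 ht2 using fun j => exists_start (τ j) (hgood j) c d G hd hG (hc1 j) (hd1 j) (hGi j)
  obtain ⟨x, hx0, hx1⟩ := approx p hp hinj τ (fun j => if j = 0 then 0 else t j) (by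
    intro j
    split_ifs
    · rw [map_zero, norm_zero]; exact zero_le_one
    · exact ht1 j) (if_pos rfl)
  have horb : ∀ m, Ψ^[m] (Fin.cons x z₀) = Fin.cons
      (xs (MvPolynomial.C c * MvPolynomial.X 0 ^ d + G) (fun m => Φ^[m] z₀) x m) (Φ^[m] z₀) := by
    intro m
    induction m with
    | zero => rfl
    | succ m ih =>
      rw [Function.iterate_succ_apply', ih, hΨ, ← Function.iterate_succ_apply' Φ]
      rfl
  refine ⟨Fin.cons x z₀, fun j => p j.succ, fun j => hp j.succ, fun j => τ j.succ, ?_, ?_, ?_, ?_⟩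
  · intro i j hij
    exact Fin.succ_injective _ (hinj hij)
  · intro j z hz
    exact hZ j.succ z (Finset.mem_union_left _ hz)
  · intro j
    have h1 := ht2 j.succ x (by
      have := hx1 j.succ (Fin.succ_ne_zero j)
      simpa [Fin.succ_ne_zero] using this)
    simp only [horb]
    exact h1
  · simp only [horb]
    obtain ⟨hne, hlim⟩ := growth_lim (τ 0) (z := fun m => Φ^[m] z₀) (hgood 0).int c d hd G hG
      (hc1 0) (hGi 0) x hx0
    exact dens_step (hgood 0) hdense _ hne hlim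

end Pool.Agent.H78.Zd
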