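import Pool.Agent.H78.Zd.E

/-!
# The base: polynomial automorphisms with a dense orbit; towers
-/

set_option autoImplicit false

namespace Pool.Agent.H78.Zd

open Polynomial Filter Topology Pool.Agent.TH61.PCF

/-- the polynomial map -/
noncomputable def pm {n : ℕ} (g : Fin n → MvPolynomial (Fin n) Qb) (y : Fin n → Qb) : Fin n → Qb :=
  fun i => MvPolynomial.eval y (g i)

theorem PP_base {M : ℕ} (g g' : Fin M → MvPolynomial (Fin M) Qb)
    (hg : ∀ y, pm g' (pm g y) = y) (y₀ : Fin M → Qb) (hy : Dense (fun m => (pm g)^[m] y₀)) :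
    PP M (pm g) := by
  classical
  intro k Z
  let Z' : Finset Qb := Z ∪ (Finset.univ.image y₀ ∪
    ((Finset.univ.biUnion fun i => (g i).support.image fun m => (g i).coeff m) ∪
    (Finset.univ.biUnion fun i => (g' i).support.image fun m => (g' i).coeff m)))
  obtain ⟨q, hq, hpl⟩ := exists_places Z'
  choose hp σ hσ using hpl
  have hn : ∀ j, ∀ z ∈ Z', ‖σ j z‖ ≤ 1 := by
    intro j z hz
    obtain ⟨x, hx⟩ := hσ j z hz
    rw [hx, PadicAlgCl.norm_extends]
    exact x.2
  have hbot : ∀ j, ∀ z ∈ Z', σ j z ∈ (⊥ : IntermediateField ℚ_[q j] (PadicAlgCl (q j))) := by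
    intro j z hz
    obtain ⟨x, hx⟩ := hσ j z hz
    rw [IntermediateField.mem_bot]
    exact ⟨(x : ℚ_[q j]), hx.symm⟩
  have hgZ : ∀ i, ∀ m ∈ (g i).support, (g i).coeff m ∈ Z' := fun i m hm =>
    Finset.mem_union_right _ (Finset.mem_union_right _ (Finset.mem_union_left _
      (Finset.mem_biUnion.2 ⟨i, Finset.mem_univ _, Finset.mem_image_of_mem _ hm⟩)))
  have hgZ' : ∀ i, ∀ m ∈ (g' i).support, (g' i).coeff m ∈ Z' := fun i m hm =>
    Finset.mem_union_right _ (Finset.mem_union_right _ (Finset.mem_union_right _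
      (Finset.mem_biUnion.2 ⟨i, Finset.mem_univ _, Finset.mem_image_of_mem _ hm⟩)))
  have hyZ : ∀ i, y₀ i ∈ Z' := fun i =>
    Finset.mem_union_right _ (Finset.mem_union_left _
      (Finset.mem_image_of_mem _ (Finset.mem_univ _)))
  have hgood : ∀ j, Good (σ j) (fun m => (pm g)^[m] y₀) := by
    intro j
    have hint : ∀ m i, ‖σ j ((pm g)^[m] y₀ i)‖ ≤ 1 := by
      intro m
      induction m with
      | zero => intro i; exact hn j _ (hyZ i)
      | succ m ih =>
        intro i
        rw [Function.iterate_succ_apply']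
        exact eval_mem_subring (O (σ j)) (g i) (fun m hm => hn j _ (hgZ i m hm)) _ ih
    have hlip : ∀ m m' (ε : ℝ), 0 ≤ ε →
        (∀ i, ‖σ j ((pm g)^[m] y₀ i) - σ j ((pm g)^[m'] y₀ i)‖ ≤ ε) →
        ∀ i, ‖σ j ((pm g)^[m + 1] y₀ i) - σ j ((pm g)^[m' + 1] y₀ i)‖ ≤ ε := by
      intro m m' ε hε h i
      rw [Function.iterate_succ_apply', Function.iterate_succ_apply']
      exact lip_eval (σ j) (g i) (fun m hm => hn j _ (hgZ i m hm)) (hint m) (hint m') hε h
    have hback : ∀ m m' (ε : ℝ), 0 ≤ ε →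
        (∀ i, ‖σ j ((pm g)^[m + 1] y₀ i) - σ j ((pm g)^[m' + 1] y₀ i)‖ ≤ ε) →
        ∀ i, ‖σ j ((pm g)^[m] y₀ i) - σ j ((pm g)^[m'] y₀ i)‖ ≤ ε := by
      intro m m' ε hε h i
      have e : ∀ m, (pm g)^[m] y₀ = pm g' ((pm g)^[m + 1] y₀) := by
        intro m
        rw [Function.iterate_succ_apply', hg]
      rw [e m, e m']
      exact lip_eval (σ j) (g' i) (fun m hm => hn j _ (hgZ' i m hm)) (hint (m + 1))
        (hint (m' + 1)) hε h
    have hfin : ∀ m i, σ j ((pm g)^[m] y₀ i) ∈
        (⊥ : IntermediateField ℚ_[q j] (PadicAlgCl (q j))) := by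
      let T : Subring Qb :=
        (⊥ : IntermediateField ℚ_[q j] (PadicAlgCl (q j))).toSubfield.toSubring.comap (σ j)
      intro m
      induction m with
      | zero => intro i; exact hbot j _ (hyZ i)
      | succ m ih =>
        intro i
        rw [Function.iterate_succ_apply']
        exact eval_mem_subring T (g i) (fun m hm => hbot j _ (hgZ i m hm)) _ ih
    refine ⟨hint, ⟨⊥, inferInstance, hfin⟩, ?_, hlip, fun m m' ε hε _ h => hback m m' ε hε h⟩
    obtain ⟨a, b, hab, hd⟩ := pigeon (⊥ : IntermediateField ℚ_[q j] (PadicAlgCl (q j)))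
      (fun m i => σ j ((pm g)^[m] y₀ i)) hfin hint (ε := 1 / 2) (by norm_num) 1
    have h0 : ∀ s, s ≤ a → ∀ i, ‖σ j ((pm g)^[a - s] y₀ i) - σ j ((pm g)^[b - s] y₀ i)‖ ≤ 1 / 2 := by
      intro s
      induction s with
      | zero => intro _ i; exact hd i
      | succ s ih =>
        intro hs
        refine hback _ _ _ (by norm_num) ?_
        have e1 : a - (s + 1) + 1 = a - s := by omega
        have e2 : b - (s + 1) + 1 = b - s := by omega
        rw [e1, e2]
        exact ih (by omega)
    have h1 : ∀ m i, ‖σ j ((pm g)^[m] y₀ i) - σ j ((pm g)^[m + (b - a)] y₀ i)‖ ≤ 1 / 2 := by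
      intro m
      induction m with
      | zero =>
        have := h0 a le_rfl
        rw [Nat.sub_self] at this
        rw [zero_add]
        exact this
      | succ m ih =>
        have := hlip m (m + (b - a)) _ (by norm_num) ih
        have e1 : m + 1 + (b - a) = m + (b - a) + 1 := by omega
        rw [e1]
        exact this
    refine ⟨b - a, by omega, fun m i => ?_⟩
    rw [norm_sub_rev]
    exact (h1 m i).trans_lt (by norm_num)
  refine ⟨y₀, fun j => q j, fun j => hp j, fun j => σ j, fun i j hij => Fin.ext (hq hij),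
    fun j z hz => hn j z (Finset.mem_union_left _ hz), fun j => hgood j, hy⟩

/-- towers -/
theorem PP_tower {M : ℕ} (g g' : Fin M → MvPolynomial (Fin M) Qb)
    (hg : ∀ y, pm g' (pm g y) = y) (y₀ : Fin M → Qb) (hy : Dense (fun m => (pm g)^[m] y₀)) :
    ∀ (N : ℕ) (f : Fin (M + N) → MvPolynomial (Fin (M + N)) Qb)
    (_ : ∀ j : Fin M, f (j.addNat N) = MvPolynomial.rename (fun i : Fin M => i.addNat N) (g j))
    (_ : ∀ i : Fin (M + N), (i : ℕ) < N → ∀ j, j < i → (f i).degreeOf j = 0)
    (_ : ∀ i : Fin (M + N), (i : ℕ) < N → ∃ (c : Qb) (d : ℕ) (G : MvPolynomial (Fin (M + N)) Qb),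
      c ≠ 0 ∧ 2 ≤ d ∧ G.degreeOf i < d ∧ f i = MvPolynomial.C c * MvPolynomial.X i ^ d + G),
    PP (M + N) (pm f) := by
  intro N
  induction N with
  | zero =>
    intro f hb _ _
    have : f = g := by
      funext j
      have h1 := hb j
      have e1 : (fun i : Fin M => i.addNat 0) = id := by funext i; rfl
      rw [e1, MvPolynomial.rename_id_apply] at h1
      exact h1
    rw [this]
    exact PP_base g g' hg y₀ hy
  | succ N ih =>
    intro f hb htri hdeg
    have hinj : Function.Injective (Fin.succ : Fin (M + N) → Fin (M + N + 1)) :=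
      Fin.succ_injective _
    have hex : ∀ i : Fin (M + N), ∃ q : MvPolynomial (Fin (M + N)) Qb,
        MvPolynomial.rename Fin.succ q = f i.succ := by
      intro i
      rcases lt_or_ge (i : ℕ) N with hi | hi
      · apply MvPolynomial.exists_rename_eq_of_vars_subset_range _ _ hinj
        intro j hj
        rw [Finset.mem_coe, MvPolynomial.mem_vars_iff_degreeOf_ne_zero] at hj
        rcases Fin.eq_zero_or_eq_succ j with rfl | ⟨j', rfl⟩
        · exact absurd (htri i.succ (by simpa using hi) 0 (Fin.succ_pos i)) hj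
        · exact ⟨j', rfl⟩
      · refine ⟨MvPolynomial.rename (fun i : Fin M => i.addNat N) (g ⟨i - N, by omega⟩), ?_⟩
        have h1 := hb ⟨i - N, by omega⟩
        have e1 : (⟨i - N, by omega⟩ : Fin M).addNat (N + 1) = i.succ := by
          apply Fin.ext
          simp only [Fin.val_addNat, Fin.val_succ]
          omega
        rw [e1] at h1
        rw [h1, MvPolynomial.rename_rename]
        rfl
    choose f' hf' using hex
    obtain ⟨c, d, G, hc, hd, hG, hf0⟩ := hdeg 0 (Nat.succ_pos N)
    have IH := ih f' (by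
      intro j
      apply MvPolynomial.rename_injective _ hinj
      rw [hf', MvPolynomial.rename_rename]
      exact hb j) (by
      intro i hi j hj
      rw [← MvPolynomial.degreeOf_rename_of_injective hinj, hf']
      exact htri i.succ (by simpa using hi) j.succ (Fin.succ_lt_succ_iff.2 hj)) (by
      intro i hi
      obtain ⟨c, d, G, hc, hd, hG, hfi⟩ := hdeg i.succ (by simpa using hi)
      refine ⟨c, d, f' i - MvPolynomial.C c * MvPolynomial.X i ^ d, hc, hd, ?_, by ring⟩
      rw [← MvPolynomial.degreeOf_rename_of_injective hinj, map_sub, map_mul, map_pow,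
        MvPolynomial.rename_C, MvPolynomial.rename_X, hf', hfi, add_sub_cancel_left]
      exact hG)
    refine PP_step IH c hc d hd G hG _ ?_
    intro x z
    funext i
    refine Fin.cases ?_ (fun i => ?_) i
    · rw [Fin.cons_zero]
      show MvPolynomial.eval _ (f 0) = _
      rw [hf0]
    · rw [Fin.cons_succ]
      show MvPolynomial.eval _ (f i.succ) = MvPolynomial.eval z (f' i)
      rw [← hf', MvPolynomial.eval_rename]
      congr 1

end Pool.Agent.H78.Zd
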