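import Pool.Agent.H78.Zd.D2
import Pool.Agent.H78.Zd.F

/-!
# The induction step with general leading coefficients
-/

set_option autoImplicit false

namespace Pool.Agent.H78.Zd

open Polynomial Filter Topology

section
variable {p : ℕ} [Fact p.Prime] {K : Type} [Field K] (τ : K →+* PadicAlgCl p)

theorem eval_lc {n : ℕ} (c : MvPolynomial (Fin n) K) (d : ℕ) (G : MvPolynomial (Fin (n + 1)) K)
    (x : K) (z : Fin n → K) :
    MvPolynomial.eval (Fin.cons x z : Fin (n + 1) → K)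
      (MvPolynomial.rename Fin.succ c * MvPolynomial.X 0 ^ d + G) =
    MvPolynomial.eval (Fin.cons x z : Fin (n + 1) → K)
      (MvPolynomial.C (MvPolynomial.eval z c) * MvPolynomial.X 0 ^ d + G) := by
  simp only [map_add, map_mul, MvPolynomial.eval_C, MvPolynomial.eval_rename]
  congr 3

theorem growth_lim2 {n : ℕ} {z : ℕ → Fin n → K} (hz : ∀ m i, ‖τ (z m i)‖ ≤ 1)
    (c : MvPolynomial (Fin n) K) (d : ℕ)
    (hd : 2 ≤ d) (G : MvPolynomial (Fin (n + 1)) K) (hG : G.degreeOf 0 < d)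
    (hc : ∀ m, ‖τ (MvPolynomial.eval (z m) c)‖ = 1)
    (hGi : ∀ m ∈ G.support, ‖τ (G.coeff m)‖ ≤ 1) (x : K) (hx : 1 < ‖τ x‖) :
    (∀ m, xs (MvPolynomial.rename Fin.succ c * MvPolynomial.X 0 ^ d + G) z x m ≠ 0) ∧
    Tendsto (fun m => (τ (xs (MvPolynomial.rename Fin.succ c * MvPolynomial.X 0 ^ d + G) z x m))⁻¹)
      atTop (𝓝 0) := by
  have key : ∀ m, ‖τ x‖ ^ (m + 1) ≤
      ‖τ (xs (MvPolynomial.rename Fin.succ c * MvPolynomial.X 0 ^ d + G) z x m)‖ := by
    intro m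
    induction m with
    | zero => rw [zero_add, pow_one]; exact le_rfl
    | succ m ih =>
      set y := xs (MvPolynomial.rename Fin.succ c * MvPolynomial.X 0 ^ d + G) z x m with hy
      have hy1 : 1 < ‖τ y‖ := lt_of_lt_of_le (one_lt_pow₀ hx (Nat.succ_ne_zero m)) ih
      have h1 := growth τ (hz m) (MvPolynomial.eval (z m) c) d G hG (hc m) hGi y hy1
      rw [← eval_lc] at h1
      refine le_trans ?_ h1
      calc ‖τ x‖ ^ (m + 1 + 1) ≤ ‖τ x‖ ^ ((m + 1) * 2) := pow_le_pow_right₀ hx.le (by omega)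
        _ = (‖τ x‖ ^ (m + 1)) ^ 2 := by rw [pow_mul]
        _ ≤ ‖τ y‖ ^ 2 := pow_le_pow_left₀ (by positivity) ih 2
        _ ≤ ‖τ y‖ ^ d := pow_le_pow_right₀ hy1.le hd
  have hx0 : 0 < ‖τ x‖ := one_pos.trans hx
  constructor
  · intro m h0
    have := key m
    rw [h0, map_zero, norm_zero] at this
    exact absurd this (not_le.2 (by positivity))
  · rw [tendsto_zero_iff_norm_tendsto_zero]
    refine squeeze_zero (fun m => norm_nonneg _) (fun m => ?_)
      (tendsto_pow_atTop_nhds_zero_of_lt_one (r := ‖τ x‖⁻¹) (by positivity)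
        (inv_lt_one_of_one_lt₀ hx))
    rw [norm_inv, inv_pow]
    refine inv_anti₀ (by positivity) (le_trans ?_ (key m))
    exact pow_le_pow_right₀ hx.le (Nat.le_succ m)

end

/-- dense orbits with recurrence at many places, on which given polynomials are units -/
def PPB (n : ℕ) (Φ : (Fin n → Qb) → (Fin n → Qb)) (P : MvPolynomial (Fin n) Qb → Prop) : Prop :=
  ∀ (k : ℕ) (Z : Finset Qb) (BB : Finset (MvPolynomial (Fin n) Qb)), (∀ B ∈ BB, P B) →
    ∃ (x₀ : Fin n → Qb) (p : Fin k → ℕ) (_ : ∀ j, Fact (p j).Prime)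
    (τ : ∀ j, Qb →+* PadicAlgCl (p j)), Function.Injective p ∧
      (∀ j, ∀ z ∈ Z, ‖τ j z‖ ≤ 1) ∧ (∀ j, Good (τ j) (fun m => Φ^[m] x₀)) ∧
      Dense (fun m => Φ^[m] x₀) ∧
      ∀ j, ∀ B ∈ BB, ∀ m, ‖τ j (MvPolynomial.eval (Φ^[m] x₀) B)‖ = 1

theorem PPB_step {n : ℕ} {Φ : (Fin n → Qb) → (Fin n → Qb)} {P : MvPolynomial (Fin n) Qb → Prop}
    (h : PPB n Φ P) (P' : MvPolynomial (Fin (n + 1)) Qb → Prop)
    (hP : ∀ B, P' B → ∃ e, P ((MvPolynomial.finSuccEquiv Qb n B).coeff e))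
    (c : MvPolynomial (Fin n) Qb) (hc : P c)
    (d : ℕ) (hd : 2 ≤ d) (G : MvPolynomial (Fin (n + 1)) Qb) (hG : G.degreeOf 0 < d)
    (Ψ : (Fin (n + 1) → Qb) → (Fin (n + 1) → Qb))
    (hΨ : ∀ x z, Ψ (Fin.cons x z) = Fin.cons (MvPolynomial.eval (Fin.cons x z : Fin (n + 1) → Qb)
      (MvPolynomial.rename Fin.succ c * MvPolynomial.X 0 ^ d + G)) (Φ z)) : PPB (n + 1) Ψ P' := by
  classical
  intro k Z BB hBB
  choose! e he using hP
  obtain ⟨z₀, p, hp, τ, hinj, hZ, hgood, hdense, hunit⟩ := h (k + 1)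
    (Z ∪ ({(d : Qb)⁻¹, ((2 : ℕ) : Qb)⁻¹} ∪ (c.support.image (fun m => c.coeff m) ∪
      (G.support.image (fun m => G.coeff m) ∪
        BB.biUnion fun B => B.support.image fun m => B.coeff m))))
    (insert c (BB.image fun B => (MvPolynomial.finSuccEquiv Qb n B).coeff (e B))) (by
      intro B hB
      rcases Finset.mem_insert.1 hB with rfl | hB
      · exact hc
      · obtain ⟨B', hB', rfl⟩ := Finset.mem_image.1 hB
        exact he B' (hBB B' hB'))
  have hci : ∀ j, ∀ m ∈ c.support, ‖τ j (c.coeff m)‖ ≤ 1 := fun j m hm => hZ j _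
    (Finset.mem_union_right _ (Finset.mem_union_right _ (Finset.mem_union_left _
      (Finset.mem_image_of_mem _ hm))))
  have hc1 : ∀ j m, ‖τ j (MvPolynomial.eval (Φ^[m] z₀) c)‖ = 1 := fun j m =>
    hunit j c (Finset.mem_insert_self _ _) m
  have hd0 : (d : Qb) ≠ 0 := by exact_mod_cast (by omega : d ≠ 0)
  have hd1 : ∀ j, ‖((d : ℕ) : PadicAlgCl (p j))‖ = 1 := by
    intro j
    have := norm_one_of (τ j) hd0 (by rw [map_natCast]; exact nnat_le d) (hZ j _ (by simp))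
    rwa [map_natCast] at this
  have h20 : ((2 : ℕ) : Qb) ≠ 0 := Nat.cast_ne_zero.2 two_ne_zero
  have h21 : ∀ j, ‖((2 : ℕ) : PadicAlgCl (p j))‖ = 1 := by
    intro j
    have := norm_one_of (τ j) h20 (by rw [map_natCast]; exact nnat_le 2) (hZ j _
      (Finset.mem_union_right _ (Finset.mem_union_left _ (by simp))))
    rwa [map_natCast] at this
  have hGi : ∀ j, ∀ m ∈ G.support, ‖τ j (G.coeff m)‖ ≤ 1 := fun j m hm => hZ j _
    (Finset.mem_union_right _ (Finset.mem_union_right _ (Finset.mem_union_right _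
      (Finset.mem_union_left _ (Finset.mem_image_of_mem _ hm)))))
  have hBi : ∀ j, ∀ B ∈ BB, ∀ m ∈ B.support, ‖τ j (B.coeff m)‖ ≤ 1 := fun j B hB m hm => hZ j _
    (Finset.mem_union_right _ (Finset.mem_union_right _ (Finset.mem_union_right _
      (Finset.mem_union_right _ (Finset.mem_biUnion.2 ⟨B, hB, Finset.mem_image_of_mem _ hm⟩)))))
  choose t ht1 ht2 using fun j => exists_start2 (τ j) (hgood j) c d G hd hG (hci j) (hc1 j) (hd1 j)
    (h21 j) (hGi j) BB e (hBi j) (fun B hB m => hunit j _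
      (Finset.mem_insert_of_mem (Finset.mem_image_of_mem _ hB)) m)
  obtain ⟨x, hx0, hx1⟩ := approx p hp hinj τ (fun j => if j = 0 then 0 else t j) (by
    intro j
    split_ifs
    · rw [map_zero, norm_zero]; exact zero_le_one
    · exact ht1 j) (if_pos rfl)
  have horb : ∀ m, Ψ^[m] (Fin.cons x z₀) = Fin.cons
      (xs (MvPolynomial.rename Fin.succ c * MvPolynomial.X 0 ^ d + G) (fun m => Φ^[m] z₀) x m)
      (Φ^[m] z₀) := by
    intro m
    induction m with
    | zero => rfl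
    | succ m ih =>
      rw [Function.iterate_succ_apply', ih, hΨ, ← Function.iterate_succ_apply' Φ]
      rfl
  have hnear : ∀ j : Fin k, ‖τ j.succ x - τ j.succ (t j.succ)‖ < 1 := by
    intro j
    have := hx1 j.succ (Fin.succ_ne_zero j)
    simpa [Fin.succ_ne_zero] using this
  refine ⟨Fin.cons x z₀, fun j => p j.succ, fun j => hp j.succ, fun j => τ j.succ,
    ?_, ?_, ?_, ?_, ?_⟩
  · intro i j hij
    exact Fin.succ_injective _ (hinj hij)
  · intro j z hz
    exact hZ j.succ z (Finset.mem_union_left _ hz)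
  · intro j
    simp only [horb]
    exact (ht2 j.succ x (hnear j)).1
  · simp only [horb]
    obtain ⟨hne, hlim⟩ := growth_lim2 (τ 0) (z := fun m => Φ^[m] z₀) (hgood 0).int c d hd G hG
      (hc1 0) (hGi 0) x hx0
    exact dens_step (hgood 0) hdense _ hne hlim
  · intro j B hB m
    simp only [horb]
    exact (ht2 j.succ x (hnear j)).2 B hB m

theorem PPB_base {M : ℕ} (g g' : Fin M → MvPolynomial (Fin M) Qb)
    (hg : ∀ y, pm g' (pm g y) = y) (y₀ : Fin M → Qb) (hy : Dense (fun m => (pm g)^[m] y₀)) :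
    PPB M (pm g) (fun B => ∃ b, b ≠ 0 ∧ B = MvPolynomial.C b) := by
  classical
  intro k Z BB hBB
  choose! b hb0 hb using hBB
  obtain ⟨x₀, p, hp, τ, hinj, hZ, hgood, hdense⟩ := PP_base g g' hg y₀ hy k
    (Z ∪ (BB.image b ∪ BB.image fun B => (b B)⁻¹))
  refine ⟨x₀, p, hp, τ, hinj, fun j z hz => hZ j z (Finset.mem_union_left _ hz), hgood, hdense, ?_⟩
  intro j B hB m
  have h1 : MvPolynomial.eval ((pm g)^[m] x₀) B = b B := by
    conv_lhs => rw [hb B hB]
    rw [MvPolynomial.eval_C]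
  rw [h1]
  exact norm_one_of (τ j) (hb0 B hB)
    (hZ j _ (Finset.mem_union_right _ (Finset.mem_union_left _ (Finset.mem_image_of_mem _ hB))))
    (hZ j _ (Finset.mem_union_right _ (Finset.mem_union_right _
      (Finset.mem_image_of_mem (fun B => (b B)⁻¹) hB))))

end Pool.Agent.H78.Zd
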