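import Pool.Agent.H78.Zd.E2

/-!
# Towers with general leading coefficients
-/

set_option autoImplicit false

namespace Pool.Agent.H78.Zd

open Polynomial Filter Topology

theorem finSucc_rename {n : ℕ} (q : MvPolynomial (Fin n) Qb) :
    MvPolynomial.finSuccEquiv Qb n (MvPolynomial.rename Fin.succ q) = Polynomial.C q := by
  induction q using MvPolynomial.induction_on with
  | C a =>
    rw [MvPolynomial.rename_C]
    rw [MvPolynomial.finSuccEquiv_apply, MvPolynomial.eval₂Hom_C]
    rfl
  | add p q hp hq => rw [map_add, map_add, hp, hq, map_add]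
  | mul_X p i hp =>
    rw [map_mul, map_mul, hp, MvPolynomial.rename_X, MvPolynomial.finSuccEquiv_X_succ, map_mul]

/-- towers, abstract form -/
theorem PPB_tower {M : ℕ} (g : Fin M → MvPolynomial (Fin M) Qb)
    (P : ∀ N : ℕ, MvPolynomial (Fin (M + N)) Qb → Prop)
    (hP0 : ∀ N, ¬ P N 0)
    (hP : ∀ N B, P (N + 1) B → ∃ e, P N ((MvPolynomial.finSuccEquiv Qb (M + N) B).coeff e))
    (hbase : PPB M (pm g) (P 0)) :
    ∀ (N : ℕ) (f : Fin (M + N) → MvPolynomial (Fin (M + N)) Qb)
    (_ : ∀ j : Fin M, f (j.addNat N) = MvPolynomial.rename (fun i : Fin M => i.addNat N) (g j))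
    (_ : ∀ i : Fin (M + N), (i : ℕ) < N → ∃ (c G : MvPolynomial (Fin (M + N)) Qb) (d : ℕ),
      f i = c * MvPolynomial.X i ^ d + G ∧ 2 ≤ d ∧ P N c ∧ (∀ j, j ≤ i → c.degreeOf j = 0) ∧
      G.degreeOf i < d ∧ (∀ j, j < i → G.degreeOf j = 0)),
    PPB (M + N) (pm f) (P N) := by
  intro N
  induction N with
  | zero =>
    intro f hb _
    have : f = g := by
      funext j
      have h1 := hb j
      have e1 : (fun i : Fin M => i.addNat 0) = id := by funext i; rfl
      rw [e1, MvPolynomial.rename_id_apply] at h1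
      exact h1
    rw [this]
    exact hbase
  | succ N ih =>
    intro f hb hfib
    have hinj : Function.Injective (Fin.succ : Fin (M + N) → Fin (M + N + 1)) :=
      Fin.succ_injective _
    have hex0 : ∀ F : MvPolynomial (Fin (M + N + 1)) Qb, F.degreeOf 0 = 0 →
        ∃ q : MvPolynomial (Fin (M + N)) Qb, MvPolynomial.rename Fin.succ q = F := by
      intro F hF
      apply MvPolynomial.exists_rename_eq_of_vars_subset_range _ _ hinj
      intro j hj
      rw [Finset.mem_coe, MvPolynomial.mem_vars_iff_degreeOf_ne_zero] at hj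
      rcases Fin.eq_zero_or_eq_succ j with rfl | ⟨j', rfl⟩
      · exact absurd hF hj
      · exact ⟨j', rfl⟩
    have hPr : ∀ q : MvPolynomial (Fin (M + N)) Qb, P (N + 1) (MvPolynomial.rename Fin.succ q) →
        P N q := by
      intro q hq
      obtain ⟨e, he⟩ := hP N _ hq
      rw [finSucc_rename] at he
      rcases eq_or_ne e 0 with rfl | he0
      · rwa [coeff_C_zero] at he
      · rw [coeff_C_of_ne_zero he0] at he
        exact absurd he (hP0 N)
    have hex : ∀ i : Fin (M + N), ∃ q : MvPolynomial (Fin (M + N)) Qb,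
        MvPolynomial.rename Fin.succ q = f i.succ := by
      intro i
      rcases lt_or_ge (i : ℕ) N with hi | hi
      · obtain ⟨c, G, d, h1, h2, h3, h4, h5, h6⟩ := hfib i.succ (by simpa using hi)
        obtain ⟨c', hc'⟩ := hex0 c (h4 0 (Fin.zero_le _))
        obtain ⟨G', hG'⟩ := hex0 G (h6 0 (Fin.succ_pos i))
        exact ⟨c' * MvPolynomial.X i ^ d + G', by
          rw [map_add, map_mul, map_pow, MvPolynomial.rename_X, hc', hG', h1]⟩
      · refine ⟨MvPolynomial.rename (fun i : Fin M => i.addNat N) (g ⟨i - N, by omega⟩), ?_⟩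
        have h1 := hb ⟨i - N, by omega⟩
        have e1 : (⟨i - N, by omega⟩ : Fin M).addNat (N + 1) = i.succ := by
          apply Fin.ext
          simp only [Fin.val_addNat, Fin.val_succ]
          omega
        rw [e1] at h1
        rw [h1, MvPolynomial.rename_rename]
        rfl
    choose f' hf' using hex
    obtain ⟨c, G, d, hf0, hd, hPc, hc, hG, -⟩ := hfib 0 (Nat.succ_pos N)
    obtain ⟨c', rfl⟩ := hex0 c (hc 0 le_rfl)
    have IH := ih f' (by
      intro j
      apply MvPolynomial.rename_injective _ hinj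
      rw [hf', MvPolynomial.rename_rename]
      exact hb j) (by
      intro i hi
      obtain ⟨c, G, d, h1, h2, h3, h4, h5, h6⟩ := hfib i.succ (by simpa using hi)
      obtain ⟨c', rfl⟩ := hex0 c (h4 0 (Fin.zero_le _))
      obtain ⟨G', rfl⟩ := hex0 G (h6 0 (Fin.succ_pos i))
      refine ⟨c', G', d, ?_, h2, hPr c' h3, ?_, ?_, ?_⟩
      · apply MvPolynomial.rename_injective _ hinj
        rw [hf', h1, map_add, map_mul, map_pow, MvPolynomial.rename_X]
      · intro j hj
        rw [← MvPolynomial.degreeOf_rename_of_injective hinj]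
        exact h4 j.succ (Fin.succ_le_succ_iff.2 hj)
      · rw [← MvPolynomial.degreeOf_rename_of_injective hinj]
        exact h5
      · intro j hj
        rw [← MvPolynomial.degreeOf_rename_of_injective hinj]
        exact h6 j.succ (Fin.succ_lt_succ_iff.2 hj))
    refine PPB_step IH (P (N + 1)) (hP N) c' (hPr c' hPc) d hd G hG _ ?_
    intro x z
    funext i
    refine Fin.cases ?_ (fun i => ?_) i
    · rw [Fin.cons_zero]
      show MvPolynomial.eval _ (f 0) = _
      rw [hf0]
    · rw [Fin.cons_succ]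
      show MvPolynomial.eval _ (f i.succ) = MvPolynomial.eval z (f' i)
      rw [← hf', MvPolynomial.eval_rename]
      congr 1

/-- The polynomial `C`, considered as a polynomial in the first `N` variables, has a coefficient
which is a nonzero constant. -/
def HasConstCoeff (M N : ℕ) (C : MvPolynomial (Fin (M + N)) Qb) : Prop :=
  ∃ s₀ ∈ C.support, (∀ i : Fin (M + N), N ≤ (i : ℕ) → s₀ i = 0) ∧
    ∀ s ∈ C.support, (∀ i : Fin (M + N), (i : ℕ) < N → s i = s₀ i) → s = s₀

theorem HasConstCoeff_zero (M N : ℕ) : ¬ HasConstCoeff M N 0 := by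
  rintro ⟨s₀, h, -⟩
  simp at h

theorem HasConstCoeff_step (M N : ℕ) (B : MvPolynomial (Fin (M + (N + 1))) Qb)
    (h : HasConstCoeff M (N + 1) B) :
    ∃ e, HasConstCoeff M N ((MvPolynomial.finSuccEquiv Qb (M + N) B).coeff e) := by
  obtain ⟨s₀, h1, h2, h3⟩ := h
  have hcc : ∀ (m : Fin (M + N) →₀ ℕ) (i : ℕ),
      MvPolynomial.coeff m ((MvPolynomial.finSuccEquiv Qb (M + N) B).coeff i) =
      MvPolynomial.coeff (m.cons i : Fin (M + N + 1) →₀ ℕ) B :=
    fun m i => MvPolynomial.finSuccEquiv_coeff_coeff m B i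
  refine ⟨s₀ 0, Finsupp.tail (n := M + N) s₀, ?_, ?_, ?_⟩
  · rw [MvPolynomial.mem_support_iff, hcc]
    have e1 := Finsupp.cons_tail (n := M + N) s₀
    rw [e1]
    exact MvPolynomial.mem_support_iff.1 h1
  · intro i hi
    rw [Finsupp.tail_apply]
    exact h2 i.succ (by simpa using hi)
  · intro t ht hti
    rw [MvPolynomial.mem_support_iff, hcc] at ht
    have h4 := h3 _ (MvPolynomial.mem_support_iff.2 ht) (by
      intro i hi
      refine Fin.cases (fun _ => ?_) (fun i hi => ?_) i hi
      · rw [Finsupp.cons_zero]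
      · rw [Finsupp.cons_succ, hti i (by simpa using hi), Finsupp.tail_apply])
    rw [← h4, Finsupp.tail_cons]

theorem HasConstCoeff_base (M : ℕ) (B : MvPolynomial (Fin (M + 0)) Qb)
    (h : HasConstCoeff M 0 B) : ∃ b, b ≠ 0 ∧ B = MvPolynomial.C b := by
  obtain ⟨s₀, h1, h2, h3⟩ := h
  have hs : s₀ = 0 := by
    ext i
    exact h2 i (Nat.zero_le _)
  subst hs
  refine ⟨B.coeff 0, MvPolynomial.mem_support_iff.1 h1, ?_⟩
  ext s
  rw [MvPolynomial.coeff_C]
  split_ifs with hs
  · rw [hs]
  · by_contra hne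
    exact hs (h3 s (MvPolynomial.mem_support_iff.2 hne) (by
      intro i hi
      exact absurd hi (Nat.not_lt_zero _))).symm

theorem PPB_mono {n : ℕ} {Φ : (Fin n → Qb) → (Fin n → Qb)} {P P' : MvPolynomial (Fin n) Qb → Prop}
    (h : PPB n Φ P) (hP : ∀ B, P' B → P B) : PPB n Φ P' :=
  fun k Z BB hBB => h k Z BB fun B hB => hP B (hBB B hB)

/-- towers over automorphisms with a dense orbit -/
theorem tower_aut {M : ℕ} (g g' : Fin M → MvPolynomial (Fin M) Qb)
    (hg : ∀ y, pm g' (pm g y) = y) (y₀ : Fin M → Qb) (hy : Dense (fun m => (pm g)^[m] y₀))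
    (N : ℕ) (f : Fin (M + N) → MvPolynomial (Fin (M + N)) Qb)
    (hb : ∀ j : Fin M, f (j.addNat N) = MvPolynomial.rename (fun i : Fin M => i.addNat N) (g j))
    (hf : ∀ i : Fin (M + N), (i : ℕ) < N → ∃ (c G : MvPolynomial (Fin (M + N)) Qb) (d : ℕ),
      f i = c * MvPolynomial.X i ^ d + G ∧ 2 ≤ d ∧ HasConstCoeff M N c ∧
      (∀ j, j ≤ i → c.degreeOf j = 0) ∧ G.degreeOf i < d ∧ (∀ j, j < i → G.degreeOf j = 0)) :
    ∃ x, Dense (fun m => (pm f)^[m] x) := by
  have h := PPB_tower g (HasConstCoeff M) (HasConstCoeff_zero M) (HasConstCoeff_step M)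
    (PPB_mono (PPB_base g g' hg y₀ hy) (HasConstCoeff_base M)) N f hb hf
  obtain ⟨x, -, -, -, -, -, -, hx, -⟩ := h 0 ∅ ∅ (by simp)
  exact ⟨x, hx⟩

end Pool.Agent.H78.Zd
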