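import Pool.Agent.H78.Zd.F2

/-!
# Towers over the affine line
-/

set_option autoImplicit false

namespace Pool.Agent.H78.Zd

open Polynomial Filter Topology Pool.Agent.TH61.PCF

theorem good_aut {p : ℕ} [Fact p.Prime] (τ : Qb →+* PadicAlgCl p) {M : ℕ}
    (g g' : Fin M → MvPolynomial (Fin M) Qb)
    (hg : ∀ y, pm g' (pm g y) = y) (hgi : ∀ i, ∀ m ∈ (g i).support, ‖τ ((g i).coeff m)‖ ≤ 1)
    (hgi' : ∀ i, ∀ m ∈ (g' i).support, ‖τ ((g' i).coeff m)‖ ≤ 1) (y₀ : Fin M → Qb)
    (hy : ∀ i, ‖τ (y₀ i)‖ ≤ 1) : Good τ (fun m => (pm g)^[m] y₀) := by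
  classical
  have hint : ∀ m i, ‖τ ((pm g)^[m] y₀ i)‖ ≤ 1 := by
    intro m
    induction m with
    | zero => intro i; exact hy i
    | succ m ih =>
      intro i
      rw [Function.iterate_succ_apply']
      exact eval_mem_subring (O τ) (g i) (hgi i) _ ih
  have hlip : ∀ m m' (ε : ℝ), 0 ≤ ε →
      (∀ i, ‖τ ((pm g)^[m] y₀ i) - τ ((pm g)^[m'] y₀ i)‖ ≤ ε) →
      ∀ i, ‖τ ((pm g)^[m + 1] y₀ i) - τ ((pm g)^[m' + 1] y₀ i)‖ ≤ ε := by
    intro m m' ε hε h i
    rw [Function.iterate_succ_apply', Function.iterate_succ_apply']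
    exact lip_eval τ (g i) (hgi i) (hint m) (hint m') hε h
  have hback : ∀ m m' (ε : ℝ), 0 ≤ ε →
      (∀ i, ‖τ ((pm g)^[m + 1] y₀ i) - τ ((pm g)^[m' + 1] y₀ i)‖ ≤ ε) →
      ∀ i, ‖τ ((pm g)^[m] y₀ i) - τ ((pm g)^[m'] y₀ i)‖ ≤ ε := by
    intro m m' ε hε h i
    have e : ∀ m, (pm g)^[m] y₀ = pm g' ((pm g)^[m + 1] y₀) := by
      intro m
      rw [Function.iterate_succ_apply', hg]
    rw [e m, e m']
    exact lip_eval τ (g' i) (hgi' i) (hint (m + 1)) (hint (m' + 1)) hε h
  let S : Finset (PadicAlgCl p) := (Finset.univ.image fun i => τ (y₀ i)) ∪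
    Finset.univ.biUnion fun i => (g i).support.image fun m => τ ((g i).coeff m)
  have hSfd := adjoin_fd S
  set L := IntermediateField.adjoin ℚ_[p] (S : Set (PadicAlgCl p)) with hL
  have hSL : ∀ s ∈ S, s ∈ L := fun s hs =>
    IntermediateField.subset_adjoin _ _ (Finset.mem_coe.2 hs)
  have hfin : ∀ m i, τ ((pm g)^[m] y₀ i) ∈ L := by
    let T : Subring Qb := L.toSubfield.toSubring.comap τ
    intro m
    induction m with
    | zero => intro i; exact hSL _ (Finset.mem_union_left _
        (Finset.mem_image_of_mem _ (Finset.mem_univ _)))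
    | succ m ih =>
      intro i
      rw [Function.iterate_succ_apply']
      exact eval_mem_subring T (g i) (fun m hm => hSL _ (Finset.mem_union_right _
        (Finset.mem_biUnion.2 ⟨i, Finset.mem_univ _, Finset.mem_image_of_mem _ hm⟩))) _ ih
  refine ⟨hint, ⟨L, hSfd, hfin⟩, ?_, hlip, fun m m' ε hε _ h => hback m m' ε hε h⟩
  obtain ⟨a, b, hab, hd⟩ := pigeon L (fun m i => τ ((pm g)^[m] y₀ i)) hfin hint (ε := 1 / 2)
    (by norm_num) 1
  have h0 : ∀ s, s ≤ a → ∀ i, ‖τ ((pm g)^[a - s] y₀ i) - τ ((pm g)^[b - s] y₀ i)‖ ≤ 1 / 2 := by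
    intro s
    induction s with
    | zero => intro _ i; exact hd i
    | succ s ih =>
      intro hs
      refine hback _ _ _ (by norm_num) ?_
      have e1 : a - (s + 1) + 1 = a - s := by omega
      have e2 : b - (s + 1) + 1 = b - s := by omega
      rw [e1, e2]
      exact ih (by omega)
  have h1 : ∀ m i, ‖τ ((pm g)^[m] y₀ i) - τ ((pm g)^[m + (b - a)] y₀ i)‖ ≤ 1 / 2 := by
    intro m
    induction m with
    | zero =>
      have := h0 a le_rfl
      rw [Nat.sub_self] at this
      rw [zero_add]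
      exact this
    | succ m ih =>
      have := hlip m (m + (b - a)) _ (by norm_num) ih
      have e1 : m + 1 + (b - a) = m + (b - a) + 1 := by omega
      rw [e1]
      exact this
  refine ⟨b - a, by omega, fun m i => ?_⟩
  rw [norm_sub_rev]
  exact (h1 m i).trans_lt (by norm_num)

theorem iter_affine {K : Type} [Field K] (a b : K) (n : ℕ) :
    ∃ β : K, ∀ y, (fun y => a * y + b)^[n] y = a ^ n * y + β := by
  induction n with
  | zero => exact ⟨0, fun y => by simp⟩
  | succ n ih =>
    obtain ⟨β, hβ⟩ := ih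
    refine ⟨a * β + b, fun y => ?_⟩
    rw [Function.iterate_succ_apply', hβ]
    ring

/-- an affine map of finite order over a field in which `a ^ (p - 1) = 1`, `p = 0` -/
theorem affine_order {K : Type} [Field K] (p : ℕ) (hp : (p : K) = 0) (a b : K) (r : ℕ)
    (ha : a ^ r = 1) (y : K) : (fun y => a * y + b)^[r * p] y = y := by
  obtain ⟨β, hβ⟩ := iter_affine a b r
  have h1 : ∀ n : ℕ, (fun y => a * y + b)^[r * n] y = y + n * β := by
    intro n
    induction n with
    | zero => simp
    | succ n ih =>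
      rw [Nat.mul_succ, add_comm, Function.iterate_add_apply, ih, hβ, ha, one_mul, Nat.cast_succ]
      ring
  rw [h1, hp, zero_mul, add_zero]

/-- the affine map -/
noncomputable def gl (a b : Qb) : Fin 1 → MvPolynomial (Fin 1) Qb :=
  fun _ => MvPolynomial.C a * MvPolynomial.X 0 + MvPolynomial.C b

theorem pm_gl (a b : Qb) (y : Fin 1 → Qb) : pm (gl a b) y = fun _ => a * y 0 + b := by
  funext i
  simp [pm, gl]

theorem pm_gl_iter (a b : Qb) (m : ℕ) (y : Fin 1 → Qb) :
    (pm (gl a b))^[m] y = fun _ => (fun y => a * y + b)^[m] (y 0) := by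
  induction m with
  | zero => funext i; rw [Fin.fin_one_eq_zero i]; rfl
  | succ m ih => rw [Function.iterate_succ_apply', ih, pm_gl, Function.iterate_succ_apply']

theorem dense_line (a b : Qb) (ha : a ≠ 0)
    (hinf : ∀ n, 0 < n → ∃ y, (fun y => a * y + b)^[n] y ≠ y) (y : Fin 1 → Qb)
    (hy : a * y 0 + b ≠ y 0) : Dense (fun m => (pm (gl a b))^[m] y) := by
  have hinj : Function.Injective (fun y : Qb => a * y + b) := by
    intro u v huv
    have h1 : a * u = a * v := add_right_cancel huv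
    exact mul_left_cancel₀ ha h1
  have hne : ∀ m n : ℕ, (fun y => a * y + b)^[m] (y 0) = (fun y => a * y + b)^[m + n] (y 0) →
      n = 0 := by
    intro m n h
    by_contra hn
    rw [Function.iterate_add_apply] at h
    have h1 := (hinj.iterate m) h
    obtain ⟨β, hβ⟩ := iter_affine a b n
    rw [hβ] at h1
    have h2 : a ^ n * (a * y 0 + b) + β = a * y 0 + b := by
      rw [← hβ, ← Function.iterate_succ_apply (fun y => a * y + b), Function.iterate_succ_apply',
        hβ, ← h1]
    have h3 : (a ^ n - 1) * ((a * y 0 + b) - y 0) = 0 := by linear_combination h2 + h1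
    have h4 : a ^ n = 1 := by
      rcases mul_eq_zero.1 h3 with h | h
      · exact sub_eq_zero.1 h
      · exact absurd (sub_eq_zero.1 h) hy
    obtain ⟨y', hy'⟩ := hinf n (Nat.pos_of_ne_zero hn)
    apply hy'
    rw [hβ, h4]
    rw [h4] at h1
    linear_combination -h1
  intro R hR
  have hinj2 : Function.Injective fun m : ℕ => (fun y => a * y + b)^[m] (y 0) := by
    intro m n hmn
    rcases le_total m n with h | h
    · obtain ⟨l, rfl⟩ := Nat.exists_eq_add_of_le h
      have := hne m l hmn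
      omega
    · obtain ⟨l, rfl⟩ := Nat.exists_eq_add_of_le h
      have := hne n l hmn.symm
      omega
  have h5 : MvPolynomial.finSuccEquiv Qb 0 R = 0 := by
    have h6 : ((MvPolynomial.finSuccEquiv Qb 0 R).map (MvPolynomial.eval (fun i : Fin 0 =>
        (i.elim0 : Qb)))) = 0 := by
      apply Polynomial.eq_zero_of_infinite_isRoot
      refine (Set.infinite_range_of_injective hinj2).mono ?_
      rintro _ ⟨m, rfl⟩
      have h7 : MvPolynomial.eval ((pm (gl a b))^[m] y) R = 0 := hR m
      rw [pm_gl_iter] at h7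
      have e1 : (fun _ => (fun y => a * y + b)^[m] (y 0) : Fin 1 → Qb) =
          Fin.cons ((fun y => a * y + b)^[m] (y 0)) (fun i : Fin 0 => (i.elim0 : Qb)) := by
        funext i
        rw [Fin.fin_one_eq_zero i]
        rfl
      rw [e1, MvPolynomial.eval_eq_eval_mv_eval'] at h7
      exact h7
    ext j : 1
    have h8 := congrArg (fun q => q.coeff j) h6
    simp only [coeff_map, coeff_zero] at h8
    rw [MvPolynomial.eq_C_of_isEmpty ((MvPolynomial.finSuccEquiv Qb 0 R).coeff j)] at h8 ⊢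
    rw [MvPolynomial.eval_C] at h8
    rw [h8, map_zero, coeff_zero]
  exact (map_eq_zero_iff _ (MvPolynomial.finSuccEquiv Qb 0).injective).1 h5

end Pool.Agent.H78.Zd
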