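import Pool.Agent.H78.Zd.G2

/-!
# Affine maps of the line: orbits on which given polynomials are units
-/

set_option autoImplicit false

namespace Pool.Agent.H78.Zd

open Polynomial Filter Topology Pool.Agent.TH61.PCF

theorem pow_sub_one {p : ℕ} [Fact p.Prime] (x : ℤ_[p]) (hx : IsUnit x) : ‖x ^ (p - 1) - 1‖ < 1 := by
  have h1 : PadicInt.toZMod (x ^ (p - 1) - 1) = 0 := by
    rw [map_sub, map_pow, map_one, ZMod.pow_card_sub_one_eq_one (hx.map PadicInt.toZMod).ne_zero,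
      sub_self]
  rw [← RingHom.mem_ker, PadicInt.ker_toZMod, PadicInt.maximalIdeal_eq_span_p,
    Ideal.mem_span_singleton, ← PadicInt.norm_lt_one_iff_dvd] at h1
  exact h1

/-- the one variable polynomial -/
noncomputable def uv {A : Type} [CommRing A] (B : MvPolynomial (Fin 1) A) : A[X] :=
  (MvPolynomial.finSuccEquiv A 0 B).map (MvPolynomial.eval (fun i : Fin 0 => (i.elim0 : A)))

theorem uv_eval {A : Type} [CommRing A] (B : MvPolynomial (Fin 1) A) (y : A) :
    (uv B).eval y = MvPolynomial.eval (fun _ => y) B := by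
  have e1 : (fun _ => y : Fin 1 → A) = Fin.cons y (fun i : Fin 0 => (i.elim0 : A)) := by
    funext i
    rw [Fin.fin_one_eq_zero i]
    rfl
  rw [e1, MvPolynomial.eval_eq_eval_mv_eval', uv]

theorem uv_coeff {A : Type} [CommRing A] (B : MvPolynomial (Fin 1) A) (s : Fin 1 →₀ ℕ) :
    (uv B).coeff (s 0) = B.coeff s := by
  rw [uv, coeff_map]
  have h1 := MvPolynomial.finSuccEquiv_coeff_coeff (Finsupp.tail (n := 0) s) B (s 0)
  rw [Finsupp.cons_tail (n := 0)] at h1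
  rw [← h1, MvPolynomial.eq_C_of_isEmpty ((MvPolynomial.finSuccEquiv A 0 B).coeff (s 0)),
    MvPolynomial.eval_C, MvPolynomial.coeff_C]
  rw [if_pos (Subsingleton.elim _ _)]

theorem unit_line {p : ℕ} [Fact p.Prime] (τ : Qb →+* PadicAlgCl p) (a b : Qb)
    (ha : a ≠ 0) (hai : ∃ x : ℤ_[p], τ a = algebraMap ℚ_[p] (PadicAlgCl p) (x : ℚ_[p]))
    (ha' : ‖τ a⁻¹‖ ≤ 1) (hb : ‖τ b‖ ≤ 1) (BB : Finset (MvPolynomial (Fin 1) Qb))
    (hBi : ∀ B ∈ BB, ∀ m ∈ B.support, ‖τ (B.coeff m)‖ ≤ 1)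
    (hB : ∀ B ∈ BB, ∃ m, ‖τ (B.coeff m)‖ = 1) :
    ∃ t : Qb, ‖τ t‖ ≤ 1 ∧ ∀ y : Qb, ‖τ y - τ t‖ < 1 → ‖τ y‖ ≤ 1 ∧ ∀ B ∈ BB, ∀ m,
      ‖τ (MvPolynomial.eval ((pm (gl a b))^[m] (fun _ => y)) B)‖ = 1 := by
  classical
  have hInf : Infinite (k τ) := IsAlgClosed.instInfinite
  obtain ⟨x, hx⟩ := hai
  have hai1 : ‖τ a‖ ≤ 1 := by rw [hx, PadicAlgCl.norm_extends]; exact x.2
  have ha1 : ‖τ a‖ = 1 := norm_one_of τ ha hai1 ha'
  let a' : O τ := ⟨a, hai1⟩
  let b' : O τ := ⟨b, hb⟩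
  have hxu : IsUnit x := by
    rw [PadicInt.isUnit_iff]
    rw [hx, PadicAlgCl.norm_extends] at ha1
    exact ha1
  have hapow : (Ideal.Quotient.mk (Om τ) a') ^ (p - 1) = 1 := by
    rw [← map_pow, ← map_one (Ideal.Quotient.mk (Om τ)), Ideal.Quotient.eq, mem_Om]
    have h1 : τ ((a' ^ (p - 1) - 1 : O τ) : Qb) =
        algebraMap ℚ_[p] (PadicAlgCl p) ((x ^ (p - 1) - 1 : ℤ_[p]) : ℚ_[p]) := by
      have e1 : ((a' ^ (p - 1) - 1 : O τ) : Qb) = a ^ (p - 1) - 1 := by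
        rw [AddSubgroupClass.coe_sub, SubmonoidClass.coe_pow]; rfl
      rw [e1, map_sub, map_pow, map_one, hx, PadicInt.coe_sub, PadicInt.coe_pow, PadicInt.coe_one,
        map_sub, map_pow, map_one]
    rw [h1, PadicAlgCl.norm_extends]
    exact pow_sub_one x hxu
  have hp0 : ((p : ℕ) : k τ) = 0 := by
    have e1 : ((p : ℕ) : k τ) = Ideal.Quotient.mk (Om τ) ((p : ℕ) : O τ) := by rw [map_natCast]
    rw [e1, Ideal.Quotient.eq_zero_iff_mem, mem_Om]
    have e2 : ∀ q : ℕ, τ (((q : O τ)) : Qb) = (q : PadicAlgCl p) := fun q => by simp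
    rw [e2 p]
    exact nnat_lt (dvd_refl _)
  set A := Ideal.Quotient.mk (Om τ) a' with hA
  set Bb := Ideal.Quotient.mk (Om τ) b' with hBb
  have hA0 : A ≠ 0 := by
    intro h0
    rw [h0, zero_pow] at hapow
    · exact zero_ne_one hapow
    · have := (Fact.out : p.Prime).two_le
      omega
  set r := (p - 1) * p with hr
  have hr0 : 0 < r := Nat.mul_pos (Nat.sub_pos_of_lt (Fact.out : p.Prime).one_lt)
    (Fact.out : p.Prime).pos
  have hper : ∀ t : k τ, (fun y => A * y + Bb)^[r] t = t := affine_order p hp0 A Bb (p - 1) hapow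
  choose! lf hlf using fun B hB => lift_mv τ B (hBi B hB)
  have hne : ∀ B ∈ BB, (uv (lf B)).map (Ideal.Quotient.mk (Om τ)) ≠ 0 := by
    intro B hBB h0
    obtain ⟨s, hs⟩ := hB B hBB
    have h1 := congrArg (fun q => q.coeff (s 0)) h0
    simp only [coeff_map, coeff_zero] at h1
    rw [uv_coeff, Ideal.Quotient.eq_zero_iff_mem, mem_Om] at h1
    have h2 : (((lf B).coeff s : O τ) : Qb) = B.coeff s := by
      conv_rhs => rw [← hlf B hBB, MvPolynomial.coeff_map]
      rfl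
    rw [h2, hs] at h1
    exact lt_irrefl _ h1
  choose β hβ using fun m => iter_affine A Bb m
  set P : (k τ)[X] := ∏ B ∈ BB, ∏ m ∈ Finset.range r,
    ((uv (lf B)).map (Ideal.Quotient.mk (Om τ))).comp (C (A ^ m) * X + C (β m)) with hP
  have hP0 : P ≠ 0 := by
    refine Finset.prod_ne_zero_iff.2 fun B hBB => Finset.prod_ne_zero_iff.2 fun m _ h0 => ?_
    rcases comp_eq_zero_iff.1 h0 with h1 | ⟨-, h1⟩
    · exact hne B hBB h1
    · have h2 := congrArg (fun q => q.coeff 1) h1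
      simp only [coeff_add, coeff_C_mul, coeff_X_one, mul_one, coeff_C_succ, add_zero] at h2
      exact pow_ne_zero m hA0 h2
  obtain ⟨tb, htb⟩ : ∃ t, P.eval t ≠ 0 := by
    by_contra hcon
    push Not at hcon
    exact hP0 (Polynomial.funext fun t => by rw [hcon t, eval_zero])
  obtain ⟨t, ht⟩ := Ideal.Quotient.mk_surjective tb
  refine ⟨(t : Qb), t.2, fun y hy => ?_⟩
  have hy1 : ‖τ y‖ ≤ 1 := by
    have e1 : τ y = (τ y - τ t) + τ t := by ring
    rw [e1]
    exact nadd hy.le t.2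
  refine ⟨hy1, fun B hBB m => ?_⟩
  obtain ⟨y', hy'0, hy'1⟩ : ∃ y' : ℕ → O τ, y' 0 = ⟨y, hy1⟩ ∧
      ∀ m, y' (m + 1) = a' * y' m + b' :=
    ⟨fun m => Nat.rec ⟨y, hy1⟩ (fun m y => a' * y + b') m, rfl, fun m => rfl⟩
  have h1 : ∀ m, (y' m).val = (fun y => a * y + b)^[m] y := by
    intro m
    induction m with
    | zero => rw [hy'0]; rfl
    | succ m ih =>
      rw [hy'1, Function.iterate_succ_apply', ← ih]
      rfl
  have h2 : ∀ m, Ideal.Quotient.mk (Om τ) (y' m) = (fun y => A * y + Bb)^[m] tb := by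
    intro m
    induction m with
    | zero =>
      rw [hy'0, Function.iterate_zero_apply, ← ht, Ideal.Quotient.eq, mem_Om]
      show ‖τ (y - t)‖ < 1
      rw [map_sub]; exact hy
    | succ m ih =>
      rw [hy'1, Function.iterate_succ_apply', ← ih, map_add, map_mul]
  have h3 : MvPolynomial.eval ((pm (gl a b))^[m] (fun _ => y)) B =
      (((uv (lf B)).eval (y' m) : O τ) : Qb) := by
    rw [pm_gl_iter, uv_eval, ← h1]
    conv_lhs => rw [← hlf B hBB, MvPolynomial.eval_map]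
    exact (MvPolynomial.eval₂_comp (O τ).subtype (fun _ => y' m) (lf B)).symm
  rw [h3]
  apply norm_eq_one
  rw [← Ideal.Quotient.eq_zero_iff_mem, ← eval_map_apply, h2]
  have h4 : (fun y => A * y + Bb)^[m] tb = (fun y => A * y + Bb)^[m % r] tb := by
    have hpp : Function.IsPeriodicPt (fun y => A * y + Bb) r tb := hper tb
    rw [hpp.iterate_mod_apply]
  rw [h4, hβ]
  rw [hP, eval_prod] at htb
  have h5 := Finset.prod_ne_zero_iff.1 htb B hBB
  rw [eval_prod] at h5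
  have h6 := Finset.prod_ne_zero_iff.1 h5 (m % r) (Finset.mem_range.2 (Nat.mod_lt _ hr0))
  rw [eval_comp, eval_add, eval_mul, eval_C, eval_X, eval_C] at h6
  exact h6

theorem PPB_line (a b : Qb) (ha : a ≠ 0)
    (hinf : ∀ n, 0 < n → ∃ y, (fun y => a * y + b)^[n] y ≠ y) :
    PPB 1 (pm (gl a b)) (fun B => B ≠ 0) := by
  classical
  intro k Z BB hBB
  have hs : ∀ B ∈ BB, ∃ s, B.coeff s ≠ 0 := fun B hB => MvPolynomial.ne_zero_iff.1 (hBB B hB)
  choose! s hs using hs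
  obtain ⟨q, hq, hpl⟩ := exists_places (Z ∪ ({a, a⁻¹, b, (1 - a)⁻¹} ∪
    ((BB.biUnion fun B => B.support.image fun m => B.coeff m) ∪
      BB.image fun B => (B.coeff (s B))⁻¹)))
  choose hp σ hσ using hpl
  set Z' := (Z ∪ ({a, a⁻¹, b, (1 - a)⁻¹} ∪
    ((BB.biUnion fun B => B.support.image fun m => B.coeff m) ∪
      BB.image fun B => (B.coeff (s B))⁻¹))) with hZ'
  have hn : ∀ j, ∀ z ∈ Z', ‖σ j z‖ ≤ 1 := by
    intro j z hz
    obtain ⟨x, hx⟩ := hσ j z hz
    rw [hx, PadicAlgCl.norm_extends]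
    exact x.2
  have hBi : ∀ j, ∀ B ∈ BB, ∀ m ∈ B.support, ‖σ j (B.coeff m)‖ ≤ 1 := fun j B hB m hm => hn j _
    (Finset.mem_union_right _ (Finset.mem_union_right _ (Finset.mem_union_left _
      (Finset.mem_biUnion.2 ⟨B, hB, Finset.mem_image_of_mem _ hm⟩))))
  have hB1 : ∀ j, ∀ B ∈ BB, ∃ m, ‖σ j (B.coeff m)‖ = 1 := fun j B hB => ⟨s B,
    norm_one_of (σ j) (hs B hB) (hBi j B hB _ (MvPolynomial.mem_support_iff.2 (hs B hB)))
      (hn j _ (Finset.mem_union_right _ (Finset.mem_union_right _ (Finset.mem_union_right _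
        (Finset.mem_image_of_mem (fun B => (B.coeff (s B))⁻¹) hB)))))⟩
  have haZ : a ∈ Z' := Finset.mem_union_right _ (Finset.mem_union_left _ (by simp))
  have haZ' : a⁻¹ ∈ Z' := Finset.mem_union_right _ (Finset.mem_union_left _ (by simp))
  have hbZ : b ∈ Z' := Finset.mem_union_right _ (Finset.mem_union_left _ (by simp))
  have h1Z : (1 - a)⁻¹ ∈ Z' := Finset.mem_union_right _ (Finset.mem_union_left _ (by simp))
  choose t ht1 ht2 using fun j => unit_line (σ j) a b ha (hσ j a haZ) (hn j _ haZ') (hn j _ hbZ)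
    BB (hBi j) (hB1 j)
  obtain ⟨y, hy0, hy1⟩ := approx (k := k) (fun j => q j) (fun j => hp j)
    (fun i j hij => Fin.ext (hq hij)) (fun j => σ j) (fun j => if j = 0 then 0 else t j) (by
      intro j
      split_ifs
      · rw [map_zero, norm_zero]; exact zero_le_one
      · exact ht1 j) (if_pos rfl)
  have hnf : a * y + b ≠ y := by
    intro h
    have h1 : (1 - a) * y = b := by linear_combination -h
    rcases eq_or_ne a 1 with rfl | ha1
    · obtain ⟨y', hy'⟩ := hinf 1 one_pos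
      apply hy'
      rw [sub_self, zero_mul] at h1
      rw [Function.iterate_one, ← h1]
      ring
    · have h2 : y = b * (1 - a)⁻¹ := by
        rw [← h1]
        field_simp [sub_ne_zero.2 ha1.symm]
      rw [h2, map_mul] at hy0
      exact absurd hy0 (not_lt.2 (nmul1 (hn _ _ hbZ) (hn _ _ h1Z)))
  have hnear : ∀ j : Fin k, ‖σ (j.succ : Fin (k + 1)) y - σ (j.succ : Fin (k + 1))
      (t (j.succ : Fin (k + 1)))‖ < 1 := by
    intro j
    have := hy1 j.succ (Fin.succ_ne_zero j)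
    simpa [Fin.succ_ne_zero] using this
  have hinvg : ∀ y, pm (gl a⁻¹ (-(a⁻¹ * b))) (pm (gl a b) y) = y := by
    intro y
    rw [pm_gl, pm_gl]
    funext i
    rw [Fin.fin_one_eq_zero i]
    field_simp
    ring
  have hcoef : ∀ (j : ℕ) (u v : Qb), ‖σ j u‖ ≤ 1 → ‖σ j v‖ ≤ 1 → ∀ i, ∀ m ∈ (gl u v i).support,
      ‖σ j ((gl u v i).coeff m)‖ ≤ 1 := by
    intro j u v hu hv i m _
    rw [gl, MvPolynomial.coeff_add, MvPolynomial.coeff_C_mul, MvPolynomial.coeff_X',
      MvPolynomial.coeff_C, map_add]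
    refine nadd ?_ ?_
    · split_ifs
      · rwa [mul_one]
      · rw [mul_zero, map_zero, norm_zero]; exact zero_le_one
    · split_ifs
      · exact hv
      · rw [map_zero, norm_zero]; exact zero_le_one
  refine ⟨fun _ => y, fun j => q (j.succ : Fin (k + 1)), fun j => hp _, fun j => σ _,
    ?_, ?_, ?_, ?_, ?_⟩
  · intro i j hij
    exact Fin.succ_injective _ (Fin.ext (hq hij))
  · intro j z hz
    exact hn _ z (Finset.mem_union_left _ hz)
  · intro j
    refine good_aut (σ _) (gl a b) (gl a⁻¹ (-(a⁻¹ * b))) hinvg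
      (hcoef _ a b (hn _ _ haZ) (hn _ _ hbZ))
      (hcoef _ _ _ (hn _ _ haZ') ?_) _ (fun _ => (ht2 _ y (hnear j)).1)
    rw [map_neg, norm_neg, map_mul]
    exact nmul1 (hn _ _ haZ') (hn _ _ hbZ)
  · exact dense_line a b ha hinf _ hnf
  · intro j B hB m
    exact (ht2 _ y (hnear j)).2 B hB m

end Pool.Agent.H78.Zd
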