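import Pool.Agent.H78.Zd.H2
import Pool.Graph.R_seed8.Results.MP_ccfdad_ag.TriangularStrong

/-!
# Triangular maps
-/

set_option autoImplicit false

namespace Pool.Agent.H78.Zd

open Polynomial Filter Topology

/-- towers over an affine map of infinite order of the line -/
theorem tower_line (a b : Qb) (ha : a ≠ 0)
    (hinf : ∀ n, 0 < n → ∃ y, (fun y => a * y + b)^[n] y ≠ y)
    (N : ℕ) (f : Fin (1 + N) → MvPolynomial (Fin (1 + N)) Qb)
    (hb : ∀ j : Fin 1, f (j.addNat N) = MvPolynomial.rename (fun i : Fin 1 => i.addNat N) (gl a b j))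
    (hf : ∀ i : Fin (1 + N), (i : ℕ) < N → ∃ (c G : MvPolynomial (Fin (1 + N)) Qb) (d : ℕ),
      f i = c * MvPolynomial.X i ^ d + G ∧ 2 ≤ d ∧ c ≠ 0 ∧
      (∀ j, j ≤ i → c.degreeOf j = 0) ∧ G.degreeOf i < d ∧ (∀ j, j < i → G.degreeOf j = 0)) :
    ∃ x, Dense (fun m => (pm f)^[m] x) := by
  have h := PPB_tower (gl a b) (fun N B => B ≠ 0) (fun N h => h rfl) (fun N B hB => by
    refine ⟨(MvPolynomial.finSuccEquiv Qb (1 + N) B).natDegree, ?_⟩
    have h1 : MvPolynomial.finSuccEquiv Qb (1 + N) B ≠ 0 := by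
      intro h0
      exact hB ((map_eq_zero_iff _ (MvPolynomial.finSuccEquiv Qb (1 + N)).injective).1 h0)
    exact leadingCoeff_ne_zero.2 h1) (PPB_line a b ha hinf) N f hb hf
  obtain ⟨x, -, -, -, -, -, -, hx, -⟩ := h 0 ∅ ∅ (by simp)
  exact ⟨x, hx⟩

theorem decomp2 {n : ℕ} (F : MvPolynomial (Fin n) Qb) (i : Fin n)
    (htri : ∀ j, j < i → F.degreeOf j = 0) (hd : 2 ≤ F.degreeOf i) :
    ∃ (c G : MvPolynomial (Fin n) Qb) (d : ℕ),
      F = c * MvPolynomial.X i ^ d + G ∧ 2 ≤ d ∧ c ≠ 0 ∧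
      (∀ j, j ≤ i → c.degreeOf j = 0) ∧ G.degreeOf i < d ∧ (∀ j, j < i → G.degreeOf j = 0) := by
  classical
  have hF0 : F ≠ 0 := by
    rintro rfl
    rw [MvPolynomial.degreeOf_zero] at hd
    omega
  obtain ⟨c, h1, h2, h3⟩ := Pool.Agent.TH61.TRI.decomp F i hF0
  have hc : ∀ k j, j ≤ i → (c k).degreeOf j = 0 := by
    intro k j hj
    by_contra hne
    rw [← ne_eq, ← MvPolynomial.mem_vars_iff_degreeOf_ne_zero] at hne
    obtain ⟨h4, h5⟩ := h2 k j hne
    rw [MvPolynomial.mem_vars_iff_degreeOf_ne_zero] at h4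
    exact h4 (htri j (lt_of_le_of_ne hj h5))
  set d := F.degreeOf i with hdd
  have hle : ∀ j, ((∑ k ∈ Finset.range d, c k * MvPolynomial.X i ^ k :
      MvPolynomial (Fin n) Qb)).degreeOf j ≤
      (Finset.range d).sup fun k => (c k * MvPolynomial.X i ^ k).degreeOf j :=
    fun j => MvPolynomial.degreeOf_sum_le _ _ _
  refine ⟨c d, ∑ k ∈ Finset.range d, c k * MvPolynomial.X i ^ k, d, ?_, hd, h3, hc d, ?_, ?_⟩
  · conv_lhs => rw [h1, Finset.sum_range_succ, add_comm]
  · refine lt_of_le_of_lt (hle i) ?_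
    rw [Finset.sup_lt_iff (by rw [Nat.bot_eq_zero]; omega)]
    intro k hk
    refine lt_of_le_of_lt (MvPolynomial.degreeOf_mul_le _ _ _) ?_
    rw [hc k i le_rfl, zero_add]
    refine lt_of_le_of_lt (MvPolynomial.degreeOf_pow_le _ _ _) ?_
    rw [MvPolynomial.degreeOf_X, if_pos rfl, mul_one]
    exact Finset.mem_range.1 hk
  · intro j hj
    refine Nat.le_zero.1 ((hle j).trans (Finset.sup_le fun k _ => ?_))
    refine (MvPolynomial.degreeOf_mul_le _ _ _).trans ?_
    rw [hc k j hj.le, zero_add]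
    refine (MvPolynomial.degreeOf_pow_le _ _ _).trans ?_
    rw [MvPolynomial.degreeOf_X, if_neg hj.ne, mul_zero]

theorem vars_dense (n : ℕ) (f : Fin n → MvPolynomial (Fin n) Qb)
    (htri : ∀ i j, j < i → (f i).degreeOf j = 0) (hdeg : ∀ i, 2 ≤ (f i).degreeOf i) :
    ∃ x, Dense (fun m => (pm f)^[m] x) :=
  Pool.Agent.Results.MP_ccfdad_ag.TriangularStrong.dense n f (fun i j hj => by
    by_contra hlt
    push Not at hlt
    rw [MvPolynomial.mem_vars_iff_degreeOf_ne_zero] at hj
    exact hj (htri i j hlt)) hdeg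

/-- a polynomial of degree one in the last variable only -/
theorem last_linear {N : ℕ} (F : MvPolynomial (Fin (1 + N)) Qb) (i : Fin (1 + N))
    (hi : (i : ℕ) = N) (htri : ∀ j, j < i → F.degreeOf j = 0) (h1 : F.degreeOf i = 1) :
    ∃ a b : Qb, a ≠ 0 ∧ F = MvPolynomial.C a * MvPolynomial.X i + MvPolynomial.C b := by
  have hF0 : F ≠ 0 := by
    rintro rfl
    rw [MvPolynomial.degreeOf_zero] at h1
    omega
  obtain ⟨c, h2, h3, h4⟩ := Pool.Agent.TH61.TRI.decomp F i hF0
  have hcC : ∀ k, c k = MvPolynomial.C ((c k).coeff 0) := by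
    intro k
    rw [← MvPolynomial.vars_eq_empty_iff_eq_C, Finset.eq_empty_iff_forall_notMem]
    intro j hj
    obtain ⟨h5, h6⟩ := h3 k j hj
    rw [MvPolynomial.mem_vars_iff_degreeOf_ne_zero] at h5
    have h7 : j < i := by
      refine lt_of_le_of_ne ?_ h6
      rw [Fin.le_def, hi]
      have := j.2
      omega
    exact h5 (htri j h7)
  rw [h1] at h2 h4
  refine ⟨(c 1).coeff 0, (c 0).coeff 0, ?_, ?_⟩
  · intro h0
    apply h4
    rw [hcC 1, h0, map_zero]
  · conv_lhs => rw [h2]
    rw [Finset.sum_range_succ, Finset.sum_range_succ, Finset.sum_range_zero, zero_add, pow_zero,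
      mul_one, pow_one, ← hcC 1, ← hcC 0]
    exact add_comm (c 0) (c 1 * MvPolynomial.X i)

/-- an invariant polynomial in the variable `X i` -/
theorem inv_of_finite_order {n : ℕ} (f : Fin n → MvPolynomial (Fin n) Qb) (i : Fin n) (a b : Qb)
    (ha : a ≠ 0) (hfi : f i = MvPolynomial.C a * MvPolynomial.X i + MvPolynomial.C b) (r : ℕ)
    (hr : 0 < r) (hord : ∀ y, (fun y => a * y + b)^[r] y = y) :
    ∃ h : MvPolynomial (Fin n) Qb, (∀ c, h ≠ MvPolynomial.C c) ∧ MvPolynomial.aeval f h = h := by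
  classical
  choose β hβ using fun m => iter_affine a b m
  have hinf : Infinite Qb := IsAlgClosed.instInfinite
  -- the product of the iterates
  set P : Polynomial Qb := ∏ m ∈ Finset.range r, (C (a ^ m) * X + C (β m)) with hP
  have hPe : ∀ y, P.eval y = ∏ m ∈ Finset.range r, (fun y => a * y + b)^[m] y := by
    intro y
    rw [hP, eval_prod]
    refine Finset.prod_congr rfl fun m _ => ?_
    rw [hβ, eval_add, eval_mul, eval_C, eval_X, eval_C]
  have hPd : P.natDegree = r := by
    rw [hP, natDegree_prod]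
    · rw [Finset.sum_congr rfl (g := fun _ => 1) fun m _ => natDegree_linear (pow_ne_zero m ha)]
      simp
    · intro m _ h0
      have := congrArg natDegree h0
      rw [natDegree_linear (pow_ne_zero m ha), natDegree_zero] at this
      exact one_ne_zero this
  have hPinv : P.comp (C a * X + C b) = P := by
    apply Polynomial.funext
    intro y
    rw [eval_comp, hPe, hPe, eval_add, eval_mul, eval_C, eval_X, eval_C]
    have e1 : ∀ m, (fun y => a * y + b)^[m] (a * y + b) = (fun y => a * y + b)^[m + 1] y := by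
      intro m
      rw [Function.iterate_succ_apply]
    simp only [e1]
    obtain ⟨r', rfl⟩ := Nat.exists_eq_succ_of_ne_zero hr.ne'
    rw [Finset.prod_range_succ, Finset.prod_range_succ']
    have h1 := hord y
    rw [Nat.succ_eq_add_one] at h1
    rw [h1, Function.iterate_zero_apply]
  refine ⟨Polynomial.aeval (MvPolynomial.X i) P, ?_, ?_⟩
  · intro c hc
    have h1 : ∀ y, P.eval y = c := by
      intro y
      have h2 := congrArg (MvPolynomial.eval (fun _ => y)) hc
      rw [MvPolynomial.eval_C] at h2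
      rw [← h2]
      have h3 : (MvPolynomial.eval (fun _ : Fin n => y)) (Polynomial.aeval (MvPolynomial.X i) P) =
          Polynomial.eval₂ (RingHom.id Qb) y P := by
        rw [Polynomial.aeval_def, Polynomial.hom_eval₂, MvPolynomial.eval_X]
        congr 1
        ext z
        simp
      rw [h3]
      rfl
    have h4 : P = C c := Polynomial.funext fun y => by rw [h1, eval_C]
    rw [h4, natDegree_C] at hPd
    omega
  · rw [← Polynomial.aeval_algHom_apply, MvPolynomial.aeval_X, hfi]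
    conv_rhs => rw [← hPinv]
    rw [Polynomial.aeval_comp]
    congr 1
    simp [Polynomial.aeval_def]

end Pool.Agent.H78.Zd
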