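import Pool.Agent.H78.Zd.F2

/-!
# Invariant sections of skew linear maps of fibre dimension one
-/

set_option autoImplicit false

namespace Pool.Agent.H78.Zd

open Polynomial

section
variable {A : Type} [CommRing A] [IsDomain A] [CharZero A]

/-- the pullback by `(x, z) ↦ (a (z) x + b (z), T z)` -/
noncomputable def fs (φ : A →+* A) (a b : A) : A[X] →+* A[X] :=
  eval₂RingHom (C.comp φ) (C a * X + C b)

omit [IsDomain A] [CharZero A] in
theorem fs_C (φ : A →+* A) (a b c : A) : fs φ a b (C c) = C (φ c) := by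
  simp [fs]

omit [IsDomain A] [CharZero A] in
theorem fs_X (φ : A →+* A) (a b : A) : fs φ a b X = C a * X + C b := by
  simp [fs]

omit [IsDomain A] [CharZero A] in
theorem fs_eq (φ : A →+* A) (a b : A) (Q : A[X]) :
    fs φ a b Q = (Q.map φ).comp (C a * X + C b) := by
  rw [fs, coe_eval₂RingHom, comp, eval₂_map]

omit [IsDomain A] [CharZero A] in
theorem fs_deriv (φ : A →+* A) (a b : A) (Q : A[X]) :
    derivative (fs φ a b Q) = C a * fs φ a b (derivative Q) := by
  rw [fs_eq, fs_eq, derivative_comp, derivative_map]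
  simp

omit [IsDomain A] [CharZero A] in
theorem fs_deriv_iter (φ : A →+* A) (a b : A) (j : ℕ) : ∀ Q : A[X],
    derivative^[j] (fs φ a b Q) = C (a ^ j) * fs φ a b (derivative^[j] Q) := by
  induction j with
  | zero => intro Q; simp
  | succ j ih =>
    intro Q
    rw [Function.iterate_succ_apply, fs_deriv, Function.iterate_succ_apply,
      Polynomial.iterate_derivative_C_mul, ih, ← mul_assoc, ← C_mul, pow_succ']

theorem semi_main (φ : A →+* A) (hφ : Function.Injective φ) (a b : A) (ha : a ≠ 0)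
    (V : Ideal A[X]) (hV : ∀ Q ∈ V, fs φ a b Q ∈ V) (hVC : ∀ c : A, C c ∈ V → c = 0)
    (hrad : ∀ (c : A) (W : A[X]) (r : ℕ), 0 < r → C c * W ^ r ∈ V → C c * W ∈ V)
    (hne : V ≠ ⊥)
    (hinv : ∀ p q : A[X], q ≠ 0 → fs φ a b p * q = fs φ a b q * p → ∃ c : A, p = C c * q ) :
    ∃ D E : A, D ≠ 0 ∧ C D * X - C E ∈ V ∧ φ E * D = φ D * (a * E + b * D) := by
  classical
  -- an element of minimal degree
  have hex : ∃ d, ∃ Q ∈ V, Q ≠ 0 ∧ Q.natDegree = d := by
    obtain ⟨Q, hQ, hQ0⟩ := Submodule.exists_mem_ne_zero_of_ne_bot hne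
    exact ⟨_, Q, hQ, hQ0, rfl⟩
  obtain ⟨Q, hQV, hQ0, hQd⟩ := Nat.find_spec hex
  have hmin : ∀ Q' ∈ V, Q' ≠ 0 → Q.natDegree ≤ Q'.natDegree := by
    intro Q' h1 h2
    rw [hQd]
    exact Nat.find_min' hex ⟨Q', h1, h2, rfl⟩
  clear hQd
  set r := Q.natDegree with hr
  set q := Q.leadingCoeff with hq
  have hq0 : q ≠ 0 := leadingCoeff_ne_zero.2 hQ0
  have hr0 : 0 < r := by
    by_contra h0
    have h1 : r = 0 := by omega
    have h2 : Q = C (Q.coeff 0) := eq_C_of_natDegree_eq_zero h1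
    have h3 := hVC (Q.coeff 0) (h2 ▸ hQV)
    rw [h3, C_0] at h2
    exact hQ0 h2
  have hL : (C a * X + C b).natDegree = 1 := natDegree_linear ha
  have hLl : (C a * X + C b).leadingCoeff = a := leadingCoeff_linear ha
  have hfd : (fs φ a b Q).natDegree = r := by
    rw [fs_eq, natDegree_comp, hL, mul_one, natDegree_map_eq_of_injective hφ]
  have hfl : (fs φ a b Q).coeff r = φ q * a ^ r := by
    have h1 : (fs φ a b Q).leadingCoeff = φ q * a ^ r := by
      rw [fs_eq, leadingCoeff_comp (by rw [hL]; exact one_ne_zero), hLl,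
        natDegree_map_eq_of_injective hφ, leadingCoeff_map_of_injective hφ]
    rw [← h1, leadingCoeff, hfd]
  have hstar : C q * fs φ a b Q = C (φ q * a ^ r) * Q := by
    by_contra hcon
    have h1 : C q * fs φ a b Q - C (φ q * a ^ r) * Q ≠ 0 := sub_ne_zero.2 hcon
    have h2 := hmin _ (V.sub_mem (V.mul_mem_left _ (hV Q hQV)) (V.mul_mem_left _ hQV)) h1
    have h3 : (C q * fs φ a b Q - C (φ q * a ^ r) * Q).natDegree ≤ r := by
      refine (natDegree_sub_le _ _).trans (max_le ?_ ?_)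
      · exact (natDegree_C_mul_le _ _).trans hfd.le
      · exact natDegree_C_mul_le _ _
    have h4 : (C q * fs φ a b Q - C (φ q * a ^ r) * Q).coeff r = 0 := by
      rw [coeff_sub, coeff_C_mul, coeff_C_mul, hfl]
      have : Q.coeff r = q := rfl
      rw [this]; ring
    have h5 : (C q * fs φ a b Q - C (φ q * a ^ r) * Q).natDegree = r := le_antisymm h3 h2
    refine h1 (leadingCoeff_eq_zero.1 ?_)
    rw [leadingCoeff, h5]
    exact h4
  -- the linear polynomial
  set Λ := derivative^[r - 1] Q with hΛ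
  have hΛd : Λ.natDegree ≤ 1 := by
    refine (natDegree_iterate_derivative Q (r - 1)).trans ?_
    omega
  have hu0 : Λ.coeff 1 ≠ 0 := by
    rw [hΛ, coeff_iterate_derivative]
    have e1 : 1 + (r - 1) = r := by omega
    rw [e1]
    have : Q.coeff r = q := rfl
    rw [this, nsmul_eq_mul]
    refine mul_ne_zero ?_ hq0
    rw [Nat.cast_ne_zero, Ne, Nat.descFactorial_eq_zero_iff_lt]
    omega
  set u := Λ.coeff 1 with hu
  set v := Λ.coeff 0 with hv
  have hΛe : Λ = C u * X + C v := eq_X_add_C_of_natDegree_le_one hΛd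
  have hΛs : C q * fs φ a b Λ = C (φ q * a) * Λ := by
    have h1 := congrArg (fun P => derivative^[r - 1] P) hstar
    simp only [Polynomial.iterate_derivative_C_mul, fs_deriv_iter] at h1
    have h2 : C (a ^ (r - 1)) * (C q * fs φ a b Λ) = C (a ^ (r - 1)) * (C (φ q * a) * Λ) := by
      have e1 : a ^ r = a ^ (r - 1) * a := by rw [← pow_succ]; congr 1; omega
      rw [e1] at h1
      rw [← hΛ] at h1
      simp only [C_mul] at h1 ⊢
      linear_combination h1
    exact mul_left_cancel₀ (C_ne_zero.2 (pow_ne_zero _ ha)) h2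
  have hfΛ : fs φ a b Λ = C (φ u) * (C a * X + C b) + C (φ v) := by
    conv_lhs => rw [hΛe]
    rw [map_add, map_mul, fs_C, fs_C, fs_X]
  have hc1 : q * φ u = φ q * u := by
    have h1 := congrArg (fun P => P.coeff 1) hΛs
    simp only [hfΛ, coeff_C_mul, coeff_add, coeff_C_succ, add_zero, coeff_X_one, mul_one] at h1
    have h2 : a * (q * φ u) = a * (φ q * u) := by linear_combination h1
    exact mul_left_cancel₀ ha h2
  have hc0 : q * (φ u * b + φ v) = φ q * a * v := by
    have h1 := congrArg (fun P => P.coeff 0) hΛs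
    simp only [hfΛ, coeff_C_mul, coeff_add, coeff_C_zero, coeff_X_zero, mul_zero, zero_add] at h1
    exact h1
  have hS : φ (-v) * u = φ u * (a * (-v) + b * u) := by
    rw [map_neg]
    apply mul_left_cancel₀ hq0
    linear_combination (-u) * hc0 + (a * v) * hc1
  have hΛs' : C u * fs φ a b Λ = C (φ u * a) * Λ := by
    apply mul_left_cancel₀ (C_ne_zero.2 hq0)
    have h1 : (C q : A[X]) * C (φ u) = C (φ q) * C u := by rw [← C_mul, ← C_mul, hc1]
    simp only [C_mul] at hΛs ⊢
    linear_combination (C u) * hΛs - (C a * Λ) * h1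
  -- the invariant function
  obtain ⟨c, hc⟩ := hinv (C q * Λ ^ r) (C (u ^ r) * Q) (mul_ne_zero (C_ne_zero.2
    (pow_ne_zero _ hu0)) hQ0) (by
      have e1 : fs φ a b (C q * Λ ^ r) = C (φ q) * fs φ a b Λ ^ r := by
        rw [map_mul, fs_C, map_pow]
      have e2 : fs φ a b (C (u ^ r) * Q) = C (φ u ^ r) * fs φ a b Q := by
        rw [map_mul, fs_C, map_pow φ]
      rw [e1, e2]
      apply mul_left_cancel₀ (mul_ne_zero (C_ne_zero.2 (pow_ne_zero r hu0)) (C_ne_zero.2 hq0))
      have h1 : C (u ^ r) * fs φ a b Λ ^ r = C (φ u ^ r * a ^ r) * Λ ^ r := by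
        rw [C_pow, ← mul_pow, hΛs', mul_pow, ← C_pow, mul_pow]
      have h2 : C (u ^ r) * C q * (C (φ q) * fs φ a b Λ ^ r * (C (u ^ r) * Q)) =
          C q * C (φ q) * (C (φ u ^ r * a ^ r) * Λ ^ r) * (C (u ^ r) * Q) := by
        rw [← h1]; ring
      have h3 : C (u ^ r) * C q * (C (φ u ^ r) * fs φ a b Q * (C q * Λ ^ r)) =
          C (u ^ r) * C (φ u ^ r) * (C (φ q * a ^ r) * Q) * (C q * Λ ^ r) := by
        rw [← hstar]; ring
      rw [h2, h3]
      simp only [C_mul]
      ring)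
  have hc1' : c = 1 := by
    have h1 := congrArg (fun P => P.coeff r) hc
    have h2 : (Λ ^ r).coeff r = u ^ r := by
      have := coeff_pow_of_natDegree_le (m := r) hΛd
      rw [mul_one] at this
      exact this
    simp only [coeff_C_mul] at h1
    rw [h2] at h1
    have : Q.coeff r = q := rfl
    rw [this] at h1
    have h3 : (c - 1) * (u ^ r * q) = 0 := by linear_combination -h1
    rcases mul_eq_zero.1 h3 with h | h
    · exact sub_eq_zero.1 h
    · exact absurd h (mul_ne_zero (pow_ne_zero _ hu0) hq0)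
  rw [hc1', C_1, one_mul] at hc
  have h1 : C q * Λ ∈ V := hrad q Λ r hr0 (by rw [hc]; exact V.mul_mem_left _ hQV)
  have hΛ0 : Λ ≠ 0 := by
    intro h0
    rw [hu, h0, coeff_zero] at hu0
    exact hu0 rfl
  have h2 := hmin _ h1 (mul_ne_zero (C_ne_zero.2 hq0) hΛ0)
  have h3 : r = 1 := by
    have := (natDegree_C_mul_le q Λ).trans hΛd
    omega
  have h4 : Λ = Q := by rw [hΛ, h3]; rfl
  refine ⟨u, -v, hu0, ?_, hS⟩
  rw [C_neg, sub_neg_eq_add, ← hΛe, h4]
  exact hQV

end

end Pool.Agent.H78.Zd
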