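import Pool.Agent.H78.Zd.L9

/-!
# Commensurable maps
-/

set_option autoImplicit false

namespace Pool.Agent.H78.Zd

open Polynomial

section
variable {n : ℕ}

/-- the conjecture for `f` -/
def Cj (f : Fin n → RR n) : Prop :=
  Function.Injective (MvPolynomial.aeval f : RR n →ₐ[Qb] RR n) →
  (∀ P Q : RR n, Q ≠ 0 → MvPolynomial.aeval f P * Q = MvPolynomial.aeval f Q * P →
    ∃ c : Qb, P = MvPolynomial.C c * Q) → ∃ x, Dense (fun m => (pm f)^[m] x)

theorem cj_tri (f : Fin n → RR n) (htri : ∀ i j, j < i → (f i).degreeOf j = 0) : Cj f := by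
  intro hf hinv
  obtain ⟨x, -, -, -, -, -, -, hx, -⟩ := tri_all n f htri hf hinv 0 ∅ ∅ (by simp)
  exact ⟨x, hx⟩

theorem dense_pow (F : Fin n → RR n) (x : Fin n → Qb) (hx : Dense (fun m => (pm F)^[m] x)) (l : ℕ)
    (hl : 0 < l) : ∃ i, Dense (fun m => (pm F)^[l * m + i] x) := by
  classical
  by_contra hcon
  push Not at hcon
  have h1 : ∀ i, ∃ R : RR n, (∀ m, MvPolynomial.eval ((pm F)^[l * m + i] x) R = 0) ∧ R ≠ 0 := by
    intro i
    have := hcon i
    unfold Dense at this
    push Not at this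
    exact this
  choose R hR1 hR2 using h1
  have h2 : ∏ i ∈ Finset.range l, R i = 0 := by
    apply hx
    intro m
    rw [map_prod]
    refine Finset.prod_eq_zero (Finset.mem_range.2 (Nat.mod_lt m hl)) ?_
    have := hR1 (m % l) (m / l)
    rwa [Nat.div_add_mod] at this
  exact Finset.prod_ne_zero_iff.2 (fun i _ => hR2 i) h2

theorem iter_zero' (f : Fin n → RR n) (k : ℕ) :
    (MvPolynomial.aeval f : RR n →ₐ[Qb] RR n)^[k] 0 = 0 := by
  induction k with
  | zero => rfl
  | succ k ih => rw [Function.iterate_succ_apply, map_zero, ih]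

theorem cj_quot (f F π : Fin n → RR n) (k l : ℕ) (hk : 0 < k) (hl : 0 < l)
    (hπ : Function.Injective (MvPolynomial.aeval π : RR n →ₐ[Qb] RR n))
    (hsemi : ∀ y : Fin n → Qb, pm π ((pm F)^[l] y) = (pm f)^[k] (pm π y)) (hcj : Cj F) :
    Cj f := by
  classical
  intro hf hinv
  have hinf : Infinite Qb := IsAlgClosed.instInfinite
  have hpoly : ∀ P : RR n, (MvPolynomial.aeval F : RR n →ₐ[Qb] RR n)^[l]
      (MvPolynomial.aeval π P) =
      MvPolynomial.aeval π ((MvPolynomial.aeval f : RR n →ₐ[Qb] RR n)^[k] P) := by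
    intro P
    apply MvPolynomial.funext
    intro y
    rw [eval_iter, eval_aeval', eval_aeval', eval_iter, hsemi]
  have hF : Function.Injective (MvPolynomial.aeval F : RR n →ₐ[Qb] RR n) := by
    rw [injective_iff_map_eq_zero]
    intro R₀ hR₀
    by_contra hne
    obtain ⟨q, hq0, hq⟩ := alg_min π hπ R₀ hne
    apply hq0
    have h1 := congrArg ((MvPolynomial.aeval F : RR n →ₐ[Qb] RR n).toRingHom ^ l : RR n →+* RR n) hq
    rw [hom_eval₂, map_zero] at h1
    have h2 : ((MvPolynomial.aeval F : RR n →ₐ[Qb] RR n).toRingHom ^ l : RR n →+* RR n) R₀ = 0 := by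
      rw [RingHom.coe_pow]
      obtain ⟨l', rfl⟩ := Nat.exists_eq_succ_of_ne_zero hl.ne'
      rw [Nat.succ_eq_add_one, Function.iterate_succ_apply]
      show (MvPolynomial.aeval F : RR n →ₐ[Qb] RR n)^[l'] (MvPolynomial.aeval F R₀) = 0
      rw [hR₀, iter_zero']
    rw [h2, eval₂_at_zero, RingHom.comp_apply, RingHom.coe_pow] at h1
    have h3 : (MvPolynomial.aeval F : RR n →ₐ[Qb] RR n)^[l]
      (MvPolynomial.aeval π (q.coeff 0)) = 0 := h1
    rw [hpoly] at h3
    exact zero_iter f hf k _ ((map_eq_zero_iff _ hπ).1 h3)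
  have hcomm : ∀ x : KK n, (sg F hF ^ l : KK n →+* KK n) (sg π hπ x) =
      sg π hπ ((sg f hf ^ k : KK n →+* KK n) x) := by
    have h1 : (sg F hF ^ l : KK n →+* KK n).comp (sg π hπ) =
        (sg π hπ).comp (sg f hf ^ k : KK n →+* KK n) := by
      apply IsLocalization.ringHom_ext (nonZeroDivisors (RR n))
      apply RingHom.ext
      intro P
      show (sg F hF ^ l : KK n →+* KK n) (sg π hπ (algebraMap (RR n) (KK n) P)) =
        sg π hπ ((sg f hf ^ k : KK n →+* KK n) (algebraMap (RR n) (KK n) P))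
      rw [RingHom.coe_pow, RingHom.coe_pow, sg_iter, sg_alg, sg_alg, sg_iter, hpoly]
    exact fun x => congrArg (fun ψ => ψ x) h1
  have hFinv : ∀ P Q : RR n, Q ≠ 0 →
      MvPolynomial.aeval F P * Q = MvPolynomial.aeval F Q * P →
      ∃ c : Qb, P = MvPolynomial.C c * Q := by
    intro P Q hQ hPQ
    refine field_inv F hF (fun y hy => ?_) P Q hQ hPQ
    refine inv_quot (sg f hf ^ k : KK n →+* KK n) (sg F hF ^ l : KK n →+* KK n) (sg π hπ)
      (sg_C π hπ) hcomm ?_ y ?_ (alg_frac π hπ y)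
    · intro x hx
      rw [RingHom.coe_pow] at hx
      exact inv_iter (sg f hf) (inv_field f hf hinv) k hk x hx
    · rw [RingHom.coe_pow]
      exact Function.iterate_fixed hy l
  obtain ⟨x₀, hx₀⟩ := hcj hF hFinv
  obtain ⟨i, hi⟩ := dense_pow F x₀ hx₀ l hl
  refine ⟨pm π ((pm F)^[i] x₀), fun h hh => ?_⟩
  have h1 : ∀ m, pm π ((pm F)^[l * m] ((pm F)^[i] x₀)) =
      (pm f)^[k * m] (pm π ((pm F)^[i] x₀)) := by
    intro m
    induction m with
    | zero => rfl
    | succ m ih =>
      have e1 : l * (m + 1) = l + l * m := by ring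
      have e2 : k * (m + 1) = k + k * m := by ring
      rw [e1, e2, Function.iterate_add_apply (pm F), hsemi, ih,
        ← Function.iterate_add_apply (pm f)]
  have h2 : MvPolynomial.aeval π h = 0 := by
    apply hi
    intro m
    show MvPolynomial.eval ((pm F)^[l * m + i] x₀) (MvPolynomial.aeval π h) = 0
    rw [eval_aeval', Function.iterate_add_apply, h1]
    exact hh (k * m)
  exact (map_eq_zero_iff _ hπ).1 h2

theorem cj_cover (f F π : Fin n → RR n) (k l : ℕ) (hk : 0 < k) (hl : 0 < l)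
    (hπ : Function.Injective (MvPolynomial.aeval π : RR n →ₐ[Qb] RR n))
    (hsemi : ∀ y : Fin n → Qb, pm π ((pm f)^[k] y) = (pm F)^[l] (pm π y)) (hcj : Cj F) :
    Cj f := by
  classical
  intro hf hinv
  have hinf : Infinite Qb := IsAlgClosed.instInfinite
  have hpoly : ∀ P : RR n, (MvPolynomial.aeval f : RR n →ₐ[Qb] RR n)^[k]
      (MvPolynomial.aeval π P) =
      MvPolynomial.aeval π ((MvPolynomial.aeval F : RR n →ₐ[Qb] RR n)^[l] P) := by
    intro P
    apply MvPolynomial.funext
    intro y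
    rw [eval_iter, eval_aeval', eval_aeval', eval_iter, hsemi]
  have hF : Function.Injective (MvPolynomial.aeval F : RR n →ₐ[Qb] RR n) := by
    rw [injective_iff_map_eq_zero]
    intro P hP
    have h1 := hpoly P
    have h2 : (MvPolynomial.aeval F : RR n →ₐ[Qb] RR n)^[l] P = 0 := by
      obtain ⟨l', rfl⟩ := Nat.exists_eq_succ_of_ne_zero hl.ne'
      rw [Nat.succ_eq_add_one, Function.iterate_succ_apply, hP, iter_zero']
    rw [h2, map_zero] at h1
    exact (map_eq_zero_iff _ hπ).1 (zero_iter f hf k _ h1)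
  have hFinv : ∀ P Q : RR n, Q ≠ 0 →
      MvPolynomial.aeval F P * Q = MvPolynomial.aeval F Q * P →
      ∃ c : Qb, P = MvPolynomial.C c * Q := by
    intro P Q hQ hPQ
    refine field_inv F hF (fun y hy => ?_) P Q hQ hPQ
    -- `y` is invariant, so its pullback is constant
    have hcomm : (sg f hf ^ k : KK n →+* KK n).comp (sg π hπ) =
        (sg π hπ).comp (sg F hF ^ l : KK n →+* KK n) := by
      apply IsLocalization.ringHom_ext (nonZeroDivisors (RR n))
      apply RingHom.ext
      intro P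
      show (sg f hf ^ k : KK n →+* KK n) (sg π hπ (algebraMap (RR n) (KK n) P)) =
        sg π hπ ((sg F hF ^ l : KK n →+* KK n) (algebraMap (RR n) (KK n) P))
      rw [RingHom.coe_pow, RingHom.coe_pow, sg_iter, sg_alg, sg_alg, sg_iter, hpoly]
    have h1 : (sg f hf)^[k] (sg π hπ y) = sg π hπ y := by
      have h2 := congrArg (fun ψ => ψ y) hcomm
      simp only [RingHom.comp_apply, RingHom.coe_pow] at h2
      rw [h2, Function.iterate_fixed hy l]
    obtain ⟨c, hc⟩ := inv_iter (sg f hf) (inv_field f hf hinv) k hk _ h1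
    refine ⟨c, (sg π hπ).injective ?_⟩
    rw [sg_C, hc]
  obtain ⟨Q₀', hQ₀'⟩ := hcj hF hFinv
  obtain ⟨i, hi⟩ := dense_pow F Q₀' hQ₀' l hl
  obtain ⟨s, hs0, hs⟩ := lift_point π hπ
  obtain ⟨m, hm⟩ : ∃ m, MvPolynomial.eval ((pm F)^[l * m + i] Q₀') s ≠ 0 := by
    by_contra hcon
    push Not at hcon
    exact hs0 (hi s hcon)
  obtain ⟨P, hP⟩ := hs _ hm
  refine ⟨P, fun h hh => ?_⟩
  by_contra hne
  obtain ⟨q, hq0, hq⟩ := alg_min π hπ h hne
  apply hq0
  have h1 : ∀ j, pm π ((pm f)^[k * j] P) = (pm F)^[l * j + (l * m + i)] Q₀' := by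
    intro j
    induction j with
    | zero =>
      rw [mul_zero, mul_zero, zero_add]
      exact hP
    | succ j ih =>
      have e1 : k * (j + 1) = k + k * j := by ring
      have e2 : l * (j + 1) + (l * m + i) = l + (l * j + (l * m + i)) := by ring
      rw [e1, Function.iterate_add_apply (pm f), hsemi, ih, e2, Function.iterate_add_apply (pm F) l]
  have h2 : ∀ j, MvPolynomial.eval ((pm F)^[l * j + (l * m + i)] Q₀') (q.coeff 0) = 0 := by
    intro j
    rw [← h1, ← eval_aeval']
    have h3 := congrArg (MvPolynomial.eval ((pm f)^[k * j] P)) hq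
    rw [hom_eval₂, map_zero, hh (k * j), eval₂_at_zero] at h3
    exact h3
  have h4 : (MvPolynomial.aeval F : RR n →ₐ[Qb] RR n)^[l * m] (q.coeff 0) = 0 := by
    apply hi
    intro j
    show MvPolynomial.eval ((pm F)^[l * j + i] Q₀') _ = 0
    rw [eval_iter, ← Function.iterate_add_apply]
    have e3 : l * m + (l * j + i) = l * j + (l * m + i) := by ring
    rw [e3]
    exact h2 j
  exact zero_iter F hF _ _ h4

end

end Pool.Agent.H78.Zd
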