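import Pool.Agent.H78.Zd.L10

/-!
# Rational semiconjugacies
-/

set_option autoImplicit false

namespace Pool.Agent.H78.Zd

open Polynomial

section
variable {n : ℕ}

/-- the rational map `a / b` -/
noncomputable def rp (a : Fin n → RR n) (b : RR n) (y : Fin n → Qb) : Fin n → Qb :=
  fun i => MvPolynomial.eval y (a i) / MvPolynomial.eval y b

/-- the rational functions `a i / b` -/
noncomputable def rq (a : Fin n → RR n) (b : RR n) : Fin n → KK n :=
  fun i => algebraMap (RR n) (KK n) (a i) / algebraMap (RR n) (KK n) b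

theorem am_ne {b : RR n} (hb : b ≠ 0) : algebraMap (RR n) (KK n) b ≠ 0 :=
  (map_ne_zero_iff _ (IsFractionRing.injective (RR n) (KK n))).2 hb

theorem clear_den (a : Fin n → RR n) (b : RR n) (hb : b ≠ 0) (g : RR n) :
    ∃ (D : ℕ) (H : RR n),
      MvPolynomial.aeval (rq a b) g * algebraMap (RR n) (KK n) b ^ D =
        algebraMap (RR n) (KK n) H ∧
      ∀ y, MvPolynomial.eval y b ≠ 0 → MvPolynomial.eval y H =
        MvPolynomial.eval (rp a b y) g * (MvPolynomial.eval y b) ^ D := by
  have hb' := am_ne hb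
  induction g using MvPolynomial.induction_on with
  | C c =>
    refine ⟨0, MvPolynomial.C c, ?_, fun y _ => ?_⟩
    · rw [pow_zero, mul_one, MvPolynomial.algHom_C,
        IsScalarTower.algebraMap_apply Qb (RR n) (KK n), MvPolynomial.algebraMap_eq]
    · rw [pow_zero, mul_one, MvPolynomial.eval_C, MvPolynomial.eval_C]
  | add g₁ g₂ ih₁ ih₂ =>
    obtain ⟨D₁, H₁, h11, h12⟩ := ih₁
    obtain ⟨D₂, H₂, h21, h22⟩ := ih₂
    refine ⟨D₁ + D₂, H₁ * b ^ D₂ + H₂ * b ^ D₁, ?_, fun y hy => ?_⟩
    · rw [map_add, map_add, map_mul, map_mul, map_pow, map_pow, ← h11, ← h21]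
      ring
    · rw [map_add, map_add, map_mul, map_mul, map_pow, map_pow, h12 y hy, h22 y hy]
      ring
  | mul_X g i ih =>
    obtain ⟨D, H, h1, h2⟩ := ih
    refine ⟨D + 1, H * a i, ?_, fun y hy => ?_⟩
    · rw [map_mul, map_mul, MvPolynomial.aeval_X, ← h1]
      have e1 : rq a b i * algebraMap (RR n) (KK n) b = algebraMap (RR n) (KK n) (a i) :=
        div_mul_cancel₀ _ hb'
      rw [← e1]
      ring
    · rw [map_mul, map_mul, MvPolynomial.eval_X, h2 y hy]
      have e1 : rp a b y i * MvPolynomial.eval y b = MvPolynomial.eval y (a i) :=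
        div_mul_cancel₀ _ hy
      rw [← e1]
      ring

theorem ident (a : Fin n → RR n) (b : RR n) (hb : b ≠ 0) (g A B : RR n) (hB : B ≠ 0) :
    (∀ y, MvPolynomial.eval y b ≠ 0 → MvPolynomial.eval y B ≠ 0 →
      MvPolynomial.eval y A / MvPolynomial.eval y B = MvPolynomial.eval (rp a b y) g) ↔
    algebraMap (RR n) (KK n) A / algebraMap (RR n) (KK n) B = MvPolynomial.aeval (rq a b) g := by
  have hinf : Infinite Qb := IsAlgClosed.instInfinite
  have hb' := am_ne hb
  have hB' := am_ne hB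
  obtain ⟨D, H, h1, h2⟩ := clear_den a b hb g
  constructor
  · intro h
    have h3 : (A * b ^ D - H * B) * (b * B) = 0 := by
      apply MvPolynomial.funext
      intro y
      rw [map_mul, map_mul, map_sub, map_mul, map_mul, map_pow, map_zero]
      by_cases hy : MvPolynomial.eval y b = 0
      · rw [hy, zero_mul, mul_zero]
      by_cases hy' : MvPolynomial.eval y B = 0
      · simp [hy']
      have h4 := h y hy hy'
      rw [div_eq_iff hy'] at h4
      rw [h2 y hy, h4]
      ring
    have h4 := (mul_eq_zero.1 h3).resolve_right (mul_ne_zero hb hB)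
    have h5 := congrArg (algebraMap (RR n) (KK n)) (sub_eq_zero.1 h4)
    rw [map_mul, map_mul, map_pow, ← h1] at h5
    rw [div_eq_iff hB']
    apply mul_right_cancel₀ (pow_ne_zero D hb')
    rw [h5]
    ring
  · intro h y hy hy'
    rw [div_eq_iff hB'] at h
    have h3 : A * b ^ D = H * B := by
      apply IsFractionRing.injective (RR n) (KK n)
      rw [map_mul, map_mul, map_pow, ← h1, h]
      ring
    have h4 := congrArg (MvPolynomial.eval y) h3
    rw [map_mul, map_mul, map_pow, h2 y hy] at h4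
    rw [div_eq_iff hy']
    apply mul_right_cancel₀ (pow_ne_zero D hy)
    rw [h4]
    ring

theorem trdeg_KK : Algebra.trdeg Qb (KK n) = (n : Cardinal) := by
  have h1 : Algebra.IsAlgebraic (RR n) (KK n) :=
    IsLocalization.isAlgebraic _ (nonZeroDivisors (RR n))
  have h2 := trdeg_add_eq Qb (RR n) (A := KK n)
  rw [trdeg_eq_zero (R := RR n) (A := KK n), add_zero, MvPolynomial.trdeg_of_isDomain, Cardinal.mk_fin,
    Cardinal.lift_natCast] at h2
  exact h2.symm

/-- the endomorphism of the field of rational functions -/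
noncomputable def sr (a : Fin n → RR n) (b : RR n)
    (hπ : Function.Injective (MvPolynomial.aeval (rq a b) : RR n →ₐ[Qb] KK n)) : KK n →+* KK n :=
  IsFractionRing.lift (A := RR n) (K := KK n)
    (g := (MvPolynomial.aeval (rq a b) : RR n →ₐ[Qb] KK n).toRingHom) hπ

theorem sr_alg (a : Fin n → RR n) (b : RR n)
    (hπ : Function.Injective (MvPolynomial.aeval (rq a b) : RR n →ₐ[Qb] KK n)) (P : RR n) :
    sr a b hπ (algebraMap (RR n) (KK n) P) = MvPolynomial.aeval (rq a b) P :=
  IsFractionRing.lift_algebraMap (A := RR n) (K := KK n)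
    (g := (MvPolynomial.aeval (rq a b) : RR n →ₐ[Qb] KK n).toRingHom) hπ P

theorem alg_C (c : Qb) : algebraMap (RR n) (KK n) (MvPolynomial.C c) = algebraMap Qb (KK n) c := by
  rw [IsScalarTower.algebraMap_apply Qb (RR n) (KK n), MvPolynomial.algebraMap_eq]

theorem sr_C (a : Fin n → RR n) (b : RR n)
    (hπ : Function.Injective (MvPolynomial.aeval (rq a b) : RR n →ₐ[Qb] KK n)) (c : Qb) :
    sr a b hπ (algebraMap Qb (KK n) c) = algebraMap Qb (KK n) c := by
  rw [← alg_C, sr_alg, MvPolynomial.algHom_C, alg_C]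

theorem alg_rat (a : Fin n → RR n) (b : RR n)
    (hπ : Function.Injective (MvPolynomial.aeval (rq a b) : RR n →ₐ[Qb] KK n)) (y : KK n) :
    ∃ p : (KK n)[X], p ≠ 0 ∧ p.eval₂ (sr a b hπ) y = 0 := by
  have hinj := IsFractionRing.injective (RR n) (KK n)
  have h1 : AlgebraicIndependent Qb (rq a b) := hπ
  have h2 : IsTranscendenceBasis Qb (rq a b) := h1.isTranscendenceBasis_of_trdeg_le_of_finite (by
    rw [trdeg_KK, Cardinal.mk_fin])
  have h3 := h2.isAlgebraic
  obtain ⟨q, hq0, hq⟩ := h3.isAlgebraic y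
  let ρ : RR n →+* Algebra.adjoin Qb (Set.range (rq a b)) :=
    (MvPolynomial.aeval (rq a b) : RR n →ₐ[Qb] KK n).toRingHom.codRestrict _ (fun x => by
      rw [Algebra.adjoin_range_eq_range_aeval]
      exact ⟨x, rfl⟩)
  have hρ : Function.Surjective ρ := by
    rintro ⟨y, hy⟩
    have hy' := hy
    rw [Algebra.adjoin_range_eq_range_aeval] at hy'
    obtain ⟨x, hx⟩ := hy'
    exact ⟨x, Subtype.ext hx⟩
  obtain ⟨q', rfl⟩ := map_surjective ρ hρ q
  refine ⟨q'.map (algebraMap (RR n) (KK n)), ?_, ?_⟩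
  · rw [ne_eq, Polynomial.map_eq_zero_iff hinj]
    rintro rfl
    exact hq0 (Polynomial.map_zero _)
  · rw [aeval_def, eval₂_map] at hq
    rw [eval₂_map, ← hq]
    congr 1
    exact RingHom.ext fun x => sr_alg a b hπ x

theorem sg_pow_C (g : Fin n → RR n)
    (hg : Function.Injective (MvPolynomial.aeval g : RR n →ₐ[Qb] RR n)) (m : ℕ) (c : Qb) :
    (sg g hg ^ m : KK n →+* KK n) (algebraMap Qb (KK n) c) = algebraMap Qb (KK n) c := by
  rw [RingHom.coe_pow]
  exact Function.iterate_fixed (sg_C g hg c) m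

theorem cj_rat (f F a : Fin n → RR n) (b : RR n) (hb : b ≠ 0) (k l : ℕ) (hk : 0 < k) (hl : 0 < l)
    (hF : Function.Injective (MvPolynomial.aeval F : RR n →ₐ[Qb] RR n))
    (hπ : Function.Injective (MvPolynomial.aeval (rq a b) : RR n →ₐ[Qb] KK n))
    (hsemi : ∀ y : Fin n → Qb, MvPolynomial.eval y b ≠ 0 →
      MvPolynomial.eval ((pm F)^[l] y) b ≠ 0 →
      rp a b ((pm F)^[l] y) = (pm f)^[k] (rp a b y)) (hcj : Cj F) : Cj f := by
  classical
  intro hf hinv
  have hB : ∀ m, (MvPolynomial.aeval F : RR n →ₐ[Qb] RR n)^[m] b ≠ 0 :=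
    fun m h => hb (zero_iter F hF m b h)
  have hrq : ∀ m i, (sg F hF)^[m] (rq a b i) =
      algebraMap (RR n) (KK n) ((MvPolynomial.aeval F : RR n →ₐ[Qb] RR n)^[m] (a i)) /
      algebraMap (RR n) (KK n) ((MvPolynomial.aeval F : RR n →ₐ[Qb] RR n)^[m] b) := by
    intro m i
    show (sg F hF)^[m] (algebraMap (RR n) (KK n) (a i) / algebraMap (RR n) (KK n) b) = _
    rw [← RingHom.coe_pow, map_div₀, RingHom.coe_pow, sg_iter, sg_iter]
  have hcomm : ∀ x : KK n, (sg F hF ^ l : KK n →+* KK n) (sr a b hπ x) =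
      sr a b hπ ((sg f hf ^ k : KK n →+* KK n) x) := by
    have h1 : (sg F hF ^ l : KK n →+* KK n).comp (sr a b hπ) =
        (sr a b hπ).comp (sg f hf ^ k : KK n →+* KK n) := by
      apply IsLocalization.ringHom_ext (nonZeroDivisors (RR n))
      apply MvPolynomial.ringHom_ext
      · intro c
        show (sg F hF ^ l : KK n →+* KK n) (sr a b hπ (algebraMap (RR n) (KK n)
          (MvPolynomial.C c))) = sr a b hπ ((sg f hf ^ k : KK n →+* KK n)
            (algebraMap (RR n) (KK n) (MvPolynomial.C c)))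
        rw [alg_C, sr_C, sg_pow_C, sg_pow_C, sr_C]
      · intro i
        show (sg F hF ^ l : KK n →+* KK n) (sr a b hπ (algebraMap (RR n) (KK n)
          (MvPolynomial.X i))) = sr a b hπ ((sg f hf ^ k : KK n →+* KK n)
            (algebraMap (RR n) (KK n) (MvPolynomial.X i)))
        rw [sr_alg, MvPolynomial.aeval_X, RingHom.coe_pow, RingHom.coe_pow, sg_iter, sr_alg, hrq]
        refine (ident a b hb _ _ _ (hB l)).1 fun y h1 h2 => ?_
        rw [eval_iter] at h2
        rw [eval_iter, eval_iter, eval_iter, MvPolynomial.eval_X, ← hsemi y h1 h2]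
        rfl
    exact fun x => congrArg (fun ψ => ψ x) h1
  have hcomm' : ∀ x : KK n, (sg F hF)^[l] (sr a b hπ x) = sr a b hπ ((sg f hf)^[k] x) := by
    intro x
    have := hcomm x
    rwa [RingHom.coe_pow, RingHom.coe_pow] at this
  have hiter : ∀ (m : ℕ) (x : KK n),
      (sg F hF)^[l * m] (sr a b hπ x) = sr a b hπ ((sg f hf)^[k * m] x) := by
    intro m
    induction m with
    | zero => intro x; rfl
    | succ m ih =>
      intro x
      rw [Nat.mul_succ, Nat.mul_succ, Function.iterate_add_apply, hcomm', ih,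
        ← Function.iterate_add_apply (sg f hf)]
  have hFinv : ∀ P Q : RR n, Q ≠ 0 →
      MvPolynomial.aeval F P * Q = MvPolynomial.aeval F Q * P →
      ∃ c : Qb, P = MvPolynomial.C c * Q := by
    intro P Q hQ hPQ
    refine field_inv F hF (fun y hy => ?_) P Q hQ hPQ
    refine inv_quot (sg f hf ^ k : KK n →+* KK n) (sg F hF ^ l : KK n →+* KK n) (sr a b hπ)
      (sr_C a b hπ) hcomm ?_ y ?_ (alg_rat a b hπ y)
    · intro x hx
      rw [RingHom.coe_pow] at hx
      exact inv_iter (sg f hf) (inv_field f hf hinv) k hk x hx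
    · rw [RingHom.coe_pow]
      exact Function.iterate_fixed hy l
  have hpt : ∀ (m : ℕ) (y : Fin n → Qb), MvPolynomial.eval y b ≠ 0 →
      MvPolynomial.eval ((pm F)^[l * m] y) b ≠ 0 →
      rp a b ((pm F)^[l * m] y) = (pm f)^[k * m] (rp a b y) := by
    intro m y h1 h2
    funext i
    have h3 := (ident a b hb ((MvPolynomial.aeval f : RR n →ₐ[Qb] RR n)^[k * m]
      (MvPolynomial.X i)) ((MvPolynomial.aeval F : RR n →ₐ[Qb] RR n)^[l * m] (a i))
      ((MvPolynomial.aeval F : RR n →ₐ[Qb] RR n)^[l * m] b) (hB _)).2 (by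
        rw [← hrq, ← sr_alg a b hπ, ← sg_iter f hf, ← hiter, sr_alg, MvPolynomial.aeval_X])
      y h1 (by rw [eval_iter]; exact h2)
    rw [eval_iter, eval_iter, eval_iter, MvPolynomial.eval_X] at h3
    exact h3
  obtain ⟨x₀, hx₀⟩ := hcj hF hFinv
  obtain ⟨i, hi⟩ := dense_pow F x₀ hx₀ l hl
  obtain ⟨m₀, hm₀⟩ : ∃ m, MvPolynomial.eval ((pm F)^[l * m + i] x₀) b ≠ 0 := by
    by_contra hcon
    push Not at hcon
    exact hb (hi b hcon)
  set x := (pm F)^[l * m₀ + i] x₀ with hxdef
  have hx : Dense (fun m => (pm F)^[l * m] x) := by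
    intro R hR
    have h4 : (MvPolynomial.aeval F : RR n →ₐ[Qb] RR n)^[l * m₀] R = 0 := by
      apply hi
      intro j
      show MvPolynomial.eval ((pm F)^[l * j + i] x₀) _ = 0
      rw [eval_iter, ← Function.iterate_add_apply]
      have h5 : MvPolynomial.eval ((pm F)^[l * j] x) R = 0 := hR j
      rw [hxdef, ← Function.iterate_add_apply] at h5
      have e3 : l * m₀ + (l * j + i) = l * j + (l * m₀ + i) := by ring
      rw [e3]
      exact h5
    exact zero_iter F hF _ _ h4
  refine ⟨rp a b x, fun h hh => ?_⟩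
  obtain ⟨D, H, h1, h2⟩ := clear_den a b hb h
  have h3 : H * b = 0 := by
    apply hx
    intro m
    rw [map_mul]
    by_cases hm : MvPolynomial.eval ((pm F)^[l * m] x) b = 0
    · rw [hm, mul_zero]
    · rw [h2 _ hm, hpt m x hm₀ hm, hh (k * m), zero_mul, zero_mul]
  have h4 := (mul_eq_zero.1 h3).resolve_right hb
  rw [h4, map_zero] at h1
  have h5 := (mul_eq_zero.1 h1).resolve_right (pow_ne_zero D (am_ne hb))
  exact (map_eq_zero_iff _ hπ).1 h5

end

end Pool.Agent.H78.Zd
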