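import Pool.Agent.H78.Zd.L11

/-!
# The strong form for commensurable maps
-/

set_option autoImplicit false

namespace Pool.Agent.H78.Zd

open Polynomial

section
variable {n : ℕ}

/-- the strong form of the conjecture for `f` -/
def Cs (f : Fin n → RR n) : Prop :=
  Function.Injective (MvPolynomial.aeval f : RR n →ₐ[Qb] RR n) →
  (∀ P Q : RR n, Q ≠ 0 → MvPolynomial.aeval f P * Q = MvPolynomial.aeval f Q * P →
    ∃ c : Qb, P = MvPolynomial.C c * Q) → ∀ B : RR n, B ≠ 0 →
  ∃ x, (∀ m, MvPolynomial.eval ((pm f)^[m] x) B ≠ 0) ∧ Dense (fun m => (pm f)^[m] x)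

theorem cs_tri (f : Fin n → RR n) (htri : ∀ i j, j < i → (f i).degreeOf j = 0) : Cs f := by
  intro hf hinv B hB
  obtain ⟨x, p, hp, τ, -, -, -, hx, hu⟩ := tri_all n f htri hf hinv 1 ∅ {B} (by
    intro C hC
    rw [Finset.mem_singleton.1 hC]
    exact hB)
  refine ⟨x, fun m h0 => ?_, hx⟩
  have h1 := hu 0 B (Finset.mem_singleton_self B) m
  rw [h0, map_zero, norm_zero] at h1
  exact zero_ne_one h1

theorem prod_iter_ne (f : Fin n → RR n)
    (hf : Function.Injective (MvPolynomial.aeval f : RR n →ₐ[Qb] RR n)) (k : ℕ) (B : RR n)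
    (hB : B ≠ 0) :
    ∏ r ∈ Finset.range k, (MvPolynomial.aeval f : RR n →ₐ[Qb] RR n)^[r] B ≠ 0 :=
  Finset.prod_ne_zero_iff.2 fun r _ h0 => hB (zero_iter f hf r B h0)

theorem avoid_iter (f : Fin n → RR n) (k : ℕ) (hk : 0 < k) (B : RR n) (P : Fin n → Qb)
    (h : ∀ m, MvPolynomial.eval ((pm f)^[k * m] P)
      (∏ r ∈ Finset.range k, (MvPolynomial.aeval f : RR n →ₐ[Qb] RR n)^[r] B) ≠ 0) :
    ∀ m, MvPolynomial.eval ((pm f)^[m] P) B ≠ 0 := by
  intro m h0
  apply h (m / k)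
  rw [map_prod]
  refine Finset.prod_eq_zero (Finset.mem_range.2 (Nat.mod_lt m hk)) ?_
  rw [eval_iter, ← Function.iterate_add_apply, Nat.mod_add_div]
  exact h0

theorem cs_rat (f F a : Fin n → RR n) (b : RR n) (hb : b ≠ 0) (k l : ℕ) (hk : 0 < k) (hl : 0 < l)
    (hF : Function.Injective (MvPolynomial.aeval F : RR n →ₐ[Qb] RR n))
    (hπ : Function.Injective (MvPolynomial.aeval (rq a b) : RR n →ₐ[Qb] KK n))
    (hsemi : ∀ y : Fin n → Qb, MvPolynomial.eval y b ≠ 0 →
      MvPolynomial.eval ((pm F)^[l] y) b ≠ 0 →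
      rp a b ((pm F)^[l] y) = (pm f)^[k] (rp a b y)) (hcs : Cs F) : Cs f := by
  classical
  intro hf hinv B hB0
  have hBm : ∀ m, (MvPolynomial.aeval F : RR n →ₐ[Qb] RR n)^[m] b ≠ 0 :=
    fun m h => hb (zero_iter F hF m b h)
  have hrq : ∀ m i, (sg F hF)^[m] (rq a b i) =
      algebraMap (RR n) (KK n) ((MvPolynomial.aeval F : RR n →ₐ[Qb] RR n)^[m] (a i)) /
      algebraMap (RR n) (KK n) ((MvPolynomial.aeval F : RR n →ₐ[Qb] RR n)^[m] b) := by
    intro m i
    show (sg F hF)^[m] (algebraMap (RR n) (KK n) (a i) / algebraMap (RR n) (KK n) b) = _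
    rw [← RingHom.coe_pow, map_div₀, RingHom.coe_pow, sg_iter, sg_iter]
  have hcomm : ∀ x : KK n, (sg F hF ^ l : KK n →+* KK n) (sr a b hπ x) =
      sr a b hπ ((sg f hf ^ k : KK n →+* KK n) x) := by
    have h1 : (sg F hF ^ l : KK n →+* KK n).comp (sr a b hπ) =
        (sr a b hπ).comp (sg f hf ^ k : KK n →+* KK n) := by
      apply IsLocalization.ringHom_ext (nonZeroDivisors (RR n))
      apply MvPolynomial.ringHom_ext
      · intro c
        show (sg F hF ^ l : KK n →+* KK n) (sr a b hπ (algebraMap (RR n) (KK n)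
          (MvPolynomial.C c))) = sr a b hπ ((sg f hf ^ k : KK n →+* KK n)
            (algebraMap (RR n) (KK n) (MvPolynomial.C c)))
        rw [alg_C, sr_C, sg_pow_C, sg_pow_C, sr_C]
      · intro i
        show (sg F hF ^ l : KK n →+* KK n) (sr a b hπ (algebraMap (RR n) (KK n)
          (MvPolynomial.X i))) = sr a b hπ ((sg f hf ^ k : KK n →+* KK n)
            (algebraMap (RR n) (KK n) (MvPolynomial.X i)))
        rw [sr_alg, MvPolynomial.aeval_X, RingHom.coe_pow, RingHom.coe_pow, sg_iter, sr_alg, hrq]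
        refine (ident a b hb _ _ _ (hBm l)).1 fun y h1 h2 => ?_
        rw [eval_iter] at h2
        rw [eval_iter, eval_iter, eval_iter, MvPolynomial.eval_X, ← hsemi y h1 h2]
        rfl
    exact fun x => congrArg (fun ψ => ψ x) h1
  have hcomm' : ∀ x : KK n, (sg F hF)^[l] (sr a b hπ x) = sr a b hπ ((sg f hf)^[k] x) := by
    intro x
    have := hcomm x
    rwa [RingHom.coe_pow, RingHom.coe_pow] at this
  have hiter : ∀ (m : ℕ) (x : KK n),
      (sg F hF)^[l * m] (sr a b hπ x) = sr a b hπ ((sg f hf)^[k * m] x) := by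
    intro m
    induction m with
    | zero => intro x; rfl
    | succ m ih =>
      intro x
      rw [Nat.mul_succ, Nat.mul_succ, Function.iterate_add_apply, hcomm', ih,
        ← Function.iterate_add_apply (sg f hf)]
  have hFinv : ∀ P Q : RR n, Q ≠ 0 →
      MvPolynomial.aeval F P * Q = MvPolynomial.aeval F Q * P →
      ∃ c : Qb, P = MvPolynomial.C c * Q := by
    intro P Q hQ hPQ
    refine field_inv F hF (fun y hy => ?_) P Q hQ hPQ
    refine inv_quot (sg f hf ^ k : KK n →+* KK n) (sg F hF ^ l : KK n →+* KK n) (sr a b hπ)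
      (sr_C a b hπ) hcomm ?_ y ?_ (alg_rat a b hπ y)
    · intro x hx
      rw [RingHom.coe_pow] at hx
      exact inv_iter (sg f hf) (inv_field f hf hinv) k hk x hx
    · rw [RingHom.coe_pow]
      exact Function.iterate_fixed hy l
  have hpt : ∀ (m : ℕ) (y : Fin n → Qb), MvPolynomial.eval y b ≠ 0 →
      MvPolynomial.eval ((pm F)^[l * m] y) b ≠ 0 →
      rp a b ((pm F)^[l * m] y) = (pm f)^[k * m] (rp a b y) := by
    intro m y h1 h2
    funext i
    have h3 := (ident a b hb ((MvPolynomial.aeval f : RR n →ₐ[Qb] RR n)^[k * m]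
      (MvPolynomial.X i)) ((MvPolynomial.aeval F : RR n →ₐ[Qb] RR n)^[l * m] (a i))
      ((MvPolynomial.aeval F : RR n →ₐ[Qb] RR n)^[l * m] b) (hBm _)).2 (by
        rw [← hrq, ← sr_alg a b hπ, ← sg_iter f hf, ← hiter, sr_alg, MvPolynomial.aeval_X])
      y h1 (by rw [eval_iter]; exact h2)
    rw [eval_iter, eval_iter, eval_iter, MvPolynomial.eval_X] at h3
    exact h3
  have hBk := prod_iter_ne f hf k B hB0
  set Bk := ∏ r ∈ Finset.range k, (MvPolynomial.aeval f : RR n →ₐ[Qb] RR n)^[r] B with hBkdef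
  obtain ⟨D₁, H₁, hH1, hH2⟩ := clear_den a b hb Bk
  have hH0 : H₁ ≠ 0 := by
    intro h0
    rw [h0, map_zero] at hH1
    exact hBk ((map_eq_zero_iff _ hπ).1
      ((mul_eq_zero.1 hH1).resolve_right (pow_ne_zero D₁ (am_ne hb))))
  obtain ⟨x₀, hx₁, hx₀⟩ := hcs hF hFinv (H₁ * b) (mul_ne_zero hH0 hb)
  obtain ⟨i, hi⟩ := dense_pow F x₀ hx₀ l hl
  set x := (pm F)^[i] x₀ with hxdef
  have hxm : ∀ m, (pm F)^[l * m] x = (pm F)^[l * m + i] x₀ := fun m => by
    rw [hxdef, ← Function.iterate_add_apply]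
  have hbx : ∀ m, MvPolynomial.eval ((pm F)^[l * m] x) b ≠ 0 := by
    intro m h0
    apply hx₁ (l * m + i)
    rw [map_mul, ← hxm, h0, mul_zero]
  have hHx : ∀ m, MvPolynomial.eval ((pm F)^[l * m] x) H₁ ≠ 0 := by
    intro m h0
    apply hx₁ (l * m + i)
    rw [map_mul, ← hxm, h0, zero_mul]
  have hrp : ∀ m, rp a b ((pm F)^[l * m] x) = (pm f)^[k * m] (rp a b x) :=
    fun m => hpt m x (hbx 0) (hbx m)
  refine ⟨rp a b x, avoid_iter f k hk B _ fun m => ?_, fun h hh => ?_⟩
  · rw [← hrp]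
    intro h0
    apply hHx m
    rw [hH2 _ (hbx m)]
    show MvPolynomial.eval _ (∏ r ∈ Finset.range k, _) * _ = 0
    rw [h0, zero_mul]
  obtain ⟨D, H, h1, h2⟩ := clear_den a b hb h
  have h3 : H = 0 := by
    apply hi
    intro m
    show MvPolynomial.eval ((pm F)^[l * m + i] x₀) H = 0
    rw [← hxm, h2 _ (hbx m), hrp, hh (k * m), zero_mul]
  rw [h3, map_zero] at h1
  have h5 := (mul_eq_zero.1 h1).resolve_right (pow_ne_zero D (am_ne hb))
  exact (map_eq_zero_iff _ hπ).1 h5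

theorem cs_cover (f F π : Fin n → RR n) (k l : ℕ) (hk : 0 < k) (hl : 0 < l)
    (hπ : Function.Injective (MvPolynomial.aeval π : RR n →ₐ[Qb] RR n))
    (hsemi : ∀ y : Fin n → Qb, pm π ((pm f)^[k] y) = (pm F)^[l] (pm π y)) (hcs : Cs F) :
    Cs f := by
  classical
  intro hf hinv B hB0
  have hinf : Infinite Qb := IsAlgClosed.instInfinite
  have hpoly : ∀ P : RR n, (MvPolynomial.aeval f : RR n →ₐ[Qb] RR n)^[k]
      (MvPolynomial.aeval π P) =
      MvPolynomial.aeval π ((MvPolynomial.aeval F : RR n →ₐ[Qb] RR n)^[l] P) := by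
    intro P
    apply MvPolynomial.funext
    intro y
    rw [eval_iter, eval_aeval', eval_aeval', eval_iter, hsemi]
  have hF : Function.Injective (MvPolynomial.aeval F : RR n →ₐ[Qb] RR n) := by
    rw [injective_iff_map_eq_zero]
    intro P hP
    have h1 := hpoly P
    have h2 : (MvPolynomial.aeval F : RR n →ₐ[Qb] RR n)^[l] P = 0 := by
      obtain ⟨l', rfl⟩ := Nat.exists_eq_succ_of_ne_zero hl.ne'
      rw [Nat.succ_eq_add_one, Function.iterate_succ_apply, hP, iter_zero']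
    rw [h2, map_zero] at h1
    exact (map_eq_zero_iff _ hπ).1 (zero_iter f hf k _ h1)
  have hFinv : ∀ P Q : RR n, Q ≠ 0 →
      MvPolynomial.aeval F P * Q = MvPolynomial.aeval F Q * P →
      ∃ c : Qb, P = MvPolynomial.C c * Q := by
    intro P Q hQ hPQ
    refine field_inv F hF (fun y hy => ?_) P Q hQ hPQ
    -- `y` is invariant, so its pullback is constant
    have hcomm : (sg f hf ^ k : KK n →+* KK n).comp (sg π hπ) =
        (sg π hπ).comp (sg F hF ^ l : KK n →+* KK n) := by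
      apply IsLocalization.ringHom_ext (nonZeroDivisors (RR n))
      apply RingHom.ext
      intro P
      show (sg f hf ^ k : KK n →+* KK n) (sg π hπ (algebraMap (RR n) (KK n) P)) =
        sg π hπ ((sg F hF ^ l : KK n →+* KK n) (algebraMap (RR n) (KK n) P))
      rw [RingHom.coe_pow, RingHom.coe_pow, sg_iter, sg_alg, sg_alg, sg_iter, hpoly]
    have h1 : (sg f hf)^[k] (sg π hπ y) = sg π hπ y := by
      have h2 := congrArg (fun ψ => ψ y) hcomm
      simp only [RingHom.comp_apply, RingHom.coe_pow] at h2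
      rw [h2, Function.iterate_fixed hy l]
    obtain ⟨c, hc⟩ := inv_iter (sg f hf) (inv_field f hf hinv) k hk _ h1
    refine ⟨c, (sg π hπ).injective ?_⟩
    rw [sg_C, hc]
  have hBk := prod_iter_ne f hf k B hB0
  set Bk := ∏ r ∈ Finset.range k, (MvPolynomial.aeval f : RR n →ₐ[Qb] RR n)^[r] B with hBkdef
  obtain ⟨q₁, hq₁, hq₁'⟩ := alg_min π hπ Bk hBk
  obtain ⟨s, hs0, hs⟩ := lift_point π hπ
  obtain ⟨x₀, hx₁, hx₀⟩ := hcs hF hFinv (q₁.coeff 0 * s) (mul_ne_zero hq₁ hs0)
  obtain ⟨i, hi⟩ := dense_pow F x₀ hx₀ l hl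
  obtain ⟨P, hP⟩ := hs ((pm F)^[i] x₀) (fun h0 => hx₁ i (by rw [map_mul, h0, mul_zero]))
  have h1 : ∀ j, pm π ((pm f)^[k * j] P) = (pm F)^[l * j + i] x₀ := by
    intro j
    induction j with
    | zero =>
      rw [mul_zero, mul_zero, zero_add]
      exact hP
    | succ j ih =>
      have e1 : k * (j + 1) = k + k * j := by ring
      have e2 : l * (j + 1) + i = l + (l * j + i) := by ring
      rw [e1, Function.iterate_add_apply (pm f), hsemi, ih, e2, Function.iterate_add_apply (pm F) l]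
  have hkey : ∀ (R : RR n) (q : (RR n)[X]),
      q.eval₂ (MvPolynomial.aeval π : RR n →ₐ[Qb] RR n).toRingHom R = 0 → ∀ j,
      MvPolynomial.eval ((pm f)^[k * j] P) R = 0 →
      MvPolynomial.eval ((pm F)^[l * j + i] x₀) (q.coeff 0) = 0 := by
    intro R q hq j hR
    rw [← h1, ← eval_aeval']
    have h3 := congrArg (MvPolynomial.eval ((pm f)^[k * j] P)) hq
    rw [hom_eval₂, map_zero, hR, eval₂_at_zero] at h3
    exact h3
  refine ⟨P, avoid_iter f k hk B _ fun m h0 => ?_, fun h hh => ?_⟩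
  · apply hx₁ (l * m + i)
    rw [map_mul, hkey Bk q₁ hq₁' m h0, zero_mul]
  · by_contra hne
    obtain ⟨q, hq0, hq⟩ := alg_min π hπ h hne
    apply hq0
    apply hi
    intro j
    exact hkey h q hq j (hh (k * j))

end

end Pool.Agent.H78.Zd
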