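import Pool.Agent.H78.Zd.L1

/-!
# Density for skew linear maps
-/

set_option autoImplicit false

namespace Pool.Agent.H78.Zd

open Polynomial

section
variable {n : ℕ}

/-- the ideal of the polynomials which vanish on an orbit -/
noncomputable def VI (z : ℕ → Fin n → Qb) (x : ℕ → Qb) : Ideal (MvPolynomial (Fin n) Qb)[X] :=
  ⨅ m, RingHom.ker ((evalRingHom (x m)).comp (mapRingHom (MvPolynomial.eval (z m))))

theorem mem_VI {z : ℕ → Fin n → Qb} {x : ℕ → Qb} {Q : (MvPolynomial (Fin n) Qb)[X]} :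
    Q ∈ VI z x ↔ ∀ m, (Q.map (MvPolynomial.eval (z m))).eval (x m) = 0 := by
  rw [VI, Ideal.mem_iInf]
  exact Iff.rfl

theorem dens_lin (z : ℕ → Fin n → Qb) (hz : Dense z)
    (φ : MvPolynomial (Fin n) Qb →+* MvPolynomial (Fin n) Qb) (hφ : Function.Injective φ)
    (hφz : ∀ c m, MvPolynomial.eval (z m) (φ c) = MvPolynomial.eval (z (m + 1)) c)
    (a b : MvPolynomial (Fin n) Qb) (ha : a ≠ 0) (x : ℕ → Qb)
    (hx : ∀ m, x (m + 1) = MvPolynomial.eval (z m) a * x m + MvPolynomial.eval (z m) b)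
    (hinv : ∀ p q : (MvPolynomial (Fin n) Qb)[X], q ≠ 0 →
      fs φ a b p * q = fs φ a b q * p → ∃ c : MvPolynomial (Fin n) Qb, p = C c * q)
    (D₀ E₀ : MvPolynomial (Fin n) Qb)
    (hsec : ∀ D E : MvPolynomial (Fin n) Qb, D ≠ 0 → φ E * D = φ D * (a * E + b * D) →
      φ E₀ * D₀ = φ D₀ * (a * E₀ + b * D₀) ∧ D₀ * E = E₀ * D)
    (hD₀ : ∀ m, MvPolynomial.eval (z m) D₀ ≠ 0) (haz : ∀ m, MvPolynomial.eval (z m) a ≠ 0)
    (hx0 : MvPolynomial.eval (z 0) D₀ * x 0 ≠ MvPolynomial.eval (z 0) E₀) :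
    Dense (fun m => (Fin.cons (x m) (z m) : Fin (n + 1) → Qb)) := by
  intro R hR
  by_contra hR0
  have hQ0 : MvPolynomial.finSuccEquiv Qb n R ≠ 0 := by
    intro h
    exact hR0 ((map_eq_zero_iff _ (MvPolynomial.finSuccEquiv Qb n).injective).1 h)
  have hQV : MvPolynomial.finSuccEquiv Qb n R ∈ VI z x := by
    rw [mem_VI]
    intro m
    have := hR m
    rw [MvPolynomial.eval_eq_eval_mv_eval'] at this
    exact this
  obtain ⟨D, E, hD, hW, hS⟩ := semi_main φ hφ a b ha (VI z x) (by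
      intro Q hQ
      rw [mem_VI] at hQ ⊢
      intro m
      have h1 : ((evalRingHom (x m)).comp (mapRingHom (MvPolynomial.eval (z m)))).comp
          (fs φ a b) = (evalRingHom (x (m + 1))).comp
            (mapRingHom (MvPolynomial.eval (z (m + 1)))) := by
        apply Polynomial.ringHom_ext
        · intro c
          simp [fs_C, hφz]
        · simp [fs_X, hx]
      have h2 := congrArg (fun ψ => ψ Q) h1
      simp only [RingHom.comp_apply, coe_evalRingHom, coe_mapRingHom] at h2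
      rw [h2]
      exact hQ (m + 1)) (by
      intro c hc
      rw [mem_VI] at hc
      apply hz
      intro m
      have := hc m
      rwa [Polynomial.map_C, eval_C] at this) (by
      intro c W r hr h
      rw [mem_VI] at h ⊢
      intro m
      have h1 := h m
      rw [Polynomial.map_mul, Polynomial.map_pow, eval_mul, eval_pow] at h1
      rw [Polynomial.map_mul, eval_mul]
      rcases mul_eq_zero.1 h1 with h2 | h2
      · rw [h2, zero_mul]
      · rw [(pow_eq_zero_iff hr.ne').1 h2, mul_zero]) (by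
      intro h0
      rw [h0] at hQV
      exact hQ0 hQV) hinv
  obtain ⟨hS₀, hDE⟩ := hsec D E hD hS
  -- the deviation from the section
  have hy : ∀ m, MvPolynomial.eval (z m) D₀ * x m - MvPolynomial.eval (z m) E₀ ≠ 0 := by
    intro m
    induction m with
    | zero => exact sub_ne_zero.2 hx0
    | succ m ih =>
      intro h0
      have h1 := congrArg (MvPolynomial.eval (z m)) hS₀
      simp only [map_mul, map_add, hφz] at h1
      have h2 : (MvPolynomial.eval (z (m + 1)) D₀ * x (m + 1) -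
          MvPolynomial.eval (z (m + 1)) E₀) * MvPolynomial.eval (z m) D₀ =
          MvPolynomial.eval (z (m + 1)) D₀ * MvPolynomial.eval (z m) a *
          (MvPolynomial.eval (z m) D₀ * x m - MvPolynomial.eval (z m) E₀) := by
        rw [hx]
        linear_combination -h1
      rw [h0, zero_mul] at h2
      exact mul_ne_zero (mul_ne_zero (hD₀ _) (haz _)) ih h2.symm
  apply hD
  apply hz
  intro m
  rw [mem_VI] at hW
  have h1 := hW m
  simp only [Polynomial.map_sub, Polynomial.map_mul, Polynomial.map_C, Polynomial.map_X, eval_sub,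
    eval_mul, eval_C, eval_X] at h1
  have h2 := congrArg (MvPolynomial.eval (z m)) hDE
  simp only [map_mul] at h2
  have h3 : MvPolynomial.eval (z m) D *
      (MvPolynomial.eval (z m) D₀ * x m - MvPolynomial.eval (z m) E₀) = 0 := by
    linear_combination (MvPolynomial.eval (z m) D₀) * h1 + h2
  exact (mul_eq_zero.1 h3).resolve_right (hy m)

/-- a section, unique if there is one -/
theorem exists_section (φ : MvPolynomial (Fin n) Qb →+* MvPolynomial (Fin n) Qb)
    (a b : MvPolynomial (Fin n) Qb)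
    (hinv : ∀ p q : (MvPolynomial (Fin n) Qb)[X], q ≠ 0 →
      fs φ a b p * q = fs φ a b q * p → ∃ c : Qb, p = C (MvPolynomial.C c) * q) :
    ∃ D₀ E₀ : MvPolynomial (Fin n) Qb, D₀ ≠ 0 ∧
      ∀ D E : MvPolynomial (Fin n) Qb, D ≠ 0 → φ E * D = φ D * (a * E + b * D) →
      φ E₀ * D₀ = φ D₀ * (a * E₀ + b * D₀) ∧ D₀ * E = E₀ * D := by
  by_cases hex : ∃ D₀ E₀ : MvPolynomial (Fin n) Qb, D₀ ≠ 0 ∧
      φ E₀ * D₀ = φ D₀ * (a * E₀ + b * D₀)
  · obtain ⟨D₀, E₀, hD₀, hS₀⟩ := hex
    refine ⟨D₀, E₀, hD₀, fun D E hD hS => ⟨hS₀, ?_⟩⟩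
    by_contra hne
    have hq : (C (E₀ * D - E * D₀) : (MvPolynomial (Fin n) Qb)[X]) ≠ 0 := by
      rw [C_ne_zero, sub_ne_zero]
      intro h
      exact hne (by rw [mul_comm, ← h])
    obtain ⟨c, hc⟩ := hinv ((C D₀ * X - C E₀) * C D) (C (E₀ * D - E * D₀)) hq (by
      simp only [map_mul, map_sub, fs_C, fs_X]
      apply mul_left_cancel₀ (mul_ne_zero (C_ne_zero.2 hD₀) (C_ne_zero.2 hD))
      have h1 : (C (φ E₀) : (MvPolynomial (Fin n) Qb)[X]) * C D₀ =
          C (φ D₀) * (C a * C E₀ + C b * C D₀) := by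
        rw [← C_mul, hS₀]; simp only [C_mul, C_add]
      have h2 : (C (φ E) : (MvPolynomial (Fin n) Qb)[X]) * C D =
          C (φ D) * (C a * C E + C b * C D) := by
        rw [← C_mul, hS]; simp only [C_mul, C_add]
      linear_combination (-(C (φ D) * (C E₀ * C D - C E * C D₀) * C D) -
        (C D₀ * X - C E₀) * C D * C D * C (φ D)) * h1 +
        ((C D₀ * X - C E₀) * C D * C D₀ * C (φ D₀)) * h2)
    have h1 := congrArg (fun P => P.coeff 1) hc
    simp only [← C_mul, coeff_C_succ, coeff_mul_C, coeff_sub, coeff_C_mul, coeff_X_one, mul_one,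
      sub_zero] at h1
    exact mul_ne_zero hD₀ hD h1
  · push Not at hex
    exact ⟨1, 0, one_ne_zero, fun D E hD hS => absurd hS (hex D E hD)⟩

end

end Pool.Agent.H78.Zd
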