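import Pool.Agent.H78.Zd.L2
import Pool.Agent.H78.Zd.H2

/-!
# One more linear coordinate at a place
-/

set_option autoImplicit false

namespace Pool.Agent.H78.Zd

open Polynomial Filter Topology

section
variable {p : ℕ} [Fact p.Prime] (τ : Qb →+* PadicAlgCl p)

theorem good_lin {n : ℕ} {z : ℕ → Fin n → Qb} (hz : Good τ z) (a b : MvPolynomial (Fin n) Qb)
    (hai : ∀ m ∈ a.support, ‖τ (a.coeff m)‖ ≤ 1) (hbi : ∀ m ∈ b.support, ‖τ (b.coeff m)‖ ≤ 1)
    (ha : ∀ m, ‖τ (MvPolynomial.eval (z m) a)‖ = 1) (x : ℕ → Qb)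
    (hx : ∀ m, x (m + 1) = MvPolynomial.eval (z m) a * x m + MvPolynomial.eval (z m) b)
    (hx0 : ‖τ (x 0)‖ ≤ 1) :
    Good τ (fun m => (Fin.cons (x m) (z m) : Fin (n + 1) → Qb)) := by
  classical
  have hbz : ∀ m, ‖τ (MvPolynomial.eval (z m) b)‖ ≤ 1 := fun m =>
    eval_mem_subring (O τ) b hbi _ (hz.int m)
  have hxi : ∀ m, ‖τ (x m)‖ ≤ 1 := by
    intro m
    induction m with
    | zero => exact hx0
    | succ m ih =>
      rw [hx, map_add, map_mul]
      exact nadd (nmul1 (ha m).le ih) (hbz m)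
  have hlip : ∀ m m' (ε : ℝ), 0 ≤ ε → (∀ i, ‖τ (z m i) - τ (z m' i)‖ ≤ ε) →
      ‖τ (x m) - τ (x m')‖ ≤ ε → ‖τ (x (m + 1)) - τ (x (m' + 1))‖ ≤ ε := by
    intro m m' ε hε h1 h2
    have h3 := lip_eval τ a hai (hz.int m) (hz.int m') hε h1
    have h4 := lip_eval τ b hbi (hz.int m) (hz.int m') hε h1
    have e1 : τ (x (m + 1)) - τ (x (m' + 1)) =
        τ (MvPolynomial.eval (z m) a) * (τ (x m) - τ (x m')) +
        (τ (x m') * (τ (MvPolynomial.eval (z m) a) - τ (MvPolynomial.eval (z m') a)) +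
        (τ (MvPolynomial.eval (z m) b) - τ (MvPolynomial.eval (z m') b))) := by
      rw [hx, hx]
      simp only [map_add, map_mul]
      ring
    rw [e1]
    exact nadd (nmul1 (ha m).le h2) (nadd (nmul1 (hxi m') h3) h4)
  have hback : ∀ m m' (ε : ℝ), 0 ≤ ε → (∀ i, ‖τ (z m i) - τ (z m' i)‖ ≤ ε) →
      ‖τ (x (m + 1)) - τ (x (m' + 1))‖ ≤ ε → ‖τ (x m) - τ (x m')‖ ≤ ε := by
    intro m m' ε hε h1 h2
    have h3 := lip_eval τ a hai (hz.int m) (hz.int m') hε h1
    have h4 := lip_eval τ b hbi (hz.int m) (hz.int m') hε h1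
    have e1 : τ (MvPolynomial.eval (z m) a) * (τ (x m) - τ (x m')) =
        (τ (x (m + 1)) - τ (x (m' + 1))) +
        (τ (x m') * (-(τ (MvPolynomial.eval (z m) a) - τ (MvPolynomial.eval (z m') a))) +
        -(τ (MvPolynomial.eval (z m) b) - τ (MvPolynomial.eval (z m') b))) := by
      rw [hx, hx]
      simp only [map_add, map_mul]
      ring
    have h5 : ‖τ (MvPolynomial.eval (z m) a) * (τ (x m) - τ (x m'))‖ ≤ ε := by
      rw [e1]
      exact nadd h2 (nadd (nmul1 (hxi m') (by rw [norm_neg]; exact h3)) (by rw [norm_neg]; exact h4))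
    rwa [norm_mul, ha m, one_mul] at h5
  -- the field
  obtain ⟨L₁, hL₁, hL₁'⟩ := hz.fin
  let S : Finset (PadicAlgCl p) := {τ (x 0)} ∪ (a.support.image (fun m => τ (a.coeff m)) ∪
    b.support.image fun m => τ (b.coeff m))
  have hSfd := adjoin_fd S
  have hfd := IntermediateField.finiteDimensional_sup L₁
    (IntermediateField.adjoin ℚ_[p] (S : Set (PadicAlgCl p)))
  set L₂ := L₁ ⊔ IntermediateField.adjoin ℚ_[p] (S : Set (PadicAlgCl p)) with hL₂
  have hSL : ∀ s ∈ S, s ∈ L₂ := fun s hs =>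
    (le_sup_right : _ ≤ L₂) (IntermediateField.subset_adjoin _ _ (Finset.mem_coe.2 hs))
  have hzL : ∀ m i, τ (z m i) ∈ L₂ := fun m i => (le_sup_left : _ ≤ L₂) (hL₁' m i)
  let T : Subring Qb := L₂.toSubfield.toSubring.comap τ
  have hxL : ∀ m, x m ∈ T := by
    intro m
    induction m with
    | zero => exact hSL _ (by simp [S])
    | succ m ih =>
      rw [hx]
      refine T.add_mem (T.mul_mem (eval_mem_subring T a (fun m hm => hSL _
        (Finset.mem_union_right _ (Finset.mem_union_left _ (Finset.mem_image_of_mem _ hm)))) _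
        (fun i => hzL m i)) ih) (eval_mem_subring T b (fun m hm => hSL _
        (Finset.mem_union_right _ (Finset.mem_union_right _ (Finset.mem_image_of_mem _ hm)))) _
        (fun i => hzL m i))
  have hcL : ∀ m i, τ ((Fin.cons (x m) (z m) : Fin (n + 1) → Qb) i) ∈ L₂ := by
    intro m i
    refine Fin.cases ?_ (fun i => ?_) i
    · rw [Fin.cons_zero]; exact hxL m
    · rw [Fin.cons_succ]; exact hzL m i
  have hcint : ∀ m i, ‖τ ((Fin.cons (x m) (z m) : Fin (n + 1) → Qb) i)‖ ≤ 1 := by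
    intro m i
    refine Fin.cases ?_ (fun i => ?_) i
    · rw [Fin.cons_zero]; exact hxi m
    · rw [Fin.cons_succ]; exact hz.int m i
  have hsplit : ∀ m m' (ε : ℝ), (∀ i, ‖τ ((Fin.cons (x m) (z m) : Fin (n + 1) → Qb) i) -
      τ ((Fin.cons (x m') (z m') : Fin (n + 1) → Qb) i)‖ ≤ ε) ↔
      (‖τ (x m) - τ (x m')‖ ≤ ε ∧ ∀ i, ‖τ (z m i) - τ (z m' i)‖ ≤ ε) := by
    intro m m' ε
    constructor
    · intro h
      exact ⟨h 0, fun i => h i.succ⟩
    · rintro ⟨h1, h2⟩ i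
      refine Fin.cases ?_ (fun i => ?_) i
      · exact h1
      · exact h2 i
  have hlip' : ∀ m m' (ε : ℝ), 0 ≤ ε →
      (∀ i, ‖τ ((Fin.cons (x m) (z m) : Fin (n + 1) → Qb) i) -
        τ ((Fin.cons (x m') (z m') : Fin (n + 1) → Qb) i)‖ ≤ ε) →
      ∀ i, ‖τ ((Fin.cons (x (m + 1)) (z (m + 1)) : Fin (n + 1) → Qb) i) -
        τ ((Fin.cons (x (m' + 1)) (z (m' + 1)) : Fin (n + 1) → Qb) i)‖ ≤ ε := by
    intro m m' ε hε h
    rw [hsplit] at h ⊢
    exact ⟨hlip m m' ε hε h.2 h.1, hz.lip m m' ε hε h.2⟩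
  have hback' : ∀ m m' (ε : ℝ), 0 ≤ ε → (∀ i, ‖τ (z m i) - τ (z m' i)‖ < 1) →
      (∀ i, ‖τ ((Fin.cons (x (m + 1)) (z (m + 1)) : Fin (n + 1) → Qb) i) -
        τ ((Fin.cons (x (m' + 1)) (z (m' + 1)) : Fin (n + 1) → Qb) i)‖ ≤ ε) →
      ∀ i, ‖τ ((Fin.cons (x m) (z m) : Fin (n + 1) → Qb) i) -
        τ ((Fin.cons (x m') (z m') : Fin (n + 1) → Qb) i)‖ ≤ ε := by
    intro m m' ε hε h1 h
    rw [hsplit] at h ⊢
    have h2 := hz.back m m' ε hε h1 h.2
    exact ⟨hback m m' ε hε h2 h.1, h2⟩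
  refine ⟨hcint, ⟨L₂, hfd, hcL⟩, ?_, hlip', fun m m' ε hε h1 h2 =>
    hback' m m' ε hε (fun i => h1 i.succ) h2⟩
  -- the period
  obtain ⟨l, hl0, hl⟩ := hz.per
  obtain ⟨s, t, hst, hd⟩ := pigeon L₂
    (fun m i => τ ((Fin.cons (x (l * m)) (z (l * m)) : Fin (n + 1) → Qb) i))
    (fun m i => hcL _ i) (fun m i => hcint _ i) (ε := 1 / 2) (by norm_num) 1
  set M := l * (t - s) with hM
  have hM0 : 0 < M := Nat.mul_pos hl0 (by omega)
  have hb : l * t = l * s + M := by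
    rw [hM, ← mul_add]
    congr 1
    omega
  have h0 : ∀ q, q ≤ l * s → ∀ i,
      ‖τ ((Fin.cons (x (l * s - q)) (z (l * s - q)) : Fin (n + 1) → Qb) i) -
        τ ((Fin.cons (x (l * s - q + M)) (z (l * s - q + M)) : Fin (n + 1) → Qb) i)‖ ≤ 1 / 2 := by
    intro q
    induction q with
    | zero =>
      intro _ i
      rw [Nat.sub_zero, ← hb]
      exact hd i
    | succ q ih =>
      intro hq
      refine hback' _ _ _ (by norm_num) ?_ ?_
      · intro i
        rw [norm_sub_rev, hM]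
        exact per_mul hl (t - s) _ i
      · have e1 : l * s - (q + 1) + 1 = l * s - q := by omega
        have e2 : l * s - (q + 1) + M + 1 = l * s - q + M := by omega
        rw [e1, e2]
        exact ih (by omega)
  have h1 : ∀ m i, ‖τ ((Fin.cons (x m) (z m) : Fin (n + 1) → Qb) i) -
        τ ((Fin.cons (x (m + M)) (z (m + M)) : Fin (n + 1) → Qb) i)‖ ≤ 1 / 2 := by
    intro m
    induction m with
    | zero =>
      have := h0 (l * s) le_rfl
      rw [Nat.sub_self] at this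
      exact this
    | succ m ih =>
      have := hlip' m (m + M) _ (by norm_num) ih
      have e1 : m + 1 + M = m + M + 1 := by omega
      rw [e1]
      exact this
  refine ⟨M, hM0, fun m i => ?_⟩
  rw [norm_sub_rev]
  exact (h1 m i).trans_lt (by norm_num)

theorem root_unity (u : k τ) (hu : u ≠ 0) : ∃ r, 0 < r ∧ u ^ r = 1 := by
  classical
  obtain ⟨v, rfl⟩ := Ideal.Quotient.mk_surjective u
  have hfd := adjoin_fd ({τ (v : Qb)} : Finset (PadicAlgCl p))
  set L := IntermediateField.adjoin ℚ_[p] (({τ (v : Qb)} : Finset (PadicAlgCl p)) :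
    Set (PadicAlgCl p)) with hL
  have hvL : τ (v : Qb) ∈ L := IntermediateField.subset_adjoin _ _ (by simp)
  obtain ⟨s, t, hst, hd⟩ := pigeon (σ := Unit) L (fun n _ => τ (v : Qb) ^ n)
    (fun n _ => pow_mem hvL n) (fun n _ => by
      rw [norm_pow]
      exact pow_le_one₀ (norm_nonneg _) v.2) (ε := 1 / 2) (by norm_num) 1
  refine ⟨t - s, by omega, ?_⟩
  have h1 : (Ideal.Quotient.mk (Om τ) v) ^ s = (Ideal.Quotient.mk (Om τ) v) ^ t := by
    rw [← map_pow, ← map_pow, Ideal.Quotient.eq, mem_Om]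
    have e1 : τ ((v ^ s - v ^ t : O τ) : Qb) = τ (v : Qb) ^ s - τ (v : Qb) ^ t := by
      rw [AddSubgroupClass.coe_sub, SubmonoidClass.coe_pow, SubmonoidClass.coe_pow, map_sub,
        map_pow, map_pow]
    rw [e1]
    exact (hd ()).trans_lt (by norm_num)
  have h2 : (Ideal.Quotient.mk (Om τ) v) ^ t =
      (Ideal.Quotient.mk (Om τ) v) ^ s * (Ideal.Quotient.mk (Om τ) v) ^ (t - s) := by
    rw [← pow_add]
    congr 1
    omega
  rw [h2] at h1
  have h3 := pow_ne_zero s hu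
  exact (mul_right_eq_self₀.1 h1.symm).resolve_right h3

end

end Pool.Agent.H78.Zd
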