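import Pool.Agent.H78.Zd.L3

/-!
# Units along the orbits of skew linear maps
-/

set_option autoImplicit false

namespace Pool.Agent.H78.Zd

open Polynomial Filter Topology

/-- compositions of affine maps -/
theorem affine_comp {K : Type} [Field K] (α β : ℕ → K) (hα : ∀ m, α m ≠ 0) (m : ℕ) :
    ∃ A B : K, A ≠ 0 ∧ ∀ t : ℕ → K, (∀ m, t (m + 1) = α m * t m + β m) → t m = A * t 0 + B := by
  induction m with
  | zero => exact ⟨1, 0, one_ne_zero, fun t _ => by ring⟩
  | succ m ih =>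
    obtain ⟨A, B, hA, h⟩ := ih
    refine ⟨α m * A, α m * B + β m, mul_ne_zero (hα m) hA, fun t ht => ?_⟩
    rw [ht, h t ht]
    ring

section
variable {p : ℕ} [Fact p.Prime] (τ : Qb →+* PadicAlgCl p)

theorem char_zero' : ((p : ℕ) : k τ) = 0 := by
  have e1 : ((p : ℕ) : k τ) = Ideal.Quotient.mk (Om τ) ((p : ℕ) : O τ) := by rw [map_natCast]
  rw [e1, Ideal.Quotient.eq_zero_iff_mem, mem_Om]
  have e2 : ∀ q : ℕ, τ (((q : O τ)) : Qb) = (q : PadicAlgCl p) := fun q => by simp
  rw [e2 p]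
  exact nnat_lt (dvd_refl _)

/-- a uniform period -/
theorem affine_per (α β : ℕ → k τ) (hα : ∀ m, α m ≠ 0) (l : ℕ) (hl : 0 < l)
    (h1 : ∀ m, α (m + l) = α m) (h2 : ∀ m, β (m + l) = β m) :
    ∃ r, 0 < r ∧ ∀ t : ℕ → k τ, (∀ m, t (m + 1) = α m * t m + β m) → ∀ m, t (m + l * r) = t m := by
  obtain ⟨A, B, hA, hAB⟩ := affine_comp α β hα l
  obtain ⟨r₁, hr₁, hr⟩ := root_unity τ A hA
  refine ⟨r₁ * p, Nat.mul_pos hr₁ (Fact.out : p.Prime).pos, fun t ht => ?_⟩
  have h3 : ∀ m, α (m + l) = α m ∧ β (m + l) = β m := fun m => ⟨h1 m, h2 m⟩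
  have h4 : ∀ q m, α (m + l * q) = α m ∧ β (m + l * q) = β m := by
    intro q
    induction q with
    | zero => intro m; simp
    | succ q ih =>
      intro m
      have e1 : m + l * (q + 1) = m + l * q + l := by ring
      rw [e1, (h3 _).1, (h3 _).2]
      exact ih m
  have h5 : ∀ q, t (l * q) = (fun y => A * y + B)^[q] (t 0) := by
    intro q
    induction q with
    | zero => simp
    | succ q ih =>
      rw [Function.iterate_succ_apply', ← ih]
      have := hAB (fun m => t (m + l * q)) (fun m => by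
        show t (m + 1 + l * q) = α m * t (m + l * q) + β m
        have e1 : m + 1 + l * q = m + l * q + 1 := by ring
        rw [e1, ht, (h4 q m).1, (h4 q m).2])
      simp only [zero_add] at this
      rw [Nat.mul_succ, add_comm (l * q) l]
      exact this
  intro m
  induction m with
  | zero =>
    rw [zero_add, h5, affine_order p (char_zero' τ) A B r₁ hr]
  | succ m ih =>
    have e1 : m + 1 + l * (r₁ * p) = m + l * (r₁ * p) + 1 := by ring
    rw [e1, ht, ih, (h4 _ m).1, (h4 _ m).2, ← ht]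

theorem unit_lin {n : ℕ} {z : ℕ → Fin n → Qb} (hz : Good τ z) (a b : MvPolynomial (Fin n) Qb)
    (hai : ∀ m ∈ a.support, ‖τ (a.coeff m)‖ ≤ 1) (hbi : ∀ m ∈ b.support, ‖τ (b.coeff m)‖ ≤ 1)
    (ha : ∀ m, ‖τ (MvPolynomial.eval (z m) a)‖ = 1)
    (BB : Finset (MvPolynomial (Fin (n + 1)) Qb)) (ix : MvPolynomial (Fin (n + 1)) Qb → ℕ)
    (hBi : ∀ B ∈ BB, ∀ m ∈ B.support, ‖τ (B.coeff m)‖ ≤ 1)
    (hB : ∀ B ∈ BB, ∀ m, ‖τ (MvPolynomial.eval (z m)
      ((MvPolynomial.finSuccEquiv Qb n B).coeff (ix B)))‖ = 1) :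
    ∃ t : Qb, ‖τ t‖ ≤ 1 ∧ ∀ x : ℕ → Qb,
      (∀ m, x (m + 1) = MvPolynomial.eval (z m) a * x m + MvPolynomial.eval (z m) b) →
      ‖τ (x 0) - τ t‖ < 1 →
      Good τ (fun m => (Fin.cons (x m) (z m) : Fin (n + 1) → Qb)) ∧
      ∀ B ∈ BB, ∀ m, ‖τ (MvPolynomial.eval (Fin.cons (x m) (z m) : Fin (n + 1) → Qb) B)‖ = 1 := by
  classical
  obtain ⟨a', ha'⟩ := lift_mv τ a hai
  obtain ⟨b', hb'⟩ := lift_mv τ b hbi
  choose! lf hlf using fun B hB => lift_mv τ B (hBi B hB)
  let z' : ℕ → Fin n → O τ := fun m i => ⟨z m i, hz.int m i⟩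
  have hev : ∀ (c : MvPolynomial (Fin n) Qb) (c' : MvPolynomial (Fin n) (O τ)),
      MvPolynomial.map (O τ).subtype c' = c → ∀ m,
      ((MvPolynomial.eval (z' m) c' : O τ) : Qb) = MvPolynomial.eval (z m) c := by
    intro c c' hc m
    rw [← hc, MvPolynomial.eval_map]
    exact (MvPolynomial.eval₂_comp (O τ).subtype (z' m) c')
  let α : ℕ → k τ := fun m => Ideal.Quotient.mk (Om τ) (MvPolynomial.eval (z' m) a')
  let β : ℕ → k τ := fun m => Ideal.Quotient.mk (Om τ) (MvPolynomial.eval (z' m) b')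
  have hα0 : ∀ m, α m ≠ 0 := by
    intro m
    show Ideal.Quotient.mk (Om τ) (MvPolynomial.eval (z' m) a') ≠ 0
    rw [ne_eq, Ideal.Quotient.eq_zero_iff_mem, mem_Om, hev a a' ha', ha]
    exact lt_irrefl _
  let eb : MvPolynomial (Fin (n + 1)) Qb → ℕ → (k τ)[X] := fun B m =>
    ((MvPolynomial.finSuccEquiv (O τ) n (lf B)).map (MvPolynomial.eval (z' m))).map
      (Ideal.Quotient.mk (Om τ))
  have heb0 : ∀ B ∈ BB, ∀ m, eb B m ≠ 0 := by
    intro B hBB m h0
    have h1 := congrArg (fun q => q.coeff (ix B)) h0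
    simp only [eb, coeff_map, coeff_zero] at h1
    rw [Ideal.Quotient.eq_zero_iff_mem, mem_Om, coeff_lift, hlf B hBB] at h1
    have h2 := hB B hBB m
    exact absurd h1 (not_lt.2 h2.ge)
  obtain ⟨l, hl0, hl⟩ := hz.per
  have hzl : ∀ m i, z' (m + l) i - z' m i ∈ Om τ := by
    intro m i
    rw [mem_Om]
    show ‖τ (z (m + l) i - z m i)‖ < 1
    rw [map_sub]
    exact hl m i
  have hcm : ∀ m (c : MvPolynomial (Fin n) (O τ)),
      Ideal.Quotient.mk (Om τ) (MvPolynomial.eval (z' (m + l)) c) =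
      Ideal.Quotient.mk (Om τ) (MvPolynomial.eval (z' m) c) := fun m c =>
    congrArg (fun φ => φ c) (comp_mk (Om τ) (hzl m))
  obtain ⟨r, hr0, hr⟩ := affine_per τ α β hα0 l hl0 (fun m => hcm m a') (fun m => hcm m b')
  have hebper : ∀ B m, eb B (m + l) = eb B m := by
    intro B m
    show (Polynomial.map _ _).map _ = (Polynomial.map _ _).map _
    rw [Polynomial.map_map, Polynomial.map_map, comp_mk (Om τ) (hzl m)]
  have hebper' : ∀ B q m, eb B (m + l * q) = eb B m := by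
    intro B q
    induction q with
    | zero => intro m; simp
    | succ q ih =>
      intro m
      have e1 : m + l * (q + 1) = m + l * q + l := by ring
      rw [e1, hebper]
      exact ih m
  choose A Bc hA hAB using affine_comp α β hα0
  set P : (k τ)[X] := ∏ B ∈ BB, ∏ m ∈ Finset.range (l * r),
    (eb B m).comp (C (A m) * X + C (Bc m)) with hP
  have hP0 : P ≠ 0 := by
    refine Finset.prod_ne_zero_iff.2 fun B hBB => Finset.prod_ne_zero_iff.2 fun m _ h0 => ?_
    rcases comp_eq_zero_iff.1 h0 with h1 | ⟨-, h1⟩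
    · exact heb0 B hBB m h1
    · have h2 := congrArg (fun q => q.coeff 1) h1
      simp only [coeff_add, coeff_C_mul, coeff_X_one, mul_one, coeff_C_succ, add_zero] at h2
      exact hA m h2
  have hinf : Infinite (k τ) := IsAlgClosed.instInfinite
  obtain ⟨tb, htb⟩ : ∃ t, P.eval t ≠ 0 := by
    by_contra hcon
    push Not at hcon
    exact hP0 (Polynomial.funext fun t => by rw [hcon t, eval_zero])
  obtain ⟨t, ht⟩ := Ideal.Quotient.mk_surjective tb
  refine ⟨(t : Qb), t.2, fun x hx hxt => ?_⟩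
  have hx1 : ‖τ (x 0)‖ ≤ 1 := by
    have e1 : τ (x 0) = (τ (x 0) - τ t) + τ t := by ring
    rw [e1]
    exact nadd hxt.le t.2
  have hgood := good_lin τ hz a b hai hbi ha x hx hx1
  refine ⟨hgood, fun B hBB m => ?_⟩
  let x' : ℕ → O τ := fun m => ⟨x m, hgood.int m 0⟩
  have hx' : ∀ m, x' (m + 1) = MvPolynomial.eval (z' m) a' * x' m + MvPolynomial.eval (z' m) b' := by
    intro m
    apply Subtype.ext
    rw [AddMemClass.coe_add, MulMemClass.coe_mul, hev a a' ha', hev b b' hb']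
    exact hx m
  set T : ℕ → k τ := fun m => Ideal.Quotient.mk (Om τ) (x' m) with hT
  have hT1 : ∀ m, T (m + 1) = α m * T m + β m := by
    intro m
    show Ideal.Quotient.mk (Om τ) (x' (m + 1)) = _
    rw [hx', map_add, map_mul]
  have hT0 : T 0 = tb := by
    show Ideal.Quotient.mk (Om τ) (x' 0) = _
    rw [← ht, Ideal.Quotient.eq, mem_Om]
    show ‖τ (x 0 - t)‖ < 1
    rw [map_sub]; exact hxt
  have hTper : ∀ q m, T (m + l * r * q) = T m := by
    intro q
    induction q with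
    | zero => intro m; simp
    | succ q ih =>
      intro m
      have e1 : m + l * r * (q + 1) = m + l * r * q + l * r := by ring
      rw [e1, hr T hT1]
      exact ih m
  have h1 : ((MvPolynomial.eval (Fin.cons (x' m) (z' m) : Fin (n + 1) → O τ) (lf B) : O τ) : Qb) =
      MvPolynomial.eval (Fin.cons (x m) (z m) : Fin (n + 1) → Qb) B := by
    have hcoe : (fun i => (((Fin.cons (x' m) (z' m) : Fin (n + 1) → O τ) i : O τ) : Qb)) =
        (Fin.cons (x m) (z m) : Fin (n + 1) → Qb) := by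
      funext i
      refine Fin.cases ?_ (fun i => ?_) i
      · simp [x']
      · simp [z']
    conv_rhs => rw [← hlf B hBB, MvPolynomial.eval_map, ← hcoe]
    exact (MvPolynomial.eval₂_comp (O τ).subtype _ (lf B)).symm ▸ rfl
  rw [← h1]
  apply norm_eq_one
  rw [← Ideal.Quotient.eq_zero_iff_mem, MvPolynomial.eval_eq_eval_mv_eval', ← eval_map_apply]
  have h2 : m = m % (l * r) + l * r * (m / (l * r)) := (Nat.mod_add_div m (l * r)).symm
  have h3 : T m = T (m % (l * r)) := by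
    conv_lhs => rw [h2]
    exact hTper _ _
  have h4 : eb B m = eb B (m % (l * r)) := by
    conv_lhs => rw [h2, mul_assoc]
    exact hebper' B _ _
  show (eb B m).eval (T m) ≠ 0
  rw [h3, h4, hAB _ T hT1, hT0]
  rw [hP, eval_prod] at htb
  have h5 := Finset.prod_ne_zero_iff.1 htb B hBB
  rw [eval_prod] at h5
  have h6 := Finset.prod_ne_zero_iff.1 h5 (m % (l * r))
    (Finset.mem_range.2 (Nat.mod_lt _ (Nat.mul_pos hl0 hr0)))
  rw [eval_comp, eval_add, eval_mul, eval_C, eval_X, eval_C] at h6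
  exact h6

end

end Pool.Agent.H78.Zd
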