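import Pool.Agent.H78.Zd.L4

/-!
# The induction step for linear coordinates
-/

set_option autoImplicit false

namespace Pool.Agent.H78.Zd

open Polynomial Filter Topology

theorem PPB_lin {n : ℕ} (T : Fin n → MvPolynomial (Fin n) Qb) (h : PPB n (pm T) (fun B => B ≠ 0))
    (hT : Function.Injective (MvPolynomial.aeval T : MvPolynomial (Fin n) Qb →ₐ[Qb] _))
    (a b : MvPolynomial (Fin n) Qb) (ha : a ≠ 0)
    (hinv : ∀ p q : (MvPolynomial (Fin n) Qb)[X], q ≠ 0 →
      fs (MvPolynomial.aeval T : MvPolynomial (Fin n) Qb →ₐ[Qb] _).toRingHom a b p * q =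
        fs (MvPolynomial.aeval T : MvPolynomial (Fin n) Qb →ₐ[Qb] _).toRingHom a b q * p →
      ∃ c : Qb, p = C (MvPolynomial.C c) * q)
    (Ψ : (Fin (n + 1) → Qb) → (Fin (n + 1) → Qb))
    (hΨ : ∀ x z, Ψ (Fin.cons x z) = Fin.cons (MvPolynomial.eval z a * x + MvPolynomial.eval z b)
      (pm T z)) : PPB (n + 1) Ψ (fun B => B ≠ 0) := by
  classical
  intro k Z BB hBB
  set φ : MvPolynomial (Fin n) Qb →+* MvPolynomial (Fin n) Qb :=
    (MvPolynomial.aeval T : MvPolynomial (Fin n) Qb →ₐ[Qb] _).toRingHom with hφ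
  have hφT : ∀ c z, MvPolynomial.eval z (φ c) = MvPolynomial.eval (pm T z) c := by
    intro c z
    have h1 : (MvPolynomial.eval z).comp φ = MvPolynomial.eval (pm T z) := by
      apply MvPolynomial.ringHom_ext
      · intro c
        simp [hφ]
      · intro i
        simp [hφ, pm]
    exact congrArg (fun ψ => ψ c) h1
  obtain ⟨D₀, E₀, hD₀, hsec⟩ := exists_section φ a b hinv
  let e : MvPolynomial (Fin (n + 1)) Qb → ℕ := fun B => (MvPolynomial.finSuccEquiv Qb n B).natDegree
  have he : ∀ B, B ≠ 0 → (MvPolynomial.finSuccEquiv Qb n B).coeff (e B) ≠ 0 := by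
    intro B hB
    have h1 : MvPolynomial.finSuccEquiv Qb n B ≠ 0 := by
      intro h0
      exact hB ((map_eq_zero_iff _ (MvPolynomial.finSuccEquiv Qb n).injective).1 h0)
    exact leadingCoeff_ne_zero.2 h1
  obtain ⟨z₀, p, hp, τ, hinj, hZ, hgood, hdense, hunit⟩ := h (k + 1)
    (Z ∪ ((a.support.image (fun m => a.coeff m) ∪ b.support.image (fun m => b.coeff m)) ∪
      (E₀.support.image (fun m => E₀.coeff m) ∪
        BB.biUnion fun B => B.support.image fun m => B.coeff m)))
    (insert a (insert D₀ (BB.image fun B => (MvPolynomial.finSuccEquiv Qb n B).coeff (e B)))) (by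
      intro B hB
      rcases Finset.mem_insert.1 hB with rfl | hB
      · exact ha
      · rcases Finset.mem_insert.1 hB with rfl | hB
        · exact hD₀
        · obtain ⟨B', hB', rfl⟩ := Finset.mem_image.1 hB
          exact he B' (hBB B' hB'))
  have hai : ∀ j, ∀ m ∈ a.support, ‖τ j (a.coeff m)‖ ≤ 1 := fun j m hm => hZ j _
    (Finset.mem_union_right _ (Finset.mem_union_left _ (Finset.mem_union_left _
      (Finset.mem_image_of_mem _ hm))))
  have hbi : ∀ j, ∀ m ∈ b.support, ‖τ j (b.coeff m)‖ ≤ 1 := fun j m hm => hZ j _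
    (Finset.mem_union_right _ (Finset.mem_union_left _ (Finset.mem_union_right _
      (Finset.mem_image_of_mem _ hm))))
  have hEi : ∀ j, ∀ m ∈ E₀.support, ‖τ j (E₀.coeff m)‖ ≤ 1 := fun j m hm => hZ j _
    (Finset.mem_union_right _ (Finset.mem_union_right _ (Finset.mem_union_left _
      (Finset.mem_image_of_mem _ hm))))
  have hBi : ∀ j, ∀ B ∈ BB, ∀ m ∈ B.support, ‖τ j (B.coeff m)‖ ≤ 1 := fun j B hB m hm => hZ j _
    (Finset.mem_union_right _ (Finset.mem_union_right _ (Finset.mem_union_right _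
      (Finset.mem_biUnion.2 ⟨B, hB, Finset.mem_image_of_mem _ hm⟩))))
  have ha1 : ∀ j m, ‖τ j (MvPolynomial.eval ((pm T)^[m] z₀) a)‖ = 1 := fun j m =>
    hunit j a (Finset.mem_insert_self _ _) m
  have hD1 : ∀ j m, ‖τ j (MvPolynomial.eval ((pm T)^[m] z₀) D₀)‖ = 1 := fun j m =>
    hunit j D₀ (Finset.mem_insert_of_mem (Finset.mem_insert_self _ _)) m
  have hne : ∀ c : MvPolynomial (Fin n) Qb,
      (∀ m, ‖τ 0 (MvPolynomial.eval ((pm T)^[m] z₀) c)‖ = 1) →
      ∀ m, MvPolynomial.eval ((pm T)^[m] z₀) c ≠ 0 := by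
    intro c hc m h0
    have := hc m
    rw [h0, map_zero, norm_zero] at this
    exact zero_ne_one this
  choose t ht1 ht2 using fun j => unit_lin (τ j) (hgood j) a b (hai j) (hbi j) (ha1 j) BB e (hBi j)
    (fun B hB m => hunit j _ (Finset.mem_insert_of_mem (Finset.mem_insert_of_mem
      (Finset.mem_image_of_mem _ hB))) m)
  obtain ⟨x, hx0, hx1⟩ := approx p hp hinj τ (fun j => if j = 0 then 0 else t j) (by
    intro j
    split_ifs
    · rw [map_zero, norm_zero]; exact zero_le_one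
    · exact ht1 j) (if_pos rfl)
  obtain ⟨xs', hxs0, hxs⟩ : ∃ xs' : ℕ → Qb, xs' 0 = x ∧ ∀ m, xs' (m + 1) =
      MvPolynomial.eval ((pm T)^[m] z₀) a * xs' m + MvPolynomial.eval ((pm T)^[m] z₀) b :=
    ⟨fun m => Nat.rec x (fun m y => MvPolynomial.eval ((pm T)^[m] z₀) a * y +
      MvPolynomial.eval ((pm T)^[m] z₀) b) m, rfl, fun m => rfl⟩
  have horb : ∀ m, Ψ^[m] (Fin.cons x z₀) = Fin.cons (xs' m) ((pm T)^[m] z₀) := by
    intro m
    induction m with
    | zero => rw [hxs0]; rfl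
    | succ m ih =>
      rw [Function.iterate_succ_apply', ih, hΨ, ← Function.iterate_succ_apply' (pm T), hxs]
  have hnear : ∀ j : Fin k, ‖τ j.succ (xs' 0) - τ j.succ (t j.succ)‖ < 1 := by
    intro j
    rw [hxs0]
    have := hx1 j.succ (Fin.succ_ne_zero j)
    simpa [Fin.succ_ne_zero] using this
  refine ⟨Fin.cons x z₀, fun j => p j.succ, fun j => hp j.succ, fun j => τ j.succ,
    ?_, ?_, ?_, ?_, ?_⟩
  · intro i j hij
    exact Fin.succ_injective _ (hinj hij)
  · intro j z hz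
    exact hZ j.succ z (Finset.mem_union_left _ hz)
  · intro j
    simp only [horb]
    exact (ht2 j.succ xs' hxs (hnear j)).1
  · simp only [horb]
    refine dens_lin (fun m => (pm T)^[m] z₀) hdense φ hT (fun c m => ?_) a b ha xs' hxs ?_ D₀ E₀
      hsec (hne D₀ (hD1 0)) (hne a (ha1 0)) ?_
    · rw [hφT, ← Function.iterate_succ_apply' (pm T)]
    · intro p q hq hpq
      obtain ⟨c, hc⟩ := hinv p q hq hpq
      exact ⟨_, hc⟩
    · intro h0
      have h1 := congrArg (fun y => ‖τ 0 y‖) h0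
      simp only [map_mul, norm_mul] at h1
      rw [hD1 0 0, one_mul, hxs0] at h1
      have h2 : ‖τ 0 (MvPolynomial.eval ((pm T)^[0] z₀) E₀)‖ ≤ 1 :=
        eval_mem_subring (O (τ 0)) E₀ (hEi 0) _ ((hgood 0).int 0)
      rw [← h1] at h2
      exact absurd hx0 (not_lt.2 h2)
  · intro j B hB m
    simp only [horb]
    exact (ht2 j.succ xs' hxs (hnear j)).2 B hB m

/-- the space of dimension zero -/
theorem PPB_zero (f : Fin 0 → MvPolynomial (Fin 0) Qb) : PPB 0 (pm f) (fun B => B ≠ 0) := by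
  classical
  refine PPB_mono (PPB_base f f (fun y => Subsingleton.elim _ _) (fun i => i.elim0) ?_) ?_
  · intro R hR
    have h1 := hR 0
    rw [MvPolynomial.eq_C_of_isEmpty R, MvPolynomial.eval_C] at h1
    rw [MvPolynomial.eq_C_of_isEmpty R, h1, map_zero]
  · intro B hB
    refine ⟨B.coeff 0, ?_, MvPolynomial.eq_C_of_isEmpty B⟩
    intro h0
    apply hB
    rw [MvPolynomial.eq_C_of_isEmpty B, h0, map_zero]

end Pool.Agent.H78.Zd
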