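import Pool.Agent.H78.Zd.L5
import Pool.Agent.H78.Zd.K2

/-!
# All triangular maps
-/

set_option autoImplicit false

namespace Pool.Agent.H78.Zd

open Polynomial Filter Topology

theorem no_extra {n : ℕ} (g : Fin (n + 1) → MvPolynomial (Fin n) Qb)
    (hg : Function.Injective (MvPolynomial.aeval g :
      MvPolynomial (Fin (n + 1)) Qb →ₐ[Qb] MvPolynomial (Fin n) Qb)) : False := by
  have h1 : AlgebraicIndependent Qb g := hg
  have h2 := h1.cardinalMk_le_trdeg
  rw [MvPolynomial.trdeg_of_isDomain, Cardinal.mk_fin, Cardinal.lift_id, Cardinal.mk_fin] at h2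
  have h3 : n + 1 ≤ n := by exact_mod_cast h2
  omega

theorem fin_succ_fs {n : ℕ} (f : Fin (n + 1) → MvPolynomial (Fin (n + 1)) Qb)
    (T : Fin n → MvPolynomial (Fin n) Qb)
    (hT : ∀ i : Fin n, MvPolynomial.rename Fin.succ (T i) = f i.succ)
    (a b : MvPolynomial (Fin n) Qb)
    (hf0 : f 0 = MvPolynomial.rename Fin.succ a * MvPolynomial.X 0 +
      MvPolynomial.rename Fin.succ b) (P : MvPolynomial (Fin (n + 1)) Qb) :
    MvPolynomial.finSuccEquiv Qb n (MvPolynomial.aeval f P) =
      fs (MvPolynomial.aeval T : MvPolynomial (Fin n) Qb →ₐ[Qb] _).toRingHom a b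
        (MvPolynomial.finSuccEquiv Qb n P) := by
  induction P using MvPolynomial.induction_on with
  | C c =>
    have e1 : MvPolynomial.finSuccEquiv Qb n (MvPolynomial.C c) = C (MvPolynomial.C c) := by
      rw [← MvPolynomial.rename_C (Fin.succ : Fin n → Fin (n + 1)), finSucc_rename]
    rw [MvPolynomial.algHom_C, ← MvPolynomial.algebraMap_eq] at *
    rw [MvPolynomial.algebraMap_eq] at *
    rw [e1, fs_C]
    simp
  | add P Q hP hQ => rw [map_add, map_add, hP, hQ, map_add, map_add]
  | mul_X P i hP =>
    rw [map_mul, map_mul, hP, map_mul, map_mul, MvPolynomial.aeval_X]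
    congr 1
    rcases Fin.eq_zero_or_eq_succ i with rfl | ⟨i, rfl⟩
    · rw [MvPolynomial.finSuccEquiv_X_zero, fs_X, hf0, map_add, map_mul, finSucc_rename,
        finSucc_rename, MvPolynomial.finSuccEquiv_X_zero]
    · rw [MvPolynomial.finSuccEquiv_X_succ, fs_C, ← hT, finSucc_rename]
      simp

theorem tri_all (n : ℕ) : ∀ (f : Fin n → MvPolynomial (Fin n) Qb)
    (_ : ∀ i j, j < i → (f i).degreeOf j = 0)
    (_ : Function.Injective (MvPolynomial.aeval f :
      MvPolynomial (Fin n) Qb →ₐ[Qb] MvPolynomial (Fin n) Qb))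
    (_ : ∀ P Q : MvPolynomial (Fin n) Qb, Q ≠ 0 →
      MvPolynomial.aeval f P * Q = MvPolynomial.aeval f Q * P → ∃ c : Qb, P = MvPolynomial.C c * Q),
    PPB n (pm f) (fun B => B ≠ 0) := by
  classical
  induction n with
  | zero => intro f _ _ _; exact PPB_zero f
  | succ n ih =>
    intro f htri hdom hinv
    have hinj : Function.Injective (Fin.succ : Fin n → Fin (n + 1)) := Fin.succ_injective _
    have hrinj : Function.Injective (MvPolynomial.rename Fin.succ :
        MvPolynomial (Fin n) Qb →ₐ[Qb] MvPolynomial (Fin (n + 1)) Qb) :=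
      MvPolynomial.rename_injective _ hinj
    have hex0 : ∀ F : MvPolynomial (Fin (n + 1)) Qb, F.degreeOf 0 = 0 →
        ∃ q : MvPolynomial (Fin n) Qb, MvPolynomial.rename Fin.succ q = F := by
      intro F hF
      apply MvPolynomial.exists_rename_eq_of_vars_subset_range _ _ hinj
      intro j hj
      rw [Finset.mem_coe, MvPolynomial.mem_vars_iff_degreeOf_ne_zero] at hj
      rcases Fin.eq_zero_or_eq_succ j with rfl | ⟨j', rfl⟩
      · exact absurd hF hj
      · exact ⟨j', rfl⟩
    choose T hT using fun i : Fin n => hex0 (f i.succ) (htri i.succ 0 (Fin.succ_pos i))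
    have hcomm : ∀ q : MvPolynomial (Fin n) Qb, MvPolynomial.aeval f (MvPolynomial.rename Fin.succ q) =
        MvPolynomial.rename Fin.succ (MvPolynomial.aeval T q) := by
      intro q
      have h1 : ((MvPolynomial.aeval f).comp (MvPolynomial.rename Fin.succ) :
          MvPolynomial (Fin n) Qb →ₐ[Qb] MvPolynomial (Fin (n + 1)) Qb) =
          (MvPolynomial.rename Fin.succ).comp (MvPolynomial.aeval T) := by
        apply MvPolynomial.algHom_ext
        intro i
        simp [hT]
      exact congrArg (fun ψ => ψ q) h1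
    have hTinj : Function.Injective (MvPolynomial.aeval T :
        MvPolynomial (Fin n) Qb →ₐ[Qb] MvPolynomial (Fin n) Qb) := by
      intro p q hpq
      apply hrinj
      apply hdom
      rw [hcomm, hcomm, hpq]
    have hTinv : ∀ P Q : MvPolynomial (Fin n) Qb, Q ≠ 0 →
        MvPolynomial.aeval T P * Q = MvPolynomial.aeval T Q * P →
        ∃ c : Qb, P = MvPolynomial.C c * Q := by
      intro P Q hQ hPQ
      obtain ⟨c, hc⟩ := hinv (MvPolynomial.rename Fin.succ P) (MvPolynomial.rename Fin.succ Q)
        (by rwa [ne_eq, map_eq_zero_iff _ hrinj]) (by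
          rw [hcomm, hcomm, ← map_mul, ← map_mul, hPQ])
      exact ⟨c, hrinj (by rw [hc, map_mul, MvPolynomial.rename_C])⟩
    have IH := ih T (fun i j hij => by
      rw [← MvPolynomial.degreeOf_rename_of_injective hinj, hT]
      exact htri i.succ j.succ (Fin.succ_lt_succ_iff.2 hij)) hTinj hTinv
    rcases Nat.lt_or_ge ((f 0).degreeOf 0) 2 with hlt | hge
    · have hd0 : (f 0).degreeOf 0 ≠ 0 := by
        intro h0
        obtain ⟨q, hq⟩ := hex0 (f 0) h0
        apply no_extra (Fin.cons q T : Fin (n + 1) → MvPolynomial (Fin n) Qb)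
        have h1 : ((MvPolynomial.rename Fin.succ).comp (MvPolynomial.aeval
            (Fin.cons q T : Fin (n + 1) → MvPolynomial (Fin n) Qb)) :
            MvPolynomial (Fin (n + 1)) Qb →ₐ[Qb] MvPolynomial (Fin (n + 1)) Qb) =
            MvPolynomial.aeval f := by
          apply MvPolynomial.algHom_ext
          intro i
          rcases Fin.eq_zero_or_eq_succ i with rfl | ⟨i, rfl⟩
          · simp [hq]
          · simp [hT]
        intro x y hxy
        apply hdom
        rw [← h1]
        show MvPolynomial.rename Fin.succ (MvPolynomial.aeval _ x) =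
          MvPolynomial.rename Fin.succ (MvPolynomial.aeval _ y)
        rw [hxy]
      have hd1 : (f 0).degreeOf 0 = 1 := by omega
      have hF0 : f 0 ≠ 0 := by
        intro h0
        rw [h0, MvPolynomial.degreeOf_zero] at hd1
        exact zero_ne_one hd1
      obtain ⟨c, h1, h2, h3⟩ := Pool.Agent.TH61.TRI.decomp (f 0) 0 hF0
      rw [hd1] at h1 h3
      have hc : ∀ k, (c k).degreeOf 0 = 0 := by
        intro k
        by_contra hne
        rw [← ne_eq, ← MvPolynomial.mem_vars_iff_degreeOf_ne_zero] at hne
        exact (h2 k 0 hne).2 rfl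
      obtain ⟨a, ha⟩ := hex0 (c 1) (hc 1)
      obtain ⟨b, hb⟩ := hex0 (c 0) (hc 0)
      have hf0 : f 0 = MvPolynomial.rename Fin.succ a * MvPolynomial.X 0 +
          MvPolynomial.rename Fin.succ b := by
        conv_lhs => rw [h1]
        rw [Finset.sum_range_succ, Finset.sum_range_succ, Finset.sum_range_zero, zero_add, pow_zero,
          mul_one, pow_one, ha, hb]
        exact add_comm _ _
      have ha0 : a ≠ 0 := by
        rintro rfl
        rw [map_zero] at ha
        exact h3 ha.symm
      refine PPB_lin T IH hTinj a b ha0 (fun p q hq hpq => ?_) _ ?_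
      · obtain ⟨P, rfl⟩ := (MvPolynomial.finSuccEquiv Qb n).surjective p
        obtain ⟨Q, rfl⟩ := (MvPolynomial.finSuccEquiv Qb n).surjective q
        rw [← fin_succ_fs f T hT a b hf0, ← fin_succ_fs f T hT a b hf0, ← map_mul, ← map_mul] at hpq
        obtain ⟨c, hc⟩ := hinv P Q (by rintro rfl; exact hq (map_zero _))
          ((MvPolynomial.finSuccEquiv Qb n).injective hpq)
        refine ⟨c, ?_⟩
        rw [← finSucc_rename, MvPolynomial.rename_C, ← map_mul, ← hc]
      · intro x z
        funext i
        refine Fin.cases ?_ (fun i => ?_) i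
        · rw [Fin.cons_zero]
          show MvPolynomial.eval _ (f 0) = _
          rw [hf0, map_add, map_mul, MvPolynomial.eval_rename, MvPolynomial.eval_rename,
            MvPolynomial.eval_X, Fin.cons_zero]
          congr 2
        · rw [Fin.cons_succ]
          show MvPolynomial.eval _ (f i.succ) = MvPolynomial.eval z (T i)
          rw [← hT, MvPolynomial.eval_rename]
          congr 1
    · obtain ⟨c, G, d, hf0, hd, hc0, hc, hG, -⟩ := decomp2 (f 0) 0
        (fun j hj => absurd hj (Fin.not_lt_zero j)) hge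
      obtain ⟨c', rfl⟩ := hex0 c (hc 0 le_rfl)
      refine PPB_step IH (fun B => B ≠ 0) (fun B hB => ?_) c' ?_ d hd G hG _ ?_
      · refine ⟨(MvPolynomial.finSuccEquiv Qb n B).natDegree, ?_⟩
        have h1 : MvPolynomial.finSuccEquiv Qb n B ≠ 0 := by
          intro h0
          exact hB ((map_eq_zero_iff _ (MvPolynomial.finSuccEquiv Qb n).injective).1 h0)
        exact leadingCoeff_ne_zero.2 h1
      · rintro rfl
        exact hc0 (map_zero _)
      · intro x z
        funext i
        refine Fin.cases ?_ (fun i => ?_) i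
        · rw [Fin.cons_zero]
          show MvPolynomial.eval _ (f 0) = _
          rw [hf0]
        · rw [Fin.cons_succ]
          show MvPolynomial.eval _ (f i.succ) = MvPolynomial.eval z (T i)
          rw [← hT, MvPolynomial.eval_rename]
          congr 1

end Pool.Agent.H78.Zd
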