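import Pool.Agent.H78.Zd.L6

/-!
# Invariant elements of fields with endomorphisms
-/

set_option autoImplicit false

namespace Pool.Agent.H78.Zd

open Polynomial

section field
variable {K : Type} [Field K] [Algebra Qb K]

theorem mem_of_alg (x : K) (hx : IsAlgebraic Qb x) : ∃ c : Qb, algebraMap Qb K c = x :=
  minpoly.mem_range_of_degree_eq_one Qb x
    (IsAlgClosed.degree_eq_one_of_irreducible Qb (minpoly.irreducible hx.isIntegral))

theorem inv_iter (σ : K →+* K) (h : ∀ x, σ x = x → ∃ c : Qb, algebraMap Qb K c = x) (k : ℕ)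
    (hk : 0 < k) (x : K) (hx : σ^[k] x = x) : ∃ c : Qb, algebraMap Qb K c = x := by
  classical
  set P : K[X] := ∏ i ∈ Finset.range k, (X - C (σ^[i] x)) with hP
  have hPm : P.Monic := monic_prod_of_monic _ _ fun i _ => monic_X_sub_C _
  have h1 : P.map σ = P := by
    rw [hP, Polynomial.map_prod]
    have e1 : ∀ i, (X - C (σ^[i] x)).map σ = X - C (σ^[i + 1] x) := by
      intro i
      rw [Polynomial.map_sub, map_X, map_C, Function.iterate_succ_apply']
    simp only [e1]
    obtain ⟨k', rfl⟩ := Nat.exists_eq_succ_of_ne_zero hk.ne'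
    rw [Finset.prod_range_succ, Finset.prod_range_succ' (fun i => X - C (σ^[i] x))]
    rw [Nat.succ_eq_add_one] at hx
    rw [hx, Function.iterate_zero_apply]
  have h2 : ∀ i, P.coeff i ∈ Set.range (algebraMap Qb K) := fun i => h _ (by
    rw [← coeff_map, h1])
  obtain ⟨q, hq⟩ := (mem_lifts _).1 ((lifts_iff_coeff_lifts _).2 h2)
  apply mem_of_alg
  refine ⟨q, ?_, ?_⟩
  · rintro rfl
    rw [Polynomial.map_zero] at hq
    exact hPm.ne_zero hq.symm
  · rw [aeval_def, ← eval_map, hq, hP, eval_prod]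
    exact Finset.prod_eq_zero (Finset.mem_range.2 hk) (by simp)

theorem inv_quot (σA σB σC : K →+* K)
    (hC : ∀ c : Qb, σC (algebraMap Qb K c) = algebraMap Qb K c)
    (hcomm : ∀ x, σB (σC x) = σC (σA x))
    (h : ∀ x, σA x = x → ∃ c : Qb, algebraMap Qb K c = x) (y : K) (hy : σB y = y)
    (halg : ∃ p : K[X], p ≠ 0 ∧ p.eval₂ σC y = 0) : ∃ c : Qb, algebraMap Qb K c = y := by
  classical
  have hex : ∃ d, ∃ p : K[X], p.natDegree = d ∧ p ≠ 0 ∧ p.eval₂ σC y = 0 := by
    obtain ⟨p, h1, h2⟩ := halg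
    exact ⟨_, p, rfl, h1, h2⟩
  obtain ⟨p, hpd, hp0, hp⟩ := Nat.find_spec hex
  have hmin : ∀ q : K[X], q ≠ 0 → q.eval₂ σC y = 0 → p.natDegree ≤ q.natDegree := by
    intro q h1 h2
    rw [hpd]
    exact Nat.find_min' hex ⟨q, rfl, h1, h2⟩
  set q : K[X] := p * C p.leadingCoeff⁻¹ with hq
  have hqm : q.Monic := monic_mul_leadingCoeff_inv hp0
  have hqd : q.natDegree = p.natDegree := by
    rw [hq, natDegree_mul_C (inv_ne_zero (leadingCoeff_ne_zero.2 hp0))]
  have hqe : q.eval₂ σC y = 0 := by rw [hq, eval₂_mul, hp, zero_mul]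
  have hqs : (q.map σA).eval₂ σC y = 0 := by
    rw [eval₂_map]
    have h1 := hom_eval₂ q σC σB y
    rw [hqe, map_zero, hy] at h1
    rw [h1]
    congr 1
    ext x
    exact (hcomm x).symm
  have hfix : q.map σA = q := by
    by_contra hne
    have h1 : q.map σA - q ≠ 0 := sub_ne_zero.2 hne
    have h2 : (q.map σA - q).eval₂ σC y = 0 := by rw [eval₂_sub, hqs, hqe, sub_zero]
    have h3 := hmin _ h1 h2
    have h4 : (q.map σA - q).degree < (q.map σA).degree := by
      refine degree_sub_lt_left ?_ (hqm.map σA).ne_zero ?_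
      · rw [degree_map]
      · rw [(hqm.map σA).leadingCoeff, hqm.leadingCoeff]
    have h5 := natDegree_lt_natDegree h1 h4
    rw [natDegree_map, hqd] at h5
    omega
  have h2 : ∀ i, q.coeff i ∈ Set.range (algebraMap Qb K) := fun i => h _ (by
    rw [← coeff_map, hfix])
  obtain ⟨r, hr⟩ := (mem_lifts _).1 ((lifts_iff_coeff_lifts _).2 h2)
  apply mem_of_alg
  refine ⟨r, ?_, ?_⟩
  · rintro rfl
    rw [Polynomial.map_zero] at hr
    exact hqm.ne_zero hr.symm
  · rw [← hr, eval₂_map] at hqe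
    rw [aeval_def, ← hqe]
    congr 1
    ext c
    exact (hC c).symm

end field

section frac
variable {n : ℕ}

/-- the ring of polynomials -/
abbrev RR (n : ℕ) := MvPolynomial (Fin n) Qb

/-- the field of rational functions -/
abbrev KK (n : ℕ) := FractionRing (MvPolynomial (Fin n) Qb)

/-- the endomorphism of the field of rational functions -/
noncomputable def sg (g : Fin n → RR n) (hg : Function.Injective (MvPolynomial.aeval g :
    RR n →ₐ[Qb] RR n)) : KK n →+* KK n :=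
  IsFractionRing.map (A := RR n) (B := RR n) (K := KK n) (L := KK n)
    (j := (MvPolynomial.aeval g : RR n →ₐ[Qb] RR n).toRingHom) hg

theorem sg_alg (g : Fin n → RR n) (hg : Function.Injective (MvPolynomial.aeval g :
    RR n →ₐ[Qb] RR n)) (P : RR n) :
    sg g hg (algebraMap (RR n) (KK n) P) = algebraMap (RR n) (KK n) (MvPolynomial.aeval g P) :=
  IsLocalization.map_eq (M := nonZeroDivisors (RR n)) (T := nonZeroDivisors (RR n))
    (nonZeroDivisors_le_comap_nonZeroDivisors_of_injective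
      (MvPolynomial.aeval g : RR n →ₐ[Qb] RR n).toRingHom hg) P

theorem sg_C (g : Fin n → RR n) (hg : Function.Injective (MvPolynomial.aeval g :
    RR n →ₐ[Qb] RR n)) (c : Qb) :
    sg g hg (algebraMap Qb (KK n) c) = algebraMap Qb (KK n) c := by
  rw [IsScalarTower.algebraMap_apply Qb (RR n) (KK n), sg_alg]
  congr 1
  exact AlgHom.commutes _ c

theorem inv_field (f : Fin n → RR n) (hf : Function.Injective (MvPolynomial.aeval f :
    RR n →ₐ[Qb] RR n)) (hinv : ∀ P Q : RR n, Q ≠ 0 →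
      MvPolynomial.aeval f P * Q = MvPolynomial.aeval f Q * P → ∃ c : Qb, P = MvPolynomial.C c * Q)
    (x : KK n) (hx : sg f hf x = x) : ∃ c : Qb, algebraMap Qb (KK n) c = x := by
  obtain ⟨P, Q, hQ, rfl⟩ := IsFractionRing.div_surjective (RR n) x
  have hQ0 : Q ≠ 0 := nonZeroDivisors.ne_zero hQ
  have hinj := IsFractionRing.injective (RR n) (KK n)
  have hQ1 : algebraMap (RR n) (KK n) Q ≠ 0 := (map_ne_zero_iff _ hinj).2 hQ0
  have hQ2 : algebraMap (RR n) (KK n) (MvPolynomial.aeval f Q) ≠ 0 :=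
    (map_ne_zero_iff _ hinj).2 ((map_ne_zero_iff _ hf).2 hQ0)
  rw [map_div₀, sg_alg, sg_alg, div_eq_div_iff hQ2 hQ1, ← map_mul, ← map_mul] at hx
  obtain ⟨c, hc⟩ := hinv P Q hQ0 (by rw [hinj hx]; ring)
  refine ⟨c, ?_⟩
  rw [hc, map_mul, mul_div_cancel_right₀ _ hQ1, IsScalarTower.algebraMap_apply Qb (RR n) (KK n)]
  rfl

theorem field_inv (f : Fin n → RR n) (hf : Function.Injective (MvPolynomial.aeval f :
    RR n →ₐ[Qb] RR n)) (hinv : ∀ x : KK n, sg f hf x = x → ∃ c : Qb, algebraMap Qb (KK n) c = x)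
    (P Q : RR n) (hQ : Q ≠ 0)
    (h : MvPolynomial.aeval f P * Q = MvPolynomial.aeval f Q * P) :
    ∃ c : Qb, P = MvPolynomial.C c * Q := by
  have hinj := IsFractionRing.injective (RR n) (KK n)
  have hQ1 : algebraMap (RR n) (KK n) Q ≠ 0 := (map_ne_zero_iff _ hinj).2 hQ
  have hQ2 : algebraMap (RR n) (KK n) (MvPolynomial.aeval f Q) ≠ 0 :=
    (map_ne_zero_iff _ hinj).2 ((map_ne_zero_iff _ hf).2 hQ)
  obtain ⟨c, hc⟩ := hinv (algebraMap (RR n) (KK n) P / algebraMap (RR n) (KK n) Q) (by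
    rw [map_div₀, sg_alg, sg_alg, div_eq_div_iff hQ2 hQ1, ← map_mul, ← map_mul, h]
    congr 1
    ring)
  refine ⟨c, hinj ?_⟩
  rw [map_mul, ← MvPolynomial.algebraMap_eq, ← IsScalarTower.algebraMap_apply, hc,
    div_mul_cancel₀ _ hQ1]

theorem alg_poly (π : Fin n → RR n) (hπ : Function.Injective (MvPolynomial.aeval π :
    RR n →ₐ[Qb] RR n)) (P : RR n) :
    ∃ q : (RR n)[X], q ≠ 0 ∧
      q.eval₂ (MvPolynomial.aeval π : RR n →ₐ[Qb] RR n).toRingHom P = 0 := by
  have h1 : AlgebraicIndependent Qb π := hπ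
  have h2 : IsTranscendenceBasis Qb π := h1.isTranscendenceBasis_of_trdeg_le_of_finite (by
    rw [MvPolynomial.trdeg_of_isDomain, Cardinal.lift_id])
  have h3 := h2.isAlgebraic
  obtain ⟨q, hq0, hq⟩ := h3.isAlgebraic P
  let ρ : RR n →+* Algebra.adjoin Qb (Set.range π) :=
    (MvPolynomial.aeval π : RR n →ₐ[Qb] RR n).toRingHom.codRestrict _ (fun x => by
      rw [Algebra.adjoin_range_eq_range_aeval]
      exact ⟨x, rfl⟩)
  have hρ : Function.Surjective ρ := by
    rintro ⟨y, hy⟩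
    have hy' := hy
    rw [Algebra.adjoin_range_eq_range_aeval] at hy'
    obtain ⟨x, hx⟩ := hy'
    exact ⟨x, Subtype.ext hx⟩
  obtain ⟨q', rfl⟩ := map_surjective ρ hρ q
  refine ⟨q', ?_, ?_⟩
  · rintro rfl
    exact hq0 (Polynomial.map_zero _)
  · rw [aeval_def, eval₂_map] at hq
    exact hq

theorem alg_frac (π : Fin n → RR n) (hπ : Function.Injective (MvPolynomial.aeval π :
    RR n →ₐ[Qb] RR n)) (y : KK n) : ∃ p : (KK n)[X], p ≠ 0 ∧ p.eval₂ (sg π hπ) y = 0 := by
  have hinj := IsFractionRing.injective (RR n) (KK n)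
  have h1 : ∀ P : RR n, IsAlgebraic (sg π hπ).fieldRange (algebraMap (RR n) (KK n) P) := by
    intro P
    obtain ⟨q, hq0, hq⟩ := alg_poly π hπ P
    refine ⟨(q.map (algebraMap (RR n) (KK n))).map (sg π hπ).rangeRestrictField, ?_, ?_⟩
    · rw [ne_eq, Polynomial.map_eq_zero, Polynomial.map_eq_zero_iff hinj]
      exact hq0
    · rw [aeval_def, eval₂_map, eval₂_map]
      have h2 := congrArg (algebraMap (RR n) (KK n)) hq
      rw [hom_eval₂, map_zero] at h2
      rw [← h2]
      congr 1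
      exact RingHom.ext fun x => sg_alg π hπ x
  obtain ⟨P, Q, hQ, rfl⟩ := IsFractionRing.div_surjective (RR n) y
  have h2 : IsAlgebraic (sg π hπ).fieldRange
      (algebraMap (RR n) (KK n) P / algebraMap (RR n) (KK n) Q) := by
    rw [div_eq_mul_inv]
    exact (h1 P).mul (h1 Q).inv
  obtain ⟨r, hr0, hr⟩ := h2
  obtain ⟨p, rfl⟩ := map_surjective _ (RingHom.rangeRestrictField_bijective (sg π hπ)).2 r
  refine ⟨p, ?_, ?_⟩
  · rintro rfl
    exact hr0 (Polynomial.map_zero _)
  · rw [aeval_def, eval₂_map] at hr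
    exact hr

end frac

end Pool.Agent.H78.Zd
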