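import Pool.Agent.H78.Zd.L7

/-!
# Iterates of polynomial maps
-/

set_option autoImplicit false

namespace Pool.Agent.H78.Zd

open Polynomial

section
variable {n : ℕ}

theorem eval_aeval' (g : Fin n → RR n) (y : Fin n → Qb) (P : RR n) :
    MvPolynomial.eval y (MvPolynomial.aeval g P) = MvPolynomial.eval (pm g y) P := by
  have h1 : (MvPolynomial.eval y).comp (MvPolynomial.aeval g : RR n →ₐ[Qb] RR n).toRingHom =
      MvPolynomial.eval (pm g y) := by
    apply MvPolynomial.ringHom_ext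
    · intro c
      simp
    · intro i
      simp [pm]
  exact congrArg (fun ψ => ψ P) h1

theorem eval_iter (f : Fin n → RR n) (k : ℕ) : ∀ (y : Fin n → Qb) (P : RR n),
    MvPolynomial.eval y ((MvPolynomial.aeval f : RR n →ₐ[Qb] RR n)^[k] P) =
      MvPolynomial.eval ((pm f)^[k] y) P := by
  induction k with
  | zero => intro y P; rfl
  | succ k ih =>
    intro y P
    rw [Function.iterate_succ_apply, ih, eval_aeval', Function.iterate_succ_apply']

theorem inj_iter (f : Fin n → RR n)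
    (hf : Function.Injective (MvPolynomial.aeval f : RR n →ₐ[Qb] RR n)) (k : ℕ) :
    Function.Injective (MvPolynomial.aeval f : RR n →ₐ[Qb] RR n)^[k] := hf.iterate k

theorem zero_iter (f : Fin n → RR n)
    (hf : Function.Injective (MvPolynomial.aeval f : RR n →ₐ[Qb] RR n)) (k : ℕ) (P : RR n)
    (h : (MvPolynomial.aeval f : RR n →ₐ[Qb] RR n)^[k] P = 0) : P = 0 := by
  have h0 : (MvPolynomial.aeval f : RR n →ₐ[Qb] RR n)^[k] 0 = 0 := by
    induction k with
    | zero => rfl
    | succ k ih =>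
      rw [Function.iterate_succ_apply, map_zero]
      exact ih (by
        rw [Function.iterate_succ_apply'] at h
        have h2 := (map_eq_zero_iff _ hf).1 h
        exact h2)
  exact inj_iter f hf k (by rw [h, h0])

/-- an algebraic equation with nonzero constant term -/
theorem alg_min (π : Fin n → RR n)
    (hπ : Function.Injective (MvPolynomial.aeval π : RR n →ₐ[Qb] RR n)) (R₀ : RR n)
    (hne : R₀ ≠ 0) : ∃ q : (RR n)[X], q.coeff 0 ≠ 0 ∧
      q.eval₂ (MvPolynomial.aeval π : RR n →ₐ[Qb] RR n).toRingHom R₀ = 0 := by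
  classical
  have hex : ∃ d, ∃ q : (RR n)[X], q.natDegree = d ∧ q ≠ 0 ∧
      q.eval₂ (MvPolynomial.aeval π : RR n →ₐ[Qb] RR n).toRingHom R₀ = 0 := by
    obtain ⟨q, h1, h2⟩ := alg_poly π hπ R₀
    exact ⟨_, q, rfl, h1, h2⟩
  obtain ⟨q, hqd, hq0, hq⟩ := Nat.find_spec hex
  have hmin : ∀ p : (RR n)[X], p ≠ 0 →
      p.eval₂ (MvPolynomial.aeval π : RR n →ₐ[Qb] RR n).toRingHom R₀ = 0 →
      q.natDegree ≤ p.natDegree := by
    intro p h1 h2
    rw [hqd]
    exact Nat.find_min' hex ⟨p, rfl, h1, h2⟩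
  refine ⟨q, fun h0 => ?_, hq⟩
  obtain ⟨p, rfl⟩ := X_dvd_iff.2 h0
  have hp0 : p ≠ 0 := right_ne_zero_of_mul hq0
  rw [eval₂_mul, eval₂_X] at hq
  have h1 := hmin p hp0 ((mul_eq_zero.1 hq).resolve_left hne)
  rw [natDegree_X_mul hp0] at h1
  omega

theorem sg_iter (f : Fin n → RR n)
    (hf : Function.Injective (MvPolynomial.aeval f : RR n →ₐ[Qb] RR n)) (k : ℕ) (P : RR n) :
    (sg f hf)^[k] (algebraMap (RR n) (KK n) P) =
      algebraMap (RR n) (KK n) ((MvPolynomial.aeval f : RR n →ₐ[Qb] RR n)^[k] P) := by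
  induction k with
  | zero => rfl
  | succ k ih => rw [Function.iterate_succ_apply', ih, sg_alg, Function.iterate_succ_apply']

end

end Pool.Agent.H78.Zd
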