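import Pool.Agent.H78.Zd.L8

/-!
# Points in the image of a dominant map
-/

set_option autoImplicit false

namespace Pool.Agent.H78.Zd

open Polynomial

/-- extension of homomorphisms to integral extensions -/
theorem ext_hom {S T : Type} [CommRing S] [CommRing T] [Algebra S T] [Algebra.IsIntegral S T]
    (hinj : Function.Injective (algebraMap S T)) (ι : Qb →+* S) (ev : S →+* Qb)
    (hι : ∀ c, ev (ι c) = c) : ∃ ψ : T →+* Qb, ∀ s, ψ (algebraMap S T s) = ev s := by
  classical
  have hsurj : Function.Surjective ev := fun c => ⟨ι c, hι c⟩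
  have hmax := RingHom.ker_isMaximal_of_surjective ev hsurj
  obtain ⟨M, hM, hMc⟩ := Ideal.exists_ideal_over_maximal_of_isIntegral (S := T) (RingHom.ker ev)
    (by rw [(RingHom.injective_iff_ker_eq_bot _).1 hinj]; exact bot_le)
  let φ : Qb →+* T ⧸ M := (Ideal.Quotient.mk M).comp ((algebraMap S T).comp ι)
  have hφ : ∀ s, Ideal.Quotient.mk M (algebraMap S T s) = φ (ev s) := by
    intro s
    show _ = Ideal.Quotient.mk M (algebraMap S T (ι (ev s)))
    rw [Ideal.Quotient.eq, ← map_sub]
    have h1 : s - ι (ev s) ∈ RingHom.ker ev := by rw [RingHom.mem_ker, map_sub, hι, sub_self]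
    rw [← hMc] at h1
    exact h1
  have hint : φ.IsIntegral := by
    intro t
    obtain ⟨t, rfl⟩ := Ideal.Quotient.mk_surjective t
    obtain ⟨p, hp, hpt⟩ := Algebra.IsIntegral.isIntegral (R := S) t
    refine ⟨p.map ev, hp.map ev, ?_⟩
    rw [eval₂_map]
    have h1 := congrArg (Ideal.Quotient.mk M) hpt
    rw [hom_eval₂, map_zero] at h1
    rw [← h1]
    congr 1
    exact RingHom.ext fun s => (hφ s).symm
  have hdom : IsDomain (T ⧸ M) := Ideal.Quotient.isDomain M
  have hbij := IsAlgClosed.ringHom_bijective_of_isIntegral φ hint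
  let e := RingEquiv.ofBijective φ hbij
  refine ⟨e.symm.toRingHom.comp (Ideal.Quotient.mk M), fun s => ?_⟩
  show e.symm (Ideal.Quotient.mk M (algebraMap S T s)) = ev s
  rw [hφ]
  exact e.symm_apply_apply _

theorem lift_point_aux {n : ℕ} (π : Fin n → RR n) {S : Type} [CommRing S] [NoZeroDivisors S]
    [Algebra S (RR n)] (hSinj : Function.Injective (algebraMap S (RR n))) (e : RR n ≃+* S)
    (he : ∀ P, algebraMap S (RR n) (e P) = MvPolynomial.aeval π P)
    (halg : Algebra.IsAlgebraic S (RR n)) :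
    ∃ s : RR n, s ≠ 0 ∧ ∀ Q : Fin n → Qb, MvPolynomial.eval Q s ≠ 0 →
      ∃ P : Fin n → Qb, pm π P = Q := by
  classical
  obtain ⟨y, hy0, hy⟩ := Algebra.IsAlgebraic.exists_integral_multiples
    S (Finset.univ.image fun i => (MvPolynomial.X i : RR n))
  refine ⟨e.symm y, ?_, fun Q hQ => ?_⟩
  · intro h0
    exact hy0 (by rw [← e.apply_symm_apply y, h0, map_zero])
  let ev : S →+* Qb := (MvPolynomial.eval Q).comp (e.symm : S →+* RR n)
  have hev : ∀ s, ev s = MvPolynomial.eval Q (e.symm s) := fun s => rfl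
  have hint : Algebra.IsIntegral S (Algebra.adjoin S
      (Set.range fun i => y • (MvPolynomial.X i : RR n))) :=
    Algebra.IsIntegral.adjoin (by
      rintro _ ⟨i, rfl⟩
      exact hy _ (Finset.mem_image_of_mem _ (Finset.mem_univ i)))
  set T := Algebra.adjoin S (Set.range fun i => y • (MvPolynomial.X i : RR n)) with hT
  have hcoe : ∀ s : S, ((algebraMap S T s : T) : RR n) = algebraMap S (RR n) s := fun s => rfl
  obtain ⟨ψ, hψ⟩ := ext_hom (S := S) (T := T)
    (fun a b hab => hSinj (by rw [← hcoe, ← hcoe, hab]))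
    ((e : RR n →+* S).comp MvPolynomial.C) ev (fun c => by
      rw [hev]
      show MvPolynomial.eval Q (e.symm (e (MvPolynomial.C c))) = c
      rw [e.symm_apply_apply, MvPolynomial.eval_C])
  let w : Fin n → T := fun i => ⟨y • (MvPolynomial.X i : RR n),
    Algebra.subset_adjoin ⟨i, rfl⟩⟩
  have hQ' : ev y ≠ 0 := hQ
  let P : Fin n → Qb := fun i => ψ (w i) / ev y
  have key : ∀ g : RR n, ∃ (N : ℕ) (t : T), (t : RR n) = algebraMap S (RR n) y ^ N * g ∧
      ψ t = ev y ^ N * MvPolynomial.eval P g := by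
    intro g
    induction g using MvPolynomial.induction_on with
    | C c =>
      refine ⟨0, algebraMap S T (e (MvPolynomial.C c)), ?_, ?_⟩
      · rw [pow_zero, one_mul, hcoe, he, MvPolynomial.algHom_C, MvPolynomial.algebraMap_eq]
      · rw [hψ, pow_zero, one_mul, MvPolynomial.eval_C, hev, e.symm_apply_apply,
          MvPolynomial.eval_C]
    | add g₁ g₂ ih₁ ih₂ =>
      obtain ⟨N₁, t₁, h11, h12⟩ := ih₁
      obtain ⟨N₂, t₂, h21, h22⟩ := ih₂
      refine ⟨N₁ + N₂, algebraMap S T y ^ N₂ * t₁ + algebraMap S T y ^ N₁ * t₂, ?_, ?_⟩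
      · have e1 : ((algebraMap S T y ^ N₂ * t₁ + algebraMap S T y ^ N₁ * t₂ : T) : RR n) =
            algebraMap S (RR n) y ^ N₂ * (t₁ : RR n) + algebraMap S (RR n) y ^ N₁ * (t₂ : RR n) :=
          rfl
        rw [e1, h11, h21]
        ring
      · rw [map_add, map_mul, map_mul, map_pow, map_pow, hψ, h12, h22, map_add]
        ring
    | mul_X g i ih =>
      obtain ⟨N, t, h11, h12⟩ := ih
      refine ⟨N + 1, t * w i, ?_, ?_⟩
      · have e1 : ((t * w i : T) : RR n) = (t : RR n) * (y • (MvPolynomial.X i : RR n)) := rfl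
        rw [e1, h11, Algebra.smul_def]
        ring
      · have e1 : ψ (w i) = ev y * P i := by
          show ψ (w i) = ev y * (ψ (w i) / ev y)
          rw [mul_div_cancel₀ _ hQ']
        rw [map_mul, h12, e1, map_mul, MvPolynomial.eval_X]
        ring
  refine ⟨P, ?_⟩
  funext j
  obtain ⟨N, t, ht1, ht2⟩ := key (π j)
  have hj : algebraMap S (RR n) (e (MvPolynomial.X j)) = π j := by
    rw [he, MvPolynomial.aeval_X]
  have ht3 : t = algebraMap S T (y ^ N * e (MvPolynomial.X j)) := by
    apply Subtype.ext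
    rw [ht1, hcoe, map_mul, map_pow, hj]
  rw [ht3, hψ, map_mul, map_pow, hev (e (MvPolynomial.X j)), e.symm_apply_apply,
    MvPolynomial.eval_X] at ht2
  exact (mul_left_cancel₀ (pow_ne_zero N hQ') ht2).symm

theorem lift_point {n : ℕ} (π : Fin n → RR n)
    (hπ : Function.Injective (MvPolynomial.aeval π : RR n →ₐ[Qb] RR n)) :
    ∃ s : RR n, s ≠ 0 ∧ ∀ Q : Fin n → Qb, MvPolynomial.eval Q s ≠ 0 →
      ∃ P : Fin n → Qb, pm π P = Q := by
  have h1 : AlgebraicIndependent Qb π := hπ
  have h2 : IsTranscendenceBasis Qb π := h1.isTranscendenceBasis_of_trdeg_le_of_finite (by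
    rw [MvPolynomial.trdeg_of_isDomain, Cardinal.lift_id])
  exact lift_point_aux π (S := Algebra.adjoin Qb (Set.range π)) Subtype.coe_injective
    h1.aevalEquiv.toRingEquiv (fun P => h1.algebraMap_aevalEquiv P) h2.isAlgebraic

end Pool.Agent.H78.Zd
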